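import Pool.Agent.Helper769.FAU.UDefs
import Pool.Agent.Helper769.FAF.Base

set_option autoImplicit false
set_option linter.unusedSectionVars false

open Finset Filter Topology

noncomputable section

namespace FAF

theorem SS_mem (R i : ℕ) (z : Env) (x : ℤ) :
    x ∈ SS R i z ↔ x = i ∨ (1 - (R : ℤ) ≤ x ∧ x ≤ (i : ℤ) - 1 ∧ z ((i : ℤ) - 1 - x).toNat = true) := by
  unfold SS
  rw [Finset.mem_insert, Finset.mem_filter, Finset.mem_Icc, and_assoc]

end FAF
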