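import Pool.Agent.Helper769.FAU.UDefs
import Pool.Agent.Helper769.FAF.Base
import Pool.Agent.Helper769.FAU.P_SS_mem

set_option autoImplicit false
set_option linter.unusedSectionVars false

open Finset Filter Topology

noncomputable section

namespace FAF

theorem FF_dep (θ : ℝ) (m : ℕ) (V : Env → ℝ) (hV : Dep m V) (R i0 l : ℕ) (M : ℤ) (i : ℕ) :
    Dep (i + R + m) (FF θ V R i0 l M i) := by
  intro z w hzw
  have h1 : SS R i z = SS R i w := by
    ext x
    rw [SS_mem, SS_mem]
    constructor
    · rintro (h | ⟨h2, h3, h4⟩)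
      · exact Or.inl h
      · refine Or.inr ⟨h2, h3, ?_⟩
        rw [← hzw _ (by omega)]
        exact h4
    · rintro (h | ⟨h2, h3, h4⟩)
      · exact Or.inl h
      · refine Or.inr ⟨h2, h3, ?_⟩
        rw [hzw _ (by omega)]
        exact h4
  have h2 : V z = V w := hV z w (fun j hj => hzw j (by omega))
  unfold FF
  rw [h1, h2]

end FAF
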