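import Pool.Agent.Helper769.FAU.UDefs
import Pool.Agent.Helper769.FAF.Base
import Pool.Agent.Helper769.FAU.P_SS_mem

set_option autoImplicit false
set_option linter.unusedSectionVars false

open Finset Filter Topology

noncomputable section

namespace FAF

theorem SS_adv_cons (z : Env) (i : ℕ) (x : ℤ) (h : x ≤ (i : ℤ) - 1) :
    cons true z (((i + 1 : ℕ) : ℤ) - 1 - x).toNat = z ((i : ℤ) - 1 - x).toNat := by
  unfold cons
  have h1 : (((i + 1 : ℕ) : ℤ) - 1 - x).toNat ≠ 0 := by
    push_cast
    omega
  rw [if_neg h1]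
  congr 1
  push_cast
  omega

theorem SS_adv_zero (z : Env) (i : ℕ) (x : ℤ) (h : x = (i : ℤ)) :
    cons true z (((i + 1 : ℕ) : ℤ) - 1 - x).toNat = true := by
  unfold cons
  have h1 : (((i + 1 : ℕ) : ℤ) - 1 - x).toNat = 0 := by
    push_cast
    omega
  rw [if_pos h1]

theorem SS_adv (R i : ℕ) (hR : 1 ≤ R) (z : Env) :
    SS R (i + 1) (cons true z) = insert ((i : ℤ) + 1) (SS R i z) := by
  ext x
  rw [SS_mem, Finset.mem_insert, SS_mem]
  constructor
  · rintro (h | ⟨h1, h2, h3⟩)
    · left
      rw [h]
      push_cast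
      ring
    · right
      by_cases hx : x = (i : ℤ)
      · exact Or.inl hx
      · right
        have h4 : x ≤ (i : ℤ) - 1 := by
          push_cast at h2
          omega
        rw [SS_adv_cons z i x h4] at h3
        exact ⟨h1, h4, h3⟩
  · rintro (h | h | ⟨h1, h2, h3⟩)
    · left
      rw [h]
      push_cast
      ring
    · right
      refine ⟨?_, ?_, SS_adv_zero z i x h⟩
      · omega
      · push_cast
        omega
    · right
      refine ⟨h1, ?_, ?_⟩
      · push_cast
        omega
      · rw [SS_adv_cons z i x h2]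
        exact h3

end FAF
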