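import Pool.Agent.Helper769.FAU.UDefs
import Pool.Agent.Helper769.FAF.Base
import Pool.Agent.Helper769.FAU.P_SS_mem

set_option autoImplicit false
set_option linter.unusedSectionVars false

open Finset Filter Topology

noncomputable section

namespace FAF

theorem SS_ret (R i : ℕ) (hR : 1 ≤ R) (hi : 1 ≤ i) (z : Env) (hz : z 0 = true) :
    SS R (i - 1) (tl z) = (SS R i z).erase (i : ℤ) := by
  ext x
  rw [mem_erase, SS_mem, SS_mem]
  have e1 : ((i - 1 : ℕ) : ℤ) = (i : ℤ) - 1 := by omega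
  rw [e1]
  unfold tl
  constructor
  · rintro (h | ⟨h1, h2, h3⟩)
    · refine ⟨by omega, Or.inr ⟨by omega, by omega, ?_⟩⟩
      have : ((i : ℤ) - 1 - x).toNat = 0 := by omega
      rw [this]; exact hz
    · refine ⟨by omega, Or.inr ⟨by omega, by omega, ?_⟩⟩
      have : ((i : ℤ) - 1 - x).toNat = ((i : ℤ) - 1 - 1 - x).toNat + 1 := by omega
      rw [this]; exact h3
  · rintro ⟨h0, h | ⟨h1, h2, h3⟩⟩
    · exact absurd h h0
    · by_cases hx : x = (i : ℤ) - 1
      · exact Or.inl hx
      · refine Or.inr ⟨h1, by omega, ?_⟩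
        have : ((i : ℤ) - 1 - x).toNat = ((i : ℤ) - 1 - 1 - x).toNat + 1 := by omega
        rw [this] at h3; exact h3

end FAF
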