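import Pool.Agent.Helper769.FAU.UDefs
import Pool.Agent.Helper769.FAF.Base
import Pool.Agent.Helper769.FAU.P_SS_mem

set_option autoImplicit false
set_option linter.unusedSectionVars false

open Finset Filter Topology

noncomputable section

namespace FAF

theorem SS_up (R i k : ℕ) (hk : k + 2 ≤ i + R) (z : Env) :
    SS R i (up z k true) = insert ((i : ℤ) - 1 - k) (SS R i z) ∧
    SS R i (up z k false) = (SS R i z).erase ((i : ℤ) - 1 - k) := by
  constructor
  · ext x
    rw [mem_insert, SS_mem, SS_mem]
    by_cases h : x = (i : ℤ) - 1 - k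
    · have h1 : ((i : ℤ) - 1 - x).toNat = k := by omega
      constructor
      · intro _; exact Or.inl h
      · intro _
        refine Or.inr ⟨by omega, by omega, ?_⟩
        rw [h1]; simp [up]
    · constructor
      · rintro (h2 | ⟨h2, h3, h4⟩)
        · exact Or.inr (Or.inl h2)
        · refine Or.inr (Or.inr ⟨h2, h3, ?_⟩)
          have h1 : ((i : ℤ) - 1 - x).toNat ≠ k := by omega
          simpa [up, h1] using h4
      · rintro (h2 | h2 | ⟨h2, h3, h4⟩)
        · exact absurd h2 h
        · exact Or.inl h2
        · refine Or.inr ⟨h2, h3, ?_⟩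
          have h1 : ((i : ℤ) - 1 - x).toNat ≠ k := by omega
          simpa [up, h1] using h4
  · ext x
    rw [mem_erase, SS_mem, SS_mem]
    by_cases h : x = (i : ℤ) - 1 - k
    · have h1 : ((i : ℤ) - 1 - x).toNat = k := by omega
      constructor
      · rintro (h2 | ⟨h2, h3, h4⟩)
        · omega
        · rw [h1] at h4; simp [up] at h4
      · rintro ⟨h2, _⟩; exact absurd h h2
    · constructor
      · rintro (h2 | ⟨h2, h3, h4⟩)
        · exact ⟨h, Or.inl h2⟩
        · refine ⟨h, Or.inr ⟨h2, h3, ?_⟩⟩
          have h1 : ((i : ℤ) - 1 - x).toNat ≠ k := by omega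
          simpa [up, h1] using h4
      · rintro ⟨_, h2 | ⟨h2, h3, h4⟩⟩
        · exact Or.inl h2
        · refine Or.inr ⟨h2, h3, ?_⟩
          have h1 : ((i : ℤ) - 1 - x).toNat ≠ k := by omega
          simpa [up, h1] using h4

end FAF
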