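import Pool.Agent.Helper769.FAU.UDefs
import Pool.Agent.Helper769.FAF.Base
import Pool.Agent.Helper769.FAU.P_SS_mem

set_option autoImplicit false
set_option linter.unusedSectionVars false

open Finset Filter Topology

noncomputable section

namespace FAF

theorem SS_up_far (R i k : ℕ) (hk : i + R ≤ k + 1) (z : Env) (b : Bool) :
    SS R i (up z k b) = SS R i z := by 
  ext x
  rw [SS_mem, SS_mem]
  constructor
  · rintro (h | ⟨h1, h2, h3⟩)
    · exact Or.inl h
    · right
      refine ⟨h1, h2, ?_⟩
      unfold up at h3
      rwa [if_neg (by omega)] at h3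
  · rintro (h | ⟨h1, h2, h3⟩)
    · exact Or.inl h
    · right
      refine ⟨h1, h2, ?_⟩
      unfold up
      rwa [if_neg (by omega)]

end FAF
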