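import Pool.Agent.Helper769.FAU.UDefs
import Pool.Agent.Helper769.FAF.Base
import Pool.Agent.Helper769.FAU.P_SS_mem
import Pool.Agent.Helper769.FAU.P_SS_adv
import Pool.Agent.Helper769.FAU.P_SS_ret
import Pool.Agent.Helper769.FAU.P_SS_up
import Pool.Agent.Helper769.FAU.P_SS_up_far

set_option autoImplicit false
set_option linter.unusedSectionVars false

open Finset Filter Topology

noncomputable section

namespace FAF

/-- the lab generator is the generator on the circle, for functions which do not see the far sites -/
theorem Lab_gen (q : ℝ) (R i n : ℕ) (M : ℤ) (hR : 3 ≤ R) (hi : 1 ≤ i) (hn : i + R ≤ n)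
    (hRM : (R : ℤ) + 2 ≤ M) (hiM : (i : ℤ) + 2 ≤ M) (G : Finset ℤ → ℝ) (z : Env)
    (hfar : ∀ x ∈ Icc (-M) (2 - (R : ℤ)),
      G (insert x (SS R i z)) = G (SS R i z) ∧ G ((SS R i z).erase x) = G (SS R i z)) :
    Lab q n (fun j w => G (SS R j w)) i z = genT q (-M) M G (SS R i z) := by
  have hmem := SS_mem R i z
  set S := SS R i z with hS
  have hiS : (i : ℤ) ∈ S := (hmem i).2 (Or.inl rfl)
  have hi1S : ((i : ℤ) + 1) ∉ S := by
    rw [hmem]
    rintro (h | ⟨_, h, _⟩) <;> omega
  -- the circle side
  have hT : genT q (-M) M G S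
      = (∑ x ∈ Icc (3 - (R : ℤ)) ((i : ℤ) - 1),
          cstT (-M) M x S * (q * G (insert x S) + (1 - q) * G (S.erase x) - G S))
        + (cstT (-M) M i S * (q * G (insert (i : ℤ) S) + (1 - q) * G (S.erase (i : ℤ)) - G S))
        + (cstT (-M) M ((i : ℤ) + 1) S * (q * G (insert ((i : ℤ) + 1) S)
          + (1 - q) * G (S.erase ((i : ℤ) + 1)) - G S)) := by
    have hsub : insert ((i : ℤ) + 1) (insert (i : ℤ) (Icc (3 - (R : ℤ)) ((i : ℤ) - 1)))
        ⊆ Icc (-M) M := by
      intro x hx
      simp only [Finset.mem_insert, Finset.mem_Icc] at hx ⊢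
      omega
    unfold genT
    rw [← Finset.sum_subset hsub]
    · rw [Finset.sum_insert, Finset.sum_insert]
      · ring
      · simp only [Finset.mem_Icc]; omega
      · simp only [Finset.mem_insert, Finset.mem_Icc]; omega
    · intro x hx hx'
      simp only [Finset.mem_insert, Finset.mem_Icc, not_or, not_and] at hx hx'
      by_cases hfx : x ≤ 2 - (R : ℤ)
      · obtain ⟨e1, e2⟩ := hfar x (Finset.mem_Icc.2 ⟨hx.1, hfx⟩)
        rw [e1, e2]
        ring
      · have hxi : (i : ℤ) + 2 ≤ x := by
          by_contra hcon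
          have h3 := hx'.2.2 (by omega)
          omega
        have hc : cstT (-M) M x S = 0 := by
          unfold cstT
          rw [if_neg]
          rintro (h | h)
          · unfold pr at h
            rw [if_neg (by omega), hmem] at h
            rcases h with h | ⟨_, h, _⟩ <;> omega
          · unfold sc at h
            split_ifs at h with hxM
            · rw [hmem] at h
              rcases h with h | ⟨h, _, _⟩ <;> omega
            · rw [hmem] at h
              rcases h with h | ⟨_, h, _⟩ <;> omega
        rw [hc, zero_mul]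
  -- term i+1
  have hT1 : cstT (-M) M ((i : ℤ) + 1) S * (q * G (insert ((i : ℤ) + 1) S)
      + (1 - q) * G (S.erase ((i : ℤ) + 1)) - G S) = q * (G (insert ((i : ℤ) + 1) S) - G S) := by
    have hc : cstT (-M) M ((i : ℤ) + 1) S = 1 := by
      unfold cstT
      rw [if_pos]
      left
      unfold pr
      rw [if_neg (by omega), add_sub_cancel_right]
      exact hiS
    rw [hc, Finset.erase_eq_of_notMem hi1S]
    ring
  -- term i
  have hz0 : ((i : ℤ) - 1) ∈ S ↔ z 0 = true := by
    rw [hmem]
    have : ((i : ℤ) - 1 - ((i : ℤ) - 1)).toNat = 0 := by simp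
    rw [this]
    constructor
    · rintro (h | ⟨_, _, h⟩)
      · omega
      · exact h
    · intro h
      exact Or.inr ⟨by omega, by omega, h⟩
  have hT0 : cstT (-M) M (i : ℤ) S * (q * G (insert (i : ℤ) S) + (1 - q) * G (S.erase (i : ℤ)) - G S)
      = if z 0 = true then (1 - q) * (G (S.erase (i : ℤ)) - G S) else 0 := by
    have hc : cstT (-M) M (i : ℤ) S = if z 0 = true then 1 else 0 := by
      unfold cstT pr sc
      rw [if_neg (show ¬ (i : ℤ) = -M by omega), if_neg (show ¬ (i : ℤ) = M by omega)]
      by_cases h0 : z 0 = true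
      · rw [if_pos (Or.inl (hz0.2 h0)), if_pos h0]
      · rw [if_neg, if_neg h0]
        rintro (h | h)
        · exact h0 (hz0.1 h)
        · exact hi1S h
    rw [hc, Finset.insert_eq_of_mem hiS]
    split_ifs
    · ring
    · ring
  -- the bulk
  have hbulk : ∑ x ∈ Icc (3 - (R : ℤ)) ((i : ℤ) - 1),
      cstT (-M) M x S * (q * G (insert x S) + (1 - q) * G (S.erase x) - G S)
      = ∑ k ∈ range (i + R - 3), cr z k * (q * G (SS R i (up z k true))
        + (1 - q) * G (SS R i (up z k false)) - G S) := by
    refine Finset.sum_nbij' (fun x => ((i : ℤ) - 1 - x).toNat) (fun k => (i : ℤ) - 1 - (k : ℤ))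
      ?_ ?_ ?_ ?_ ?_
    · intro x hx
      rw [Finset.mem_Icc] at hx
      rw [Finset.mem_range]
      omega
    · intro k hk
      rw [Finset.mem_range] at hk
      rw [Finset.mem_Icc]
      omega
    · intro x hx
      rw [Finset.mem_Icc] at hx
      omega
    · intro k hk
      rw [Finset.mem_range] at hk
      omega
    · intro x hx
      rw [Finset.mem_Icc] at hx
      have hk : ((i : ℤ) - 1 - x).toNat + 2 ≤ i + R := by omega
      have hxk : (i : ℤ) - 1 - ((((i : ℤ) - 1 - x).toNat : ℕ) : ℤ) = x := by omega
      obtain ⟨u1, u2⟩ := SS_up R i _ hk z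
      rw [u1, u2, hxk]
      congr 1
      unfold cstT cr pr sc
      rw [if_neg (show ¬ x = -M by omega), if_neg (show ¬ x = M by omega)]
      have a1 : (x + 1 ∈ S) ↔ (((i : ℤ) - 1 - x).toNat = 0 ∨ z (((i : ℤ) - 1 - x).toNat - 1) = true) := by
        rw [hmem]
        constructor
        · rintro (h | ⟨_, h3, h4⟩)
          · left; omega
          · right
            have : ((i : ℤ) - 1 - (x + 1)).toNat = ((i : ℤ) - 1 - x).toNat - 1 := by omega
            rw [← this]
            exact h4
        · rintro (h | h)
          · left; omega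
          · by_cases h0 : ((i : ℤ) - 1 - x).toNat = 0
            · left; omega
            · right
              refine ⟨by omega, by omega, ?_⟩
              have : ((i : ℤ) - 1 - (x + 1)).toNat = ((i : ℤ) - 1 - x).toNat - 1 := by omega
              rw [this]
              exact h
      have a2 : (x - 1 ∈ S) ↔ z (((i : ℤ) - 1 - x).toNat + 1) = true := by
        rw [hmem]
        have : ((i : ℤ) - 1 - (x - 1)).toNat = ((i : ℤ) - 1 - x).toNat + 1 := by omega
        rw [this]
        constructor
        · rintro (h | ⟨_, _, h4⟩)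
          · omega
          · exact h4
        · intro h
          exact Or.inr ⟨by omega, by omega, h⟩
      by_cases hA : x - 1 ∈ S ∨ x + 1 ∈ S
      · rw [if_pos hA, if_pos]
        rcases hA with hA | hA
        · exact Or.inr (Or.inr (a2.1 hA))
        · rcases a1.1 hA with h | h
          · exact Or.inl h
          · exact Or.inr (Or.inl h)
      · rw [if_neg hA, if_neg]
        rintro (h | h | h)
        · exact hA (Or.inr (a1.2 (Or.inl h)))
        · exact hA (Or.inr (a1.2 (Or.inr h)))
        · exact hA (Or.inl (a2.2 h))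
  -- the lab side
  have hL : ∑ k ∈ range n, cr z k * (q * G (SS R i (up z k true))
      + (1 - q) * G (SS R i (up z k false)) - G S)
      = ∑ k ∈ range (i + R - 3), cr z k * (q * G (SS R i (up z k true))
        + (1 - q) * G (SS R i (up z k false)) - G S) := by
    symm
    apply Finset.sum_subset
    · apply Finset.range_subset_range.2
      omega
    · intro k _ hk
      rw [Finset.mem_range, not_lt] at hk
      by_cases hk2 : i + R ≤ k + 1
      · rw [SS_up_far R i k hk2, SS_up_far R i k hk2, ← hS]
        ring
      · obtain ⟨u1, u2⟩ := SS_up R i k (by omega) z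
        obtain ⟨e1, e2⟩ := hfar ((i : ℤ) - 1 - k) (Finset.mem_Icc.2 ⟨by omega, by omega⟩)
        rw [u1, u2, ← hS, e1, e2]
        ring
  rw [hT, hT1, hT0, hbulk]
  unfold Lab
  simp only
  rw [SS_adv R i (by omega) z, ← hS, hL]
  by_cases h0 : z 0 = true
  · rw [if_pos h0, if_pos h0, SS_ret R i (by omega) hi z h0, ← hS]
    ring
  · rw [if_neg h0, if_neg h0]
    ring

end FAF
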