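import Pool.Agent.Helper769.FAU.UDefs
import Pool.Agent.Helper769.FAF.Base

set_option autoImplicit false
set_option linter.unusedSectionVars false

open Finset Filter Topology

noncomputable section

namespace FAF

theorem Lab_mono (q : ℝ) (h0 : 0 < q) (h1 : q < 1) (n : ℕ) (F G : ℕ → Env → ℝ) (i : ℕ) (z : Env)
    (h : ∀ j w, F j w ≤ G j w) (he : F i z = G i z) : Lab q n F i z ≤ Lab q n G i z := by
  have hq1 : 0 ≤ 1 - q := by linarith
  unfold Lab
  rw [he]
  refine add_le_add (add_le_add ?_ ?_) (Finset.sum_le_sum fun k _ => ?_)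
  · exact mul_le_mul_of_nonneg_left (sub_le_sub_right (h _ _) _) h0.le
  · split_ifs with hz
    · exact mul_le_mul_of_nonneg_left (sub_le_sub_right (h _ _) _) hq1
    · exact le_refl _
  · have hc : 0 ≤ cr z k := by
      unfold cr
      split_ifs <;> norm_num
    refine mul_le_mul_of_nonneg_left (sub_le_sub_right (add_le_add ?_ ?_) _) hc
    · exact mul_le_mul_of_nonneg_left (h _ _) h0.le
    · exact mul_le_mul_of_nonneg_left (h _ _) hq1

end FAF
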