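import Pool.Agent.Helper769.FAU.UDefs
import Pool.Agent.Helper769.FAF.Base

set_option autoImplicit false
set_option linter.unusedSectionVars false

open Finset Filter Topology

noncomputable section

namespace FAF

theorem Lab_w (q θ c : ℝ) (m : ℕ) (V : Env → ℝ) (hD : Drift q θ c m V) (n i : ℕ) (hn : m ≤ n)
    (hi : 1 ≤ i) (κ : ℝ) (z : Env) :
    Lab q n (fun j w => Real.exp (θ * (κ - j)) * V w) i z ≤ -c * (Real.exp (θ * (κ - i)) * V z) := by
  obtain ⟨hdep, _, _, hdr⟩ := hD
  set e : ℝ := Real.exp (θ * (κ - i)) with he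
  have hepos : 0 < e := Real.exp_pos _
  have h1 : Real.exp (θ * (κ - ((i + 1 : ℕ) : ℝ))) = e * Real.exp (-θ) := by
    rw [he, ← Real.exp_add]
    congr 1
    push_cast
    ring
  have h2 : Real.exp (θ * (κ - ((i - 1 : ℕ) : ℝ))) = e * Real.exp θ := by
    rw [he, ← Real.exp_add]
    congr 1
    push_cast [Nat.cast_sub hi]
    ring
  have hup : ∀ k, m ≤ k → ∀ b, V (up z k b) = V z := by
    intro k hk b
    refine hdep _ _ fun j hj => ?_
    simp only [up]
    rw [if_neg (by omega)]
  have hsum : ∑ k ∈ range n, cr z k * (q * (e * V (up z k true)) +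
      (1 - q) * (e * V (up z k false)) - e * V z) =
      e * ∑ k ∈ range m, cr z k * (q * V (up z k true) + (1 - q) * V (up z k false) - V z) := by
    rw [Finset.mul_sum]
    symm
    have h3 : ∀ k, cr z k * (q * (e * V (up z k true)) +
      (1 - q) * (e * V (up z k false)) - e * V z) =
      e * (cr z k * (q * V (up z k true) + (1 - q) * V (up z k false) - V z)) := fun k => by ring
    simp only [h3]
    apply Finset.sum_subset
    · exact Finset.range_mono hn
    · intro k _ hk
      have hk' : m ≤ k := by simpa using hk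
      rw [hup k hk', hup k hk']
      ring
  have hL : Lab q n (fun j w => Real.exp (θ * (κ - j)) * V w) i z =
      e * (q * (Real.exp (-θ) * V (cons true z) - V z)
      + (if z 0 = true then (1 - q) * (Real.exp θ * V (tl z) - V z) else 0)
      + ∑ k ∈ range m, cr z k * (q * V (up z k true) + (1 - q) * V (up z k false) - V z)) := by
    unfold Lab
    beta_reduce
    rw [h1, h2, ← he, hsum]
    split_ifs <;> ring
  rw [hL]
  have h4 := mul_le_mul_of_nonneg_left (hdr z) hepos.le
  calc _ ≤ e * (-c * V z) := h4
    _ = -c * (e * V z) := by ring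

end FAF
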