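import Pool.Agent.Helper769.FAU.UDefs
import Pool.Agent.Helper769.FAF.Base

set_option autoImplicit false
set_option linter.unusedSectionVars false

open Finset Filter Topology

noncomputable section

namespace FAF

theorem SS_sub (R i : ℕ) (M : ℤ) (hR : (R : ℤ) ≤ M) (hi : (i : ℤ) ≤ M) (z : Env) :
    SS R i z ⊆ Icc (-M) M ∧ (SS R i z).Nonempty := by
  constructor
  · intro x hx
    unfold SS at hx
    simp only [mem_insert, mem_filter, mem_Icc] at hx ⊢
    rcases hx with hx | ⟨⟨h1, h2⟩, _⟩
    · omega
    · omega
  · unfold SS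
    exact insert_nonempty _ _

end FAF
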