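import Pool.Agent.Helper769.FAU.UDefs
import Pool.Agent.Helper769.FAF.Base
import Pool.Agent.Helper769.FAU.P_SS_sub
import Pool.Agent.Helper769.FAF.P_U_far
import Pool.Agent.Helper769.FAF.P_enumL
import Pool.Agent.Helper769.FAF.P_fi_lt
import Pool.Agent.Helper769.FAF.P_fi_ex

set_option autoImplicit false
set_option linter.unusedSectionVars false

open Finset Filter Topology

noncomputable section

namespace FAF

theorem farL (θ : ℝ) (V : Env → ℝ) (m : ℕ) (hV : Dep m V) (R i : ℕ) (M : ℤ)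
    (hRM : (R : ℤ) + 2 ≤ M) (hiM : (i : ℤ) + m + 2 ≤ M) (z : Env)
    (hf : fi (eL (-M) M 0) (SS R i z) + m + 3 ≤ R) (x : ℤ) (hx : x ∈ Icc (-M) (2 - (R : ℤ))) :
    UU θ V (eL (-M) M 0) (insert x (SS R i z)) = UU θ V (eL (-M) M 0) (SS R i z) ∧
    UU θ V (eL (-M) M 0) ((SS R i z).erase x) = UU θ V (eL (-M) M 0) (SS R i z) := by
  rw [Finset.mem_Icc] at hx
  obtain ⟨hx1, hx2⟩ := hx
  have hR0 : (0 : ℤ) ≤ R := Int.natCast_nonneg R
  have hM0 : 0 ≤ M := by omega
  have hN : (((2 * M + 1).toNat : ℕ) : ℤ) = M - (-M) + 1 := by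
    rw [Int.toNat_of_nonneg (by omega)]; ring
  have hNpos : 0 < (2 * M + 1).toNat := by omega
  have hE := enumL (-M) M 0 (2 * M + 1).toNat hN hNpos
  obtain ⟨hS, hne⟩ := SS_sub R i M (by omega) (by omega) z
  have hfR : ((fi (eL (-M) M 0) (SS R i z) : ℕ) : ℤ) + m + 3 ≤ R := by exact_mod_cast hf
  have hk0 : (((-x).toNat : ℕ) : ℤ) = -x := Int.toNat_of_nonneg (by omega)
  have hek : eL (-M) M 0 (((-x).toNat : ℕ) : ℤ) = x := by
    rw [hk0]
    unfold eL
    have h1 : (0 : ℤ) - -M - -x = M + x := by ring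
    have h2 : M - -M + 1 = 2 * M + 1 := by ring
    rw [h1, h2, Int.emod_eq_of_lt (by omega) (by omega)]
    ring
  have h := U_far hE hS hne θ m V hV (-x).toNat (by omega) (by omega)
  rw [hek] at h
  exact h

end FAF
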