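import Pool.Agent.Helper769.FAU.UDefs
import Pool.Agent.Helper769.FAF.Base
import Pool.Agent.Helper769.FAU.P_SS_sub
import Pool.Agent.Helper769.FAU.P_SS_mem
import Pool.Agent.Helper769.FAF.P_U_far
import Pool.Agent.Helper769.FAF.P_enumR
import Pool.Agent.Helper769.FAF.P_fi_le

set_option autoImplicit false
set_option linter.unusedSectionVars false

open Finset Filter Topology

noncomputable section

namespace FAF

theorem farR (θ : ℝ) (V : Env → ℝ) (m : ℕ) (hV : Dep m V) (R i : ℕ) (M : ℤ) (hR : 3 ≤ R)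
    (hRM : (R : ℤ) + 2 ≤ M) (hiM : (i : ℤ) + m + 2 ≤ M) (z : Env)
    (x : ℤ) (hx : x ∈ Icc (-M) (2 - (R : ℤ))) :
    UU θ V (eR (-M) M 0) (insert x (SS R i z)) = UU θ V (eR (-M) M 0) (SS R i z) ∧
    UU θ V (eR (-M) M 0) ((SS R i z).erase x) = UU θ V (eR (-M) M 0) (SS R i z) := by
  rw [Finset.mem_Icc] at hx
  have hR' : (3 : ℤ) ≤ R := by exact_mod_cast hR
  have hi0 : (0 : ℤ) ≤ i := Int.natCast_nonneg i
  have hm0 : (0 : ℤ) ≤ m := Int.natCast_nonneg m
  have hN : (((2 * M + 1).toNat : ℕ) : ℤ) = M - (-M) + 1 := by omega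
  have hN0 : 0 < (2 * M + 1).toNat := by omega
  have hE := enumR (-M) M 0 (2 * M + 1).toNat hN hN0
  obtain ⟨hS, hne⟩ := SS_sub R i M (by omega) (by omega) z
  have hei : eR (-M) M 0 i = i := by
    unfold eR
    rw [show (0 : ℤ) - -M + i = M + i by ring, show M - -M + 1 = 2 * M + 1 by ring,
      Int.emod_eq_of_lt (by omega) (by omega)]
    ring
  have hfi : fi (eR (-M) M 0) (SS R i z) ≤ i := by
    apply fi_le
    rw [hei, SS_mem]
    exact Or.inl rfl
  have hek : eR (-M) M 0 ((x + 2 * M + 1).toNat : ℤ) = x := by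
    unfold eR
    rw [show (((x + 2 * M + 1).toNat : ℕ) : ℤ) = x + 2 * M + 1 by omega,
      show (0 : ℤ) - -M + (x + 2 * M + 1) = (M + x) + (2 * M + 1) by ring,
      show M - -M + 1 = 2 * M + 1 by ring, Int.add_emod_right,
      Int.emod_eq_of_lt (by omega) (by omega)]
    ring
  have h := U_far hE hS hne θ m V hV (x + 2 * M + 1).toNat (by omega) (by omega)
  rw [hek] at h
  exact h

end FAF
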