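import Pool.Agent.Helper769.FAU.UDefs
import Pool.Agent.Helper769.FAF.Base
import Pool.Agent.Helper769.FAU.P_SS_sub
import Pool.Agent.Helper769.FAU.P_SS_mem
import Pool.Agent.Helper769.FAU.P_Lab_gen
import Pool.Agent.Helper769.FAU.P_farL
import Pool.Agent.Helper769.FAU.P_farR
import Pool.Agent.Helper769.FAU.P_Lab_mono
import Pool.Agent.Helper769.FAU.P_Lab_w
import Pool.Agent.Helper769.FAF.P_core
import Pool.Agent.Helper769.FAF.P_bdry
import Pool.Agent.Helper769.FAF.P_genL
import Pool.Agent.Helper769.FAF.P_genR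
import Pool.Agent.Helper769.FAF.P_enumL
import Pool.Agent.Helper769.FAF.P_enumR
import Pool.Agent.Helper769.FAF.P_UU_nonneg
import Pool.Agent.Helper769.FAF.P_UU_bounds
import Pool.Agent.Helper769.FAF.P_fi_eq
import Pool.Agent.Helper769.FAF.P_fi_le
import Pool.Agent.Helper769.FAF.P_fi_spec
import Pool.Agent.Helper769.FAF.P_fi_ex
import Pool.Agent.Helper769.FAF.P_e_zero

set_option autoImplicit false
set_option linter.unusedSectionVars false

open Finset Filter Topology

noncomputable section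

namespace FAF

theorem FF_drift_fiR (i : ℕ) (M : ℤ) (hiM : (i : ℤ) + 2 ≤ M) (R : ℕ) (z : Env) :
    fi (eR (-M) M 0) (SS R i z) ≤ i := by
  apply fi_le
  rw [SS_mem]
  left
  unfold eR
  have h1 : (0 - -M + (i : ℤ)) = M + i := by ring
  have h2 : (M - -M + 1) = 2 * M + 1 := by ring
  rw [h1, h2, Int.emod_eq_of_lt (by omega) (by omega)]
  ring

theorem FF_drift_pos {a b : ℤ} {N : ℕ} (S : Finset ℤ) (e : ℤ → ℤ) (hE : Enum N (Icc a b) e)
    (hS : S ⊆ Icc a b) (hne : S.Nonempty) (h0 : e 0 = 0) (h : (0 : ℤ) ∉ S) : 1 ≤ fi e S := by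
  by_contra hlt
  have h1 : fi e S = 0 := by omega
  have h2 := (fi_spec (fi_ex hE hS hne)).1
  rw [h1] at h2
  simp only [Nat.cast_zero, h0] at h2
  exact h h2

theorem FF_drift_fiL (θ : ℝ) (hθ : 0 < θ) (V : Env → ℝ) (hV : ∀ z, 1 / 2 ≤ V z)
    (hV2 : ∀ z, V z ≤ 2) (i0 l K i : ℕ) (hK : Real.log 4 ≤ θ * K) (e : ℤ → ℤ) (S : Finset ℤ)
    (hne : S.Nonempty) (z : Env)
    (hlt : UU θ V e S ≤ Real.exp (θ * (l + i0 - i)) * V z) : fi e S ≤ K + l + i0 := by
  have h1 := (UU_bounds θ V hV hV2 e S hne).1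
  have h2 : Real.exp (θ * (l + i0 - i)) ≤ Real.exp (θ * (l + i0)) := by
    apply Real.exp_le_exp.2
    apply mul_le_mul_of_nonneg_left _ hθ.le
    have : (0 : ℝ) ≤ i := Nat.cast_nonneg i
    linarith
  have h3 : Real.exp (θ * (l + i0 - i)) * V z ≤ Real.exp (θ * (l + i0)) * 2 :=
    mul_le_mul h2 (hV2 z) (by linarith [hV z]) (Real.exp_pos _).le
  have h4 : (4 : ℝ) ≤ Real.exp (θ * K) := by
    rw [← Real.exp_log (by norm_num : (0 : ℝ) < 4)]
    exact Real.exp_le_exp.2 hK
  have h5 : Real.exp (θ * fi e S) ≤ Real.exp (θ * (K + l + i0)) := by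
    calc Real.exp (θ * fi e S) ≤ 2 * UU θ V e S := h1
      _ ≤ 4 * Real.exp (θ * (l + i0)) := by linarith
      _ ≤ Real.exp (θ * K) * Real.exp (θ * (l + i0)) :=
          mul_le_mul_of_nonneg_right h4 (Real.exp_pos _).le
      _ = Real.exp (θ * (K + l + i0)) := by
          rw [← Real.exp_add]
          congr 1
          ring
  have h6 := Real.exp_le_exp.1 h5
  have h7 : (fi e S : ℝ) ≤ K + l + i0 := le_of_mul_le_mul_left h6 hθ
  exact_mod_cast h7

theorem FF_drift_A (q θ c : ℝ) (h0 : 0 < q) (h1 : q < 1) (m : ℕ)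
    (V : Env → ℝ) (hD : Drift q θ c m V) (i0 l R i n : ℕ) (M : ℤ) (hi : 1 ≤ i) (hn : m ≤ n)
    (z : Env)
    (hA : Real.exp (θ * (l + i0 - i)) * V z ≤ WW θ V (-M) M 0 (SS R i z)) :
    Lab q n (FF θ V R i0 l M) i z ≤ -c * FF θ V R i0 l M i z := by
  have hF : FF θ V R i0 l M i z = Real.exp (θ * (l + i0 - i)) * V z := min_eq_right hA
  have h2 := Lab_mono q h0 h1 n (FF θ V R i0 l M)
    (fun j w => Real.exp (θ * (((l : ℝ) + i0) - j)) * V w) i z (fun j w => min_le_right _ _) hF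
  have h3 := Lab_w q θ c m V hD n i hn hi ((l : ℝ) + i0) z
  rw [hF]
  exact h2.trans h3

theorem FF_drift (q θ c : ℝ) (h0 : 0 < q) (h1 : q < 1) (hθ : 0 < θ) (hc : 0 < c) (m : ℕ)
    (V : Env → ℝ) (hD : Drift q θ c m V) (i0 l K R i n : ℕ) (M : ℤ) (hK : Real.log 4 ≤ θ * K)
    (hR : i0 + l + K + m + 5 ≤ R) (hi : 1 ≤ i) (hn : i + R + m ≤ n) (hRM : (R : ℤ) + m + 2 ≤ M)
    (hiM : (i : ℤ) + m + 2 ≤ M) (z : Env) :
    Lab q n (FF θ V R i0 l M) i z ≤
      -c * FF θ V R i0 l M i z + ((2 * m + 1) * (2 * Real.exp θ) + 2 * c + 2) := by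
  have hdep : Dep m V := hD.1
  have hV : ∀ z, 1 / 2 ≤ V z := hD.2.1
  have hV2 : ∀ z, V z ≤ 2 := hD.2.2.1
  have hM0 : 0 ≤ M := by omega
  have hconst : 0 ≤ (2 * (m : ℝ) + 1) * (2 * Real.exp θ) := by positivity
  obtain ⟨hSs, hSn⟩ := SS_sub R i M (by omega) (by omega) z
  have hz0 : (0 : ℤ) ∈ Icc (-M) M := by
    rw [mem_Icc]
    omega
  obtain ⟨heR0, heL0⟩ := e_zero (-M) M 0 hz0
  have hNN : (((2 * M + 1).toNat : ℕ) : ℤ) = M - -M + 1 := by omega
  have hNpos : 0 < (2 * M + 1).toNat := by omega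
  rcases le_or_gt (Real.exp (θ * (l + i0 - i)) * V z) (WW θ V (-M) M 0 (SS R i z)) with hA | hB
  · have h2 := FF_drift_A q θ c h0 h1 m V hD i0 l R i n M hi (by omega) z hA
    linarith
  · have hF : FF θ V R i0 l M i z = WW θ V (-M) M 0 (SS R i z) := min_eq_left hB.le
    by_cases hmem : (0 : ℤ) ∈ SS R i z
    · -- B1
      have hfiL : fi (eL (-M) M 0) (SS R i z) = 0 := by
        have : fi (eL (-M) M 0) (SS R i z) ≤ 0 := by
          apply fi_le
          rw [Nat.cast_zero, heL0]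
          exact hmem
        omega
      have hfar : ∀ x ∈ Icc (-M) (2 - (R : ℤ)),
          WW θ V (-M) M 0 (insert x (SS R i z)) = WW θ V (-M) M 0 (SS R i z) ∧
          WW θ V (-M) M 0 ((SS R i z).erase x) = WW θ V (-M) M 0 (SS R i z) := by
        intro x hx
        obtain ⟨a1, a2⟩ := farL θ V m hdep R i M (by omega) (by omega) z
          (by rw [hfiL]; omega) x hx
        obtain ⟨b1, b2⟩ := farR θ V m hdep R i M (by omega) (by omega) (by omega) z x hx
        unfold WW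
        rw [a1, a2, b1, b2]
        exact ⟨rfl, rfl⟩
      have e1 := Lab_mono q h0 h1 n (FF θ V R i0 l M)
        (fun j w => WW θ V (-M) M 0 (SS R j w)) i z (fun j w => min_le_left _ _) hF
      rw [Lab_gen q R i n M (by omega) hi (by omega) (by omega) (by omega)
        (WW θ V (-M) M 0) z hfar] at e1
      have e2 := bdry q θ c h0 h1 hθ m V hD (-M) M 0 hz0 (by omega) hSs hmem
      have e3 : FF θ V R i0 l M i z ≤ 2 := by
        rw [hF]
        have h5 := (UU_bounds θ V hV hV2 (eL (-M) M 0) _ hSn).2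
        rw [hfiL] at h5
        simp only [Nat.cast_zero, mul_zero, Real.exp_zero, mul_one] at h5
        exact (min_le_left _ _).trans h5
      have e4 : c * FF θ V R i0 l M i z ≤ c * 2 := mul_le_mul_of_nonneg_left e3 hc.le
      linarith
    · rcases le_or_gt (UU θ V (eL (-M) M 0) (SS R i z)) (UU θ V (eR (-M) M 0) (SS R i z)) with
        hLR | hLR
      · -- B2
        have hW : WW θ V (-M) M 0 (SS R i z) = UU θ V (eL (-M) M 0) (SS R i z) := min_eq_left hLR
        have hfi : fi (eL (-M) M 0) (SS R i z) ≤ K + l + i0 :=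
          FF_drift_fiL θ hθ V hV hV2 i0 l K i hK _ _ hSn z (by rw [← hW]; exact hB.le)
        have hF' : FF θ V R i0 l M i z = UU θ V (eL (-M) M 0) (SS R i z) := hF.trans hW
        have e1 := Lab_mono q h0 h1 n (FF θ V R i0 l M)
          (fun j w => UU θ V (eL (-M) M 0) (SS R j w)) i z
          (fun j w => (min_le_left _ _).trans (min_le_left _ _)) hF'
        rw [Lab_gen q R i n M (by omega) hi (by omega) (by omega) (by omega)
          (UU θ V (eL (-M) M 0)) z (fun x hx => farL θ V m hdep R i M (by omega) (by omega) z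
          (by omega) x hx), genL q (-M) M 0 hz0 _ hNN] at e1
        have e2 := core q θ c h0 h1 hθ m V hD (enumL (-M) M 0 _ hNN hNpos) hSs hSn
          (FF_drift_pos _ _ (enumL (-M) M 0 _ hNN hNpos) hSs hSn heL0 hmem) (by omega)
        rw [hF']
        linarith
      · -- B3
        have hW : WW θ V (-M) M 0 (SS R i z) = UU θ V (eR (-M) M 0) (SS R i z) :=
          min_eq_right hLR.le
        have hfi : fi (eR (-M) M 0) (SS R i z) ≤ i := FF_drift_fiR i M (by omega) R z
        have hF' : FF θ V R i0 l M i z = UU θ V (eR (-M) M 0) (SS R i z) := hF.trans hW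
        have e1 := Lab_mono q h0 h1 n (FF θ V R i0 l M)
          (fun j w => UU θ V (eR (-M) M 0) (SS R j w)) i z
          (fun j w => (min_le_left _ _).trans (min_le_right _ _)) hF'
        rw [Lab_gen q R i n M (by omega) hi (by omega) (by omega) (by omega)
          (UU θ V (eR (-M) M 0)) z (fun x hx => farR θ V m hdep R i M (by omega) (by omega)
          (by omega) z x hx), genR q (-M) M 0 hz0 _ hNN] at e1
        have e2 := core q θ c h0 h1 hθ m V hD (enumR (-M) M 0 _ hNN hNpos) hSs hSn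
          (FF_drift_pos _ _ (enumR (-M) M 0 _ hNN hNpos) hSs hSn heR0 hmem) (by omega)
        rw [hF']
        linarith

end FAF
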