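import Pool.Agent.Helper769.FAU.UDefs
import Pool.Agent.Helper769.FAF.Base
import Pool.Agent.Helper769.FAU.P_SS_mem
import Pool.Agent.Helper769.FAU.P_SS_sub
import Pool.Agent.Helper769.FAF.P_fi_spec
import Pool.Agent.Helper769.FAF.P_fi_ex
import Pool.Agent.Helper769.FAF.P_enumL
import Pool.Agent.Helper769.FAF.P_enumR
import Pool.Agent.Helper769.FAF.P_UU_bounds

set_option autoImplicit false
set_option linter.unusedSectionVars false

open Finset Filter Topology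

noncomputable section

namespace FAF

theorem FF_low_notMem (R s L : ℕ) (z : Env) (hz : zr s L z) (x : ℤ) (h1 : -((L / 2 : ℕ) : ℤ) < x)
    (h2 : x < ((L / 2 : ℕ) : ℤ)) : x ∉ SS R (s + L / 2 + 1) z := by
  rw [SS_mem]
  rintro (h | ⟨_, _, h⟩)
  · push_cast at h
    omega
  · have h3 := hz ((((s + L / 2 + 1 : ℕ) : ℤ) - 1 - x).toNat) (by omega) (by omega)
    rw [h3] at h
    exact Bool.false_ne_true h

theorem FF_low_fi (R s L : ℕ) (M : ℤ) (hR : L ≤ R) (hRM : (R : ℤ) + 2 ≤ M)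
    (hM : (s : ℤ) + L + 2 ≤ M) (z : Env) (hz : zr s L z) (e : ℤ → ℤ) (N : ℕ)
    (hE : Enum N (Icc (-M) M) e)
    (he : (∀ k : ℤ, 0 ≤ k → k ≤ M → e k = k) ∨ (∀ k : ℤ, 0 ≤ k → k ≤ M → e k = -k)) :
    L / 2 ≤ fi e (SS R (s + L / 2 + 1) z) := by
  have hsub := SS_sub R (s + L / 2 + 1) M (by omega) (by push_cast; omega) z
  have hex := fi_ex hE hsub.1 hsub.2
  have hsp := (fi_spec hex).1
  by_contra hlt
  push Not at hlt
  obtain ⟨k, hk⟩ : ∃ k : ℕ, k = fi e (SS R (s + L / 2 + 1) z) := ⟨_, rfl⟩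
  rw [← hk] at hsp hlt
  rcases he with he | he
  · rw [he k (by omega) (by omega)] at hsp
    exact FF_low_notMem R s L z hz _ (by omega) (by omega) hsp
  · rw [he k (by omega) (by omega)] at hsp
    exact FF_low_notMem R s L z hz _ (by omega) (by omega) hsp

theorem FF_low (θ : ℝ) (hθ : 0 < θ) (V : Env → ℝ) (hV : ∀ z, 1 / 2 ≤ V z) (hV2 : ∀ z, V z ≤ 2)
    (R s L : ℕ) (M : ℤ) (hR : L ≤ R) (hRM : (R : ℤ) + 2 ≤ M) (hM : (s : ℤ) + L + 2 ≤ M) (z : Env)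
    (hz : zr s L z) :
    Real.exp (θ * ((L / 2 : ℕ) : ℝ)) ≤ 2 * FF θ V R (s + L / 2 + 1) (L / 2) M (s + L / 2 + 1) z := by
  have hMpos : 0 ≤ M := by omega
  obtain ⟨N, hN⟩ : ∃ N : ℕ, (N : ℤ) = M - (-M) + 1 := ⟨(M - (-M) + 1).toNat, by omega⟩
  have hN0 : 0 < N := by omega
  have hER := enumR (-M) M 0 N hN hN0
  have hEL := enumL (-M) M 0 N hN hN0
  have hR1 : ∀ k : ℤ, 0 ≤ k → k ≤ M → eR (-M) M 0 k = k := by
    intro k hk0 hk1
    unfold eR
    rw [Int.emod_eq_of_lt (by omega) (by omega)]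
    ring
  have hL1 : ∀ k : ℤ, 0 ≤ k → k ≤ M → eL (-M) M 0 k = -k := by
    intro k hk0 hk1
    unfold eL
    rw [Int.emod_eq_of_lt (by omega) (by omega)]
    ring
  have hfR := FF_low_fi R s L M hR hRM hM z hz _ N hER (Or.inl hR1)
  have hfL := FF_low_fi R s L M hR hRM hM z hz _ N hEL (Or.inr hL1)
  have hne := (SS_sub R (s + L / 2 + 1) M (by omega) (by push_cast; omega) z).2
  have hbR := (UU_bounds θ V hV hV2 (eR (-M) M 0) (SS R (s + L / 2 + 1) z) hne).1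
  have hbL := (UU_bounds θ V hV hV2 (eL (-M) M 0) (SS R (s + L / 2 + 1) z) hne).1
  have heR : Real.exp (θ * ((L / 2 : ℕ) : ℝ)) ≤
      Real.exp (θ * (fi (eR (-M) M 0) (SS R (s + L / 2 + 1) z) : ℝ)) := by
    apply Real.exp_le_exp.2
    apply mul_le_mul_of_nonneg_left _ hθ.le
    exact_mod_cast hfR
  have heL : Real.exp (θ * ((L / 2 : ℕ) : ℝ)) ≤
      Real.exp (θ * (fi (eL (-M) M 0) (SS R (s + L / 2 + 1) z) : ℝ)) := by
    apply Real.exp_le_exp.2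
    apply mul_le_mul_of_nonneg_left _ hθ.le
    exact_mod_cast hfL
  have key : Real.exp (θ * ((L / 2 : ℕ) : ℝ)) / 2 ≤
      FF θ V R (s + L / 2 + 1) (L / 2) M (s + L / 2 + 1) z := by
    unfold FF WW
    refine le_min (le_min ?_ ?_) ?_
    · linarith
    · linarith
    · have e1 : θ * (((L / 2 : ℕ) : ℝ) + ((s + L / 2 + 1 : ℕ) : ℝ) - ((s + L / 2 + 1 : ℕ) : ℝ)) =
          θ * ((L / 2 : ℕ) : ℝ) := by ring
      rw [e1]
      have h1 := hV z
      have h2 := Real.exp_pos (θ * ((L / 2 : ℕ) : ℝ))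
      nlinarith
  linarith

end FAF
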