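import Pool.Agent.Helper769.FAU.UDefs
import Pool.Agent.Helper769.FAF.Base
import Pool.Agent.Helper769.FAF.P_UU_nonneg

set_option autoImplicit false
set_option linter.unusedSectionVars false

open Finset Filter Topology

noncomputable section

namespace FAF

theorem FF_nonneg (θ : ℝ) (V : Env → ℝ) (hV : ∀ z, 1 / 2 ≤ V z) (R i0 l : ℕ) (M : ℤ) (i : ℕ)
    (z : Env) : 0 ≤ FF θ V R i0 l M i z := by
  unfold FF
  refine le_min ?_ ?_
  · unfold WW
    exact le_min (UU_nonneg _ _ hV _ _) (UU_nonneg _ _ hV _ _)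
  · have := hV z
    have h2 := Real.exp_pos (θ * (l + i0 - i))
    positivity

end FAF
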