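import Pool.Agent.Helper769.FAU.UDefs
import Pool.Agent.Helper769.FAF.Base
import Pool.Agent.Helper769.FAU.P_SS_mem
import Pool.Agent.Helper769.FAU.P_SS_sub
import Pool.Agent.Helper769.FAF.P_e_zero
import Pool.Agent.Helper769.FAF.P_fi_eq
import Pool.Agent.Helper769.FAF.P_UU_bounds

set_option autoImplicit false
set_option linter.unusedSectionVars false

open Finset Filter Topology

noncomputable section

namespace FAF

theorem FF_one (θ : ℝ) (hθ : 0 < θ) (V : Env → ℝ) (hV : ∀ z, 1 / 2 ≤ V z) (hV2 : ∀ z, V z ≤ 2)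
    (R i0 l : ℕ) (M : ℤ) (hR : 1 ≤ R) (hM : 2 ≤ M) (z : Env) :
    FF θ V R i0 l M 1 (cons true z) ≤ 2 := by
  have h0 : (0 : ℤ) ∈ SS R 1 (cons true z) := by
    rw [SS_mem]
    right
    refine ⟨by omega, by norm_num, ?_⟩
    simp [cons]
  have hfi : fi (eL (-M) M 0) (SS R 1 (cons true z)) = 0 := by
    apply fi_eq 0
    · have := (e_zero (-M) M 0 (by rw [mem_Icc]; omega)).2
      rw [Nat.cast_zero, this]
      exact h0
    · intro k hk
      omega
  have hU := (UU_bounds θ V hV hV2 (eL (-M) M 0) (SS R 1 (cons true z)) ⟨0, h0⟩).2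
  rw [hfi] at hU
  simp only [Nat.cast_zero, mul_zero, Real.exp_zero, mul_one] at hU
  unfold FF WW
  exact (min_le_left _ _).trans ((min_le_left _ _).trans hU)

end FAF
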