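import Pool.Agent.Helper769.FAU.UDefs
import Pool.Agent.Helper769.FAF.Base
import Pool.Agent.Helper769.FAF.P_E_lift
import Pool.Agent.Helper769.FAF.P_E_one
import Pool.Agent.Helper769.FAF.P_A_dep
import Pool.Agent.Helper769.FAF.P_A_level
import Pool.Agent.Helper769.FAF.P_cert
import Pool.Agent.Helper769.FAF.P_drift
import Pool.Agent.Helper769.FAU.P_FF_drift
import Pool.Agent.Helper769.FAU.P_FF_nonneg
import Pool.Agent.Helper769.FAU.P_FF_dep
import Pool.Agent.Helper769.FAU.P_A_tel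
import Pool.Agent.Helper769.FAU.P_FF_one
import Pool.Agent.Helper769.FAU.P_FF_low

set_option autoImplicit false
set_option linter.unusedSectionVars false

open Finset Filter Topology

noncomputable section

namespace FAF

theorem B1_gap_dep (s L : ℕ) : Dep (s + L) (ind (zr s L)) := by
  classical
  intro z w h
  have h1 : zr s L z ↔ zr s L w := by
    constructor
    · intro hz j hj1 hj2
      rw [← h j hj2]; exact hz j hj1 hj2
    · intro hz j hj1 hj2
      rw [h j hj2]; exact hz j hj1 hj2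
  unfold ind
  simp only [h1]

theorem B1_gap_depsum (n : ℕ) (S : Finset ℕ) (F : ℕ → Env → ℝ) (h : ∀ i ∈ S, Dep n (F i)) :
    Dep n (fun z => ∑ i ∈ S, F i z) := by
  intro z w hzw
  exact Finset.sum_congr rfl (fun i hi => h i hi z w hzw)

/-- gaps have exponentially small probability, up to a polynomial factor in the position -/
theorem B1_gap (q : ℝ) (h0 : 0 < q) (h1 : q < 1) : ∃ C c : ℝ, 0 < C ∧ 0 < c ∧
    ∀ μ : Fam, Inv q μ → ∀ s L : ℕ,
      μ.E (s + L) (ind (zr s L)) ≤ C * (s + L + 1) * Real.exp (-(c * L)) := by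
  obtain ⟨θ, c, m, V, hθ, hc, hD⟩ := drift q h0 h1 (cert q h0 h1)
  obtain ⟨hVd, hV1, hV2, -⟩ := id hD
  obtain ⟨K, hK⟩ : ∃ K : ℕ, Real.log 4 ≤ θ * K := by
    refine ⟨⌈Real.log 4 / θ⌉₊, ?_⟩
    have h2 := Nat.le_ceil (Real.log 4 / θ)
    rw [div_le_iff₀ hθ] at h2
    linarith
  obtain ⟨C1, hC1⟩ : ∃ C1 : ℝ, C1 = (2 * (m : ℝ) + 1) * (2 * Real.exp θ) + 2 * c + 2 := ⟨_, rfl⟩
  have hC1pos : 0 < C1 := by rw [hC1]; positivity
  refine ⟨2 * Real.exp θ * (C1 * (K + 1) + 3) / c, θ / 2, by positivity, by positivity, ?_⟩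
  intro μ hI s L
  obtain ⟨l, hl⟩ : ∃ l : ℕ, l = L / 2 := ⟨_, rfl⟩
  obtain ⟨i0, hi0⟩ : ∃ i0 : ℕ, i0 = s + l + 1 := ⟨_, rfl⟩
  obtain ⟨J, hJ⟩ : ∃ J : ℕ, J = i0 + l + K := ⟨_, rfl⟩
  obtain ⟨R, hR⟩ : ∃ R : ℕ, R = i0 + l + K + m + 5 + L := ⟨_, rfl⟩
  obtain ⟨M, hM⟩ : ∃ M : ℤ, M = (R : ℤ) + J + m + 5 := ⟨_, rfl⟩
  obtain ⟨n, hn⟩ : ∃ n : ℕ, n = J + R + m := ⟨_, rfl⟩
  obtain ⟨F, hF⟩ : ∃ F : ℕ → Env → ℝ, F = FF θ V R i0 l M := ⟨_, rfl⟩
  have hFnn : ∀ i z, 0 ≤ F i z := fun i z => by rw [hF]; exact FF_nonneg θ V hV1 R i0 l M i z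
  obtain ⟨Φ, hΦ⟩ : ∃ Φ : Env → ℝ, Φ = fun z => ∑ i ∈ Finset.Icc 1 J, F i z := ⟨_, rfl⟩
  have hΦnn : ∀ z, 0 ≤ Φ z := fun z => by
    rw [hΦ]; exact Finset.sum_nonneg (fun i _ => hFnn i z)
  have hdep : Dep n Φ := by
    rw [hΦ]
    refine B1_gap_depsum n _ F (fun i hi => ?_)
    rw [Finset.mem_Icc] at hi
    rw [hF]
    exact Dep_mono (by omega) (FF_dep θ m V hVd R i0 l M i)
  have hA : ∀ z, A q n Φ z ≤ (-c) * Φ z + (J * C1 + 3) := by
    intro z
    have e1 := A_tel q h0 h1 n J (by omega) F hFnn z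
    rw [← hΦ] at e1
    have e2 : ∑ i ∈ Finset.Icc 1 J, Lab q n F i z ≤ ∑ i ∈ Finset.Icc 1 J, (-c * F i z + C1) := by
      refine Finset.sum_le_sum (fun i hi => ?_)
      rw [Finset.mem_Icc] at hi
      rw [hF, hC1]
      exact FF_drift q θ c h0 h1 hθ hc m V hD i0 l K R i n M hK (by omega) hi.1 (by omega)
        (by omega) (by omega) z
    rw [Finset.sum_add_distrib, ← Finset.mul_sum, Finset.sum_const, Nat.card_Icc,
      nsmul_eq_mul] at e2
    have e3 : F 1 (cons true z) ≤ 2 := by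
      rw [hF]
      exact FF_one θ hθ V hV1 hV2 R i0 l M (by omega) (by omega) z
    have e4 : F J (tl z) ≤ 1 / 2 := by
      rw [hF]
      refine (min_le_right _ _).trans ?_
      have e5 : (l : ℝ) + i0 - J = -(K : ℝ) := by
        rw [hJ]; push_cast; ring
      rw [e5]
      have e6 : Real.exp (θ * -(K : ℝ)) ≤ 1 / 4 := by
        have e7 : Real.exp (θ * -(K : ℝ)) ≤ Real.exp (-Real.log 4) := by
          apply Real.exp_le_exp.2
          linarith
        rw [Real.exp_neg, Real.exp_log (by norm_num)] at e7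
        linarith
      calc Real.exp (θ * -(K : ℝ)) * V (tl z) ≤ 1 / 4 * 2 :=
            mul_le_mul e6 (hV2 _) (by linarith [hV1 (tl z)]) (by norm_num)
        _ = 1 / 2 := by norm_num
    have e8 : q * F 1 (cons true z) ≤ 2 := by
      nlinarith [hFnn 1 (cons true z)]
    have e9 : (1 - q) * F J (tl z) ≤ 1 / 2 := by
      nlinarith [hFnn J (tl z)]
    have e10 : ((J + 1 - 1 : ℕ) : ℝ) = (J : ℝ) := by simp
    rw [e10] at e2
    have e11 : Φ z = ∑ i ∈ Finset.Icc 1 J, F i z := by rw [hΦ]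
    rw [e11]
    linarith
  have hE : c * μ.E (n + 1) Φ ≤ J * C1 + 3 := by
    have e1 := hI n Φ hdep
    have e2 := E_mono μ (n + 1) (A q n Φ) (fun z => (-c) * Φ z + (J * C1 + 3) * 1)
      (fun z _ => by
        have := hA z
        linarith)
    rw [E_add μ (n + 1) (fun z => (-c) * Φ z) (fun z => (J * C1 + 3) * 1), E_smul μ (n + 1) (-c) Φ,
      E_smul μ (n + 1) (J * C1 + 3) (fun _ => 1), E_one, e1] at e2
    linarith
  have hind : ∀ z, Real.exp (θ * l) * ind (zr s L) z ≤ 2 * Φ z := by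
    intro z
    by_cases hz : zr s L z
    · have e1 : ind (zr s L) z = 1 := by
        unfold ind
        exact if_pos hz
      have e2 := FF_low θ hθ V hV1 hV2 R s L M (by omega) (by omega) (by omega) z hz
      rw [← hl, ← hi0, ← hF] at e2
      have e3 : F i0 z ≤ Φ z := by
        rw [hΦ]
        exact Finset.single_le_sum (f := fun i => F i z) (fun i _ => hFnn i z)
          (Finset.mem_Icc.2 ⟨by omega, by omega⟩)
      rw [e1, mul_one]
      linarith
    · have e1 : ind (zr s L) z = 0 := by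
        unfold ind
        exact if_neg hz
      rw [e1, mul_zero]
      linarith [hΦnn z]
  have hE2 : Real.exp (θ * l) * μ.E (s + L) (ind (zr s L)) ≤ 2 * μ.E (n + 1) Φ := by
    rw [← E_lift μ (s + L) (n + 1) (by omega) (ind (zr s L)) (B1_gap_dep s L), ← E_smul, ← E_smul]
    exact E_mono μ (n + 1) _ _ (fun z _ => hind z)
  have hJle : (J : ℝ) * C1 + 3 ≤ (C1 * (K + 1) + 3) * (s + L + 1) := by
    have e1 : (J : ℝ) ≤ (K + 1) * (s + L + 1) := by
      have e2 : J ≤ (K + 1) * (s + L + 1) := by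
        have : J ≤ s + L + 1 + K := by omega
        nlinarith [Nat.zero_le (K * (s + L))]
      exact_mod_cast e2
    have hs : (0 : ℝ) ≤ s := Nat.cast_nonneg s
    have hL : (0 : ℝ) ≤ L := Nat.cast_nonneg L
    nlinarith [mul_le_mul_of_nonneg_right e1 hC1pos.le]
  have hexp : 1 ≤ Real.exp (θ * l) * (Real.exp θ * Real.exp (-(θ / 2 * L))) := by
    rw [← Real.exp_add, ← Real.exp_add]
    apply Real.one_le_exp
    have e1 : (L : ℝ) ≤ 2 * l + 1 := by
      have : L ≤ 2 * l + 1 := by omega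
      exact_mod_cast this
    nlinarith
  have hEn : 0 ≤ μ.E (s + L) (ind (zr s L)) := by
    have e1 := E_mono μ (s + L) (fun z => 0 * (fun _ => (1 : ℝ)) z) (ind (zr s L)) (fun z _ => by
      unfold ind
      split_ifs <;> simp)
    rw [E_smul μ (s + L) 0 (fun _ => 1), zero_mul] at e1
    exact e1
  have hfin : Real.exp (θ * l) * μ.E (s + L) (ind (zr s L)) ≤
      2 * ((C1 * (K + 1) + 3) * (s + L + 1)) / c := by
    rw [le_div_iff₀ hc]
    nlinarith
  have hE0 : 0 < Real.exp θ * Real.exp (-(θ / 2 * L)) := by positivity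
  calc μ.E (s + L) (ind (zr s L))
      ≤ (Real.exp (θ * l) * (Real.exp θ * Real.exp (-(θ / 2 * L)))) *
        μ.E (s + L) (ind (zr s L)) := le_mul_of_one_le_left hEn hexp
    _ = (Real.exp θ * Real.exp (-(θ / 2 * L))) *
        (Real.exp (θ * l) * μ.E (s + L) (ind (zr s L))) := by ring
    _ ≤ (Real.exp θ * Real.exp (-(θ / 2 * L))) *
        (2 * ((C1 * (K + 1) + 3) * (s + L + 1)) / c) := mul_le_mul_of_nonneg_left hfin hE0.le
    _ = 2 * Real.exp θ * (C1 * (K + 1) + 3) / c * (s + L + 1) * Real.exp (-(θ / 2 * L)) := by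
      ring

end FAF
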