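import Pool.Agent.Helper769.FAU.UDefs
import Pool.Agent.Helper769.FAF.Base

set_option autoImplicit false
set_option linter.unusedSectionVars false

open Finset Filter Topology

noncomputable section

namespace FAF

theorem Pf_inc_key (a c : ℝ) (ha : 0 < a) (hc : 0 < c) :
    a - c ≤ a * (Real.log a - Real.log c) := by
  have h1 : Real.log (c / a) ≤ c / a - 1 := Real.log_le_sub_one_of_pos (div_pos hc ha)
  rw [Real.log_div hc.ne' ha.ne'] at h1
  have h2 : a * (Real.log c - Real.log a) ≤ a * (c / a - 1) :=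
    mul_le_mul_of_nonneg_left h1 ha.le
  have h3 : a * (c / a - 1) = c - a := by field_simp
  nlinarith

theorem Pf_inc_ls (a0 a1 b0 b1 : ℝ) (ha0 : 0 < a0) (ha1 : 0 < a1) (hb0 : 0 < b0) (hb1 : 0 < b1) :
    (a0 + a1) * (Real.log (a0 + a1) - Real.log (b0 + b1)) ≤
      a0 * (Real.log a0 - Real.log b0) + a1 * (Real.log a1 - Real.log b1) := by
  have hA : 0 < a0 + a1 := by linarith
  have hB : 0 < b0 + b1 := by linarith
  have e0 := Pf_inc_key a0 (b0 * (a0 + a1) / (b0 + b1)) ha0 (by positivity)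
  have e1 := Pf_inc_key a1 (b1 * (a0 + a1) / (b0 + b1)) ha1 (by positivity)
  rw [Real.log_div (by positivity) hB.ne', Real.log_mul hb0.ne' hA.ne'] at e0
  rw [Real.log_div (by positivity) hB.ne', Real.log_mul hb1.ne' hA.ne'] at e1
  have h3 : b0 * (a0 + a1) / (b0 + b1) + b1 * (a0 + a1) / (b0 + b1) = a0 + a1 := by
    field_simp
  nlinarith

theorem Pf_inc_alg (q A0 A1 B0 B1 : ℝ) (h0 : 0 < q) (h1 : q < 1) (hA0 : 0 < A0) (hA1 : 0 < A1)
    (hB0 : 0 < B0) (hB1 : 0 < B1) :
    Ph (A0 + A1) (B0 + B1) - (B0 * (Real.log A0 - Real.log (A0 + A1) - Real.log (1 - q))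
      + B1 * (Real.log A1 - Real.log (A0 + A1) - Real.log q)) ≤ Ph A0 B0 + Ph A1 B1 := by
  have hB : 0 < B0 + B1 := by linarith
  have h1q : 0 < 1 - q := by linarith
  have e1 := Pf_inc_ls A0 A1 B0 B1 hA0 hA1 hB0 hB1
  have e2 := Pf_inc_ls B0 B1 ((1 - q) * (B0 + B1)) (q * (B0 + B1)) hB0 hB1
    (by positivity) (by positivity)
  rw [show (1 - q) * (B0 + B1) + q * (B0 + B1) = B0 + B1 by ring, sub_self, mul_zero,
    Real.log_mul h1q.ne' hB.ne', Real.log_mul h0.ne' hB.ne'] at e2
  unfold Ph
  nlinarith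

theorem Pf_inc (q : ℝ) (h0 : 0 < q) (h1 : q < 1) (μ : Fam) (hp : ∀ n z, 0 < μ.p n z) (n : ℕ) :
    Pf q μ n - (1 - q) * μ.E (n + 2) (fun z => if z 0 = true then al q μ n (tl z) else 0)
      ≤ Pf q μ (n + 1) := by
  have hcu : ∀ (z : Env) (b : Bool), cons true (up z n b) = up (cons true z) (n + 1) b := by
    intro z b
    funext k
    unfold cons up
    rcases k with _ | k
    · simp
    · simp
  have htc : ∀ (b : Bool) (z : Env), tl (cons b z) = z := by
    intro b z
    funext k
    unfold cons tl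
    simp
  have hE : μ.E (n + 2) (fun z => if z 0 = true then al q μ n (tl z) else 0)
      = ∑ z ∈ W n, (μ.p (n + 2) (cons true (up z n false)) * al q μ n (up z n false)
        + μ.p (n + 2) (cons true (up z n true)) * al q μ n (up z n true)) := by
    unfold Fam.E
    rw [sum_cons (n + 1)]
    rw [sum_succ n]
    apply Finset.sum_congr rfl
    intro z _
    simp only [htc]
    simp [cons]
  rw [hE]
  have h1q : 0 < 1 - q := by linarith
  have hPf : Pf q μ (n + 1) = ∑ z ∈ W n,
      (Ph (q * μ.p (n + 1) (up z n false)) ((1 - q) * μ.p (n + 2) (cons true (up z n false)))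
      + Ph (q * μ.p (n + 1) (up z n true)) ((1 - q) * μ.p (n + 2) (cons true (up z n true)))) := by
    unfold Pf
    rw [sum_succ n]
  rw [hPf]
  unfold Pf
  rw [Finset.mul_sum, ← Finset.sum_sub_distrib]
  apply Finset.sum_le_sum
  intro z _
  have hal : ∀ b : Bool, al q μ n (up z n b) = Real.log (q * μ.p (n + 1) (up z n b))
      - Real.log (q * μ.p n z) - Real.log (rb q b) := by
    intro b
    unfold al
    rw [Real.log_mul h0.ne' (hp _ _).ne', Real.log_mul h0.ne' (hp _ _).ne']
    have e1 : μ.p n (up z n b) = μ.p n z := by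
      apply μ.dep n
      intro i hi
      unfold up
      rw [if_neg hi.ne]
    have e2 : up z n b n = b := by
      unfold up
      rw [if_pos rfl]
    rw [e1, e2]
    ring
  have hcon1 : q * μ.p n z = q * μ.p (n + 1) (up z n false) + q * μ.p (n + 1) (up z n true) := by
    rw [μ.con n z]; ring
  have hcon2 : (1 - q) * μ.p (n + 1) (cons true z) =
      (1 - q) * μ.p (n + 2) (cons true (up z n false))
      + (1 - q) * μ.p (n + 2) (cons true (up z n true)) := by
    rw [μ.con (n + 1) (cons true z), hcu, hcu]; ring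
  have key := Pf_inc_alg q (q * μ.p (n + 1) (up z n false)) (q * μ.p (n + 1) (up z n true))
    ((1 - q) * μ.p (n + 2) (cons true (up z n false)))
    ((1 - q) * μ.p (n + 2) (cons true (up z n true))) h0 h1
    (mul_pos h0 (hp _ _)) (mul_pos h0 (hp _ _)) (mul_pos h1q (hp _ _)) (mul_pos h1q (hp _ _))
  rw [← hcon1, ← hcon2] at key
  rw [hal false, hal true]
  have r0 : rb q false = 1 - q := by simp [rb]
  have r1 : rb q true = q := by simp [rb]
  rw [r0, r1]
  linarith

end FAF
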