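import Pool.Agent.Helper769.FAU.UDefs
import Pool.Agent.Helper769.FAF.Base

set_option autoImplicit false
set_option linter.unusedSectionVars false

open Finset Filter Topology

noncomputable section

namespace FAF

theorem bern_pinsker_der (a x : ℝ) (hx : 0 < x) (hx1 : x < 1) :
    HasDerivAt (fun x => a * (Real.log a - Real.log x) +
      (1 - a) * (Real.log (1 - a) - Real.log (1 - x)) - 2 * (a - x) ^ 2)
      ((x - a) * (1 / (x * (1 - x)) - 4)) x := by
  have h1 : HasDerivAt (fun x => a * (Real.log a - Real.log x)) (a * (0 - x⁻¹)) x :=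
    ((hasDerivAt_const x (Real.log a)).sub (Real.hasDerivAt_log hx.ne')).const_mul a
  have h0 : HasDerivAt (fun x : ℝ => 1 - x) (0 - 1) x :=
    (hasDerivAt_const x (1 : ℝ)).sub (hasDerivAt_id x)
  have h2 : HasDerivAt (fun x => (1 - a) * (Real.log (1 - a) - Real.log (1 - x)))
      ((1 - a) * (0 - (0 - 1) / (1 - x))) x :=
    ((hasDerivAt_const x (Real.log (1 - a))).sub (h0.log (by linarith))).const_mul (1 - a)
  have h3 : HasDerivAt (fun x : ℝ => a - x) (0 - 1) x :=
    (hasDerivAt_const x a).sub (hasDerivAt_id x)
  have h4 := (h3.pow 2).const_mul 2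
  have h5 := (h1.add h2).sub h4
  have h1x : 1 - x ≠ 0 := by linarith
  refine h5.congr_deriv ?_
  field_simp
  ring

theorem bern_pinsker_four (x : ℝ) (hx : 0 < x) (hx1 : x < 1) : 0 ≤ 1 / (x * (1 - x)) - 4 := by
  have h1 : 0 < x * (1 - x) := mul_pos hx (by linarith)
  rw [sub_nonneg, le_div_iff₀ h1]
  nlinarith [sq_nonneg (1 - 2 * x)]

/-- Pinsker's inequality for Bernoulli laws -/
theorem bern_pinsker (a b : ℝ) (ha : 0 < a) (ha1 : a < 1) (hb : 0 < b) (hb1 : b < 1) :
    2 * (a - b) ^ 2 ≤ kl2 a b := by
  obtain ⟨g, hg⟩ : ∃ g : ℝ → ℝ, g = fun x => a * (Real.log a - Real.log x) +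
      (1 - a) * (Real.log (1 - a) - Real.log (1 - x)) - 2 * (a - x) ^ 2 := ⟨_, rfl⟩
  have hder : ∀ x, 0 < x → x < 1 → HasDerivAt g ((x - a) * (1 / (x * (1 - x)) - 4)) x := by
    intro x hx hx1
    rw [hg]
    exact bern_pinsker_der a x hx hx1
  have key : g a ≤ g b := by
    rcases le_total a b with hab | hab
    · have hm : MonotoneOn g (Set.Icc a b) := by
        refine monotoneOn_of_deriv_nonneg (convex_Icc a b) ?_ ?_ ?_
        · intro x hx
          exact (hder x (by linarith [hx.1]) (by linarith [hx.2])).continuousAt.continuousWithinAt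
        · intro x hx
          rw [interior_Icc] at hx
          exact (hder x (by linarith [hx.1]) (by linarith [hx.2])).differentiableAt.differentiableWithinAt
        · intro x hx
          rw [interior_Icc] at hx
          rw [(hder x (by linarith [hx.1]) (by linarith [hx.2])).deriv]
          exact mul_nonneg (by linarith [hx.1])
            (bern_pinsker_four x (by linarith [hx.1]) (by linarith [hx.2]))
      exact hm (Set.left_mem_Icc.2 hab) (Set.right_mem_Icc.2 hab) hab
    · have hm : AntitoneOn g (Set.Icc b a) := by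
        refine antitoneOn_of_deriv_nonpos (convex_Icc b a) ?_ ?_ ?_
        · intro x hx
          exact (hder x (by linarith [hx.1]) (by linarith [hx.2])).continuousAt.continuousWithinAt
        · intro x hx
          rw [interior_Icc] at hx
          exact (hder x (by linarith [hx.1]) (by linarith [hx.2])).differentiableAt.differentiableWithinAt
        · intro x hx
          rw [interior_Icc] at hx
          rw [(hder x (by linarith [hx.1]) (by linarith [hx.2])).deriv]
          exact mul_nonpos_of_nonpos_of_nonneg (by linarith [hx.2])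
            (bern_pinsker_four x (by linarith [hx.1]) (by linarith [hx.2]))
      exact hm (Set.left_mem_Icc.2 hab) (Set.right_mem_Icc.2 hab) hab
  rw [hg] at key
  unfold kl2
  simp only [sub_self, mul_zero, add_zero, ne_eq, OfNat.ofNat_ne_zero, not_false_eq_true, zero_pow] at key
  linarith

end FAF
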