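import Pool.Agent.Helper769.FAU.UDefs
import Pool.Agent.Helper769.FAF.Base
import Pool.Agent.Helper769.FAU.P_bern_pinsker

set_option autoImplicit false
set_option linter.unusedSectionVars false

open Finset Filter Topology

noncomputable section

namespace FAF

theorem aN_lower (q : ℝ) (h0 : 0 < q) (h1 : q < 1) (μ : Fam) (hp : ∀ n z, 0 < μ.p n z) (n : ℕ) :
    ∑ z ∈ W n, 2 * (μ.p (n + 1) (up z n true) - q * μ.p n z) ^ 2 / μ.p n z ≤ aN q μ n := by 
  unfold aN Fam.E
  rw [sum_succ]
  apply Finset.sum_le_sum
  intro z _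
  have hd : ∀ b, μ.p n (up z n b) = μ.p n z := by
    intro b
    apply μ.dep n
    intro i hi
    unfold up
    rw [if_neg (by omega)]
  have hu : ∀ b, up z n b n = b := by
    intro b; unfold up; rw [if_pos rfl]
  unfold al
  rw [hd, hd, hu, hu]
  have hcon := μ.con n z
  have hP := hp n z
  have hF := hp (n + 1) (up z n false)
  have hT := hp (n + 1) (up z n true)
  set P := μ.p n z with hPdef
  set Pf := μ.p (n + 1) (up z n false) with hPf
  set Pt := μ.p (n + 1) (up z n true) with hPt
  have hk := bern_pinsker (Pt / P) q (by positivity) (by rw [div_lt_one hP]; linarith) h0 h1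
  have h1k : 1 - Pt / P = Pf / P := by
    rw [hcon]; field_simp; ring
  unfold kl2 at hk
  rw [h1k, Real.log_div hT.ne' hP.ne', Real.log_div hF.ne' hP.ne'] at hk
  have hm := mul_le_mul_of_nonneg_left hk hP.le
  have e1 : P * (2 * (Pt / P - q) ^ 2) = 2 * (Pt - q * P) ^ 2 / P := by
    field_simp
  have e2 : P * (Pt / P * (Real.log Pt - Real.log P - Real.log q) +
      Pf / P * (Real.log Pf - Real.log P - Real.log (1 - q))) =
      Pf * (Real.log Pf - Real.log P - Real.log (1 - q)) + Pt * (Real.log Pt - Real.log P - Real.log q) := by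
    field_simp; ring
  rw [e1, e2] at hm
  simpa [rb] using hm

end FAF
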