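import Pool.Agent.Helper769.FAU.UDefs
import Pool.Agent.Helper769.FAF.Base

set_option autoImplicit false
set_option linter.unusedSectionVars false

open Finset Filter Topology

noncomputable section

namespace FAF

theorem two_pt_case (q : ℝ) (h0 : 0 < q) (h1 : q < 1) (f0 f1 κ0 κ1 : ℝ)
    (hf0 : 0 < f0) (hf1 : 0 < f1) (hk0 : 0 < κ0) (hk0' : κ0 ≤ 1) (hk1 : 0 < κ1) (hk1' : κ1 ≤ 1)
    (hκ : κ0 ≤ κ1) (K : ℝ)
    (hK : 2 + (-Real.log (q / 2)) / Real.log (4 / 3) + 8 / q ^ 2 ≤ K) :
    (f1 * κ1 - f0 * κ0) * (Real.log f1 - Real.log f0) ≤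
      K * Ph (f0 * κ0) (f1 * κ1) + K * (f0 * (κ0 - q) ^ 2 + f1 * (κ1 - q) ^ 2) := by
  obtain ⟨w, hwd⟩ : ∃ w, w = f0 * κ0 := ⟨_, rfl⟩
  obtain ⟨u, hud⟩ : ∃ u, u = f1 * κ1 := ⟨_, rfl⟩
  have hw : 0 < w := by rw [hwd]; positivity
  have hu : 0 < u := by rw [hud]; positivity
  have hlw : Real.log w = Real.log f0 + Real.log κ0 := by
    rw [hwd, Real.log_mul hf0.ne' hk0.ne']
  have hlu : Real.log u = Real.log f1 + Real.log κ1 := by
    rw [hud, Real.log_mul hf1.ne' hk1.ne']
  rw [← hwd, ← hud]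
  obtain ⟨P, hP⟩ : ∃ P, P = Ph w u := ⟨_, rfl⟩
  obtain ⟨D, hD⟩ : ∃ D, D = f0 * (κ0 - q) ^ 2 + f1 * (κ1 - q) ^ 2 := ⟨_, rfl⟩
  have hD0 : 0 ≤ D := by rw [hD]; positivity
  rw [← hP, ← hD]
  have hP' : P = (w - u) * (Real.log w - Real.log u) := hP
  have hP0 : 0 ≤ P := by
    rw [hP']
    rcases le_total w u with h | h
    · have := Real.log_le_log hw h
      exact mul_nonneg_of_nonpos_of_nonpos (by linarith) (by linarith)
    · have := Real.log_le_log hu h
      exact mul_nonneg (by linarith) (by linarith)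
  have hlk : Real.log κ0 ≤ Real.log κ1 := Real.log_le_log hk0 hκ
  have hlk1 : Real.log κ1 ≤ 0 := Real.log_nonpos hk1.le hk1'
  have hlhs : (u - w) * (Real.log f1 - Real.log f0) =
      P + (w - u) * (Real.log κ1 - Real.log κ0) := by
    rw [hP', hlw, hlu]
    ring
  rw [hlhs]
  have hLam : 0 ≤ -Real.log (q / 2) := by
    rw [neg_nonneg]
    exact Real.log_nonpos (by positivity) (by linarith)
  have hlam : 0 < Real.log (4 / 3) := Real.log_pos (by norm_num)
  have hq2 : 0 < q ^ 2 := by positivity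
  have hLl : 0 ≤ (-Real.log (q / 2)) / Real.log (4 / 3) := div_nonneg hLam hlam.le
  have h8 : 0 ≤ 8 / q ^ 2 := by positivity
  suffices hX : ∃ c1 c2 : ℝ, (w - u) * (Real.log κ1 - Real.log κ0) ≤ c1 * P + c2 * D ∧
      1 + c1 ≤ K ∧ c2 ≤ K by
    obtain ⟨c1, c2, hX, hc1, hc2⟩ := hX
    have e1 := mul_le_mul_of_nonneg_right hc1 hP0
    have e2 := mul_le_mul_of_nonneg_right hc2 hD0
    linarith
  rcases le_or_gt w u with hwu | hwu
  · refine ⟨0, 0, ?_, by linarith, by linarith⟩
    have : (w - u) * (Real.log κ1 - Real.log κ0) ≤ 0 :=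
      mul_nonpos_of_nonpos_of_nonneg (by linarith) (by linarith)
    linarith
  · rcases lt_or_ge κ0 (q / 2) with hc | hc
    · -- case (i)
      refine ⟨0, 4 / q ^ 2, ?_, by linarith, ?_⟩
      · have e1 : (w - u) * (Real.log κ1 - Real.log κ0) ≤ w * (-Real.log κ0) := by
          apply mul_le_mul (by linarith) (by linarith) (by linarith) hw.le
        have e2 : κ0 * (-Real.log κ0) ≤ 1 := by
          have e3 := Real.one_sub_inv_le_log_of_pos hk0
          have e4 : κ0 * (-Real.log κ0) ≤ κ0 * (κ0⁻¹ - 1) :=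
            mul_le_mul_of_nonneg_left (by linarith) hk0.le
          rw [mul_sub, mul_inv_cancel₀ hk0.ne'] at e4
          linarith
        have e5 : w * (-Real.log κ0) ≤ f0 := by
          rw [hwd, mul_assoc]
          calc f0 * (κ0 * (-Real.log κ0)) ≤ f0 * 1 := mul_le_mul_of_nonneg_left e2 hf0.le
            _ = f0 := mul_one _
        have e6 : q ^ 2 / 4 ≤ (κ0 - q) ^ 2 := by
          have e6a : q / 2 ≤ q - κ0 := by linarith
          have e6b := mul_self_le_mul_self (show (0 : ℝ) ≤ q / 2 by linarith) e6a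
          have e6c : (κ0 - q) ^ 2 = (q - κ0) * (q - κ0) := by ring
          have e6d : q ^ 2 / 4 = q / 2 * (q / 2) := by ring
          rw [e6c, e6d]
          exact e6b
        have e7 : f0 ≤ 4 / q ^ 2 * (f0 * (κ0 - q) ^ 2) := by
          have e8 : 4 / q ^ 2 * (f0 * (q ^ 2 / 4)) = f0 := by field_simp
          calc f0 = 4 / q ^ 2 * (f0 * (q ^ 2 / 4)) := e8.symm
            _ ≤ 4 / q ^ 2 * (f0 * (κ0 - q) ^ 2) := by
              apply mul_le_mul_of_nonneg_left _ (by positivity)
              exact mul_le_mul_of_nonneg_left e6 hf0.le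
        have e9 : 4 / q ^ 2 * (f0 * (κ0 - q) ^ 2) ≤ 4 / q ^ 2 * D := by
          apply mul_le_mul_of_nonneg_left _ (by positivity)
          rw [hD]
          have : 0 ≤ f1 * (κ1 - q) ^ 2 := by positivity
          linarith
        linarith
      · have : 4 / q ^ 2 ≤ 8 / q ^ 2 := by
          apply div_le_div_of_nonneg_right _ hq2.le
          norm_num
        linarith
    · rcases le_or_gt (4 * u) (3 * w) with hc2 | hc2
      · -- case (ii)
        refine ⟨(-Real.log (q / 2)) / Real.log (4 / 3), 0, ?_, by linarith, by linarith⟩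
        have e1 : Real.log κ1 - Real.log κ0 ≤ -Real.log (q / 2) := by
          have := Real.log_le_log (by positivity) hc
          linarith
        have e2 : Real.log (4 / 3) ≤ Real.log w - Real.log u := by
          rw [← Real.log_div hw.ne' hu.ne']
          apply Real.log_le_log (by norm_num)
          rw [div_le_div_iff₀ (by norm_num) hu]
          linarith
        have e3 : (w - u) * Real.log (4 / 3) ≤ P := by
          rw [hP']
          exact mul_le_mul_of_nonneg_left e2 (by linarith)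
        have e4 : (w - u) * (Real.log κ1 - Real.log κ0) ≤ (w - u) * (-Real.log (q / 2)) :=
          mul_le_mul_of_nonneg_left e1 (by linarith)
        have e5 : (w - u) * (-Real.log (q / 2)) =
            (-Real.log (q / 2)) / Real.log (4 / 3) * ((w - u) * Real.log (4 / 3)) := by
          field_simp
        have e6 := mul_le_mul_of_nonneg_left e3 hLl
        linarith
      · -- case (iii)
        refine ⟨1 / 2, 8 / q ^ 2, ?_, by linarith, by linarith⟩
        obtain ⟨t, ht⟩ : ∃ t, t = 2 / q * (κ1 - κ0) := ⟨_, rfl⟩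
        have e1 : Real.log κ1 - Real.log κ0 ≤ t := by
          rw [← Real.log_div hk1.ne' hk0.ne']
          have e2 := Real.log_le_sub_one_of_pos (show 0 < κ1 / κ0 by positivity)
          refine e2.trans ?_
          have e3 : κ1 / κ0 - 1 = (κ1 - κ0) / κ0 := by field_simp
          rw [e3, ht, div_le_iff₀ hk0]
          have e4 : (1 : ℝ) ≤ 2 / q * κ0 := by
            rw [div_mul_eq_mul_div, le_div_iff₀ h0]
            linarith
          calc κ1 - κ0 = (κ1 - κ0) * 1 := (mul_one _).symm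
            _ ≤ (κ1 - κ0) * (2 / q * κ0) := mul_le_mul_of_nonneg_left e4 (by linarith)
            _ = 2 / q * (κ1 - κ0) * κ0 := by ring
        have e5 : (w - u) ^ 2 / w ≤ P := by
          rw [hP']
          have e6 : (w - u) / w ≤ Real.log w - Real.log u := by
            have e7 := Real.log_le_sub_one_of_pos (show 0 < u / w by positivity)
            rw [Real.log_div hu.ne' hw.ne'] at e7
            have e8 : (w - u) / w = 1 - u / w := by field_simp
            rw [e8]
            linarith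
          calc (w - u) ^ 2 / w = (w - u) * ((w - u) / w) := by ring
            _ ≤ (w - u) * (Real.log w - Real.log u) := mul_le_mul_of_nonneg_left e6 (by linarith)
        have e9 : (w - u) * t ≤ (w - u) ^ 2 / w / 2 + w * t ^ 2 / 2 := by
          have e10 : 0 ≤ ((w - u) - w * t) ^ 2 / w := by positivity
          have e11 : ((w - u) - w * t) ^ 2 / w =
              (w - u) ^ 2 / w - 2 * ((w - u) * t) + w * t ^ 2 := by
            field_simp
            ring
          rw [e11] at e10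
          linarith
        have e12 : (w - u) * (Real.log κ1 - Real.log κ0) ≤ (w - u) * t :=
          mul_le_mul_of_nonneg_left e1 (by linarith)
        have e13 : t ^ 2 ≤ 8 / q ^ 2 * ((κ1 - q) ^ 2 + (κ0 - q) ^ 2) := by
          have e14 : t ^ 2 = 4 / q ^ 2 * (κ1 - κ0) ^ 2 := by
            rw [ht]; field_simp; ring
          have e15 : 8 / q ^ 2 = 4 / q ^ 2 * 2 := by ring
          rw [e14, e15, mul_assoc]
          apply mul_le_mul_of_nonneg_left _ (by positivity)
          have e15b : 2 * ((κ1 - q) ^ 2 + (κ0 - q) ^ 2) - (κ1 - κ0) ^ 2 =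
              ((κ1 - q) + (κ0 - q)) ^ 2 := by ring
          have e15c := sq_nonneg ((κ1 - q) + (κ0 - q))
          linarith
        have e16 : w ≤ f0 := by
          rw [hwd]
          calc f0 * κ0 ≤ f0 * 1 := mul_le_mul_of_nonneg_left hk0' hf0.le
            _ = f0 := mul_one _
        have e17 : u ≤ f1 := by
          rw [hud]
          calc f1 * κ1 ≤ f1 * 1 := mul_le_mul_of_nonneg_left hk1' hf1.le
            _ = f1 := mul_one _
        have e18 : w ≤ 2 * f1 := by linarith
        have e19 : w * t ^ 2 / 2 ≤ 8 / q ^ 2 * D := by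
          have e20 : w * t ^ 2 ≤ w * (8 / q ^ 2 * ((κ1 - q) ^ 2 + (κ0 - q) ^ 2)) :=
            mul_le_mul_of_nonneg_left e13 hw.le
          have e21 : w * (κ0 - q) ^ 2 ≤ f0 * (κ0 - q) ^ 2 :=
            mul_le_mul_of_nonneg_right e16 (sq_nonneg _)
          have e22 : w * (κ1 - q) ^ 2 ≤ 2 * f1 * (κ1 - q) ^ 2 :=
            mul_le_mul_of_nonneg_right e18 (sq_nonneg _)
          have e23 : w * (8 / q ^ 2 * ((κ1 - q) ^ 2 + (κ0 - q) ^ 2)) =
              8 / q ^ 2 * (w * (κ1 - q) ^ 2 + w * (κ0 - q) ^ 2) := by ring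
          have e24 : w * (κ1 - q) ^ 2 + w * (κ0 - q) ^ 2 ≤ 2 * D := by
            rw [hD]
            have : 0 ≤ f0 * (κ0 - q) ^ 2 := by positivity
            linarith
          have e25 := mul_le_mul_of_nonneg_left e24 h8
          linarith
        linarith

theorem two_pt (q : ℝ) (h0 : 0 < q) (h1 : q < 1) : ∃ K : ℝ, 0 ≤ K ∧ ∀ f0 f1 κ0 κ1 : ℝ,
    0 < f0 → 0 < f1 → 0 < κ0 → κ0 ≤ 1 → 0 < κ1 → κ1 ≤ 1 →
    (f1 * κ1 - f0 * κ0) * (Real.log f1 - Real.log f0) ≤
      K * Ph (f0 * κ0) (f1 * κ1) + K * (f0 * (κ0 - q) ^ 2 + f1 * (κ1 - q) ^ 2) := by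
  obtain ⟨K, hK⟩ : ∃ K, K = 2 + (-Real.log (q / 2)) / Real.log (4 / 3) + 8 / q ^ 2 := ⟨_, rfl⟩
  have hLam : 0 ≤ -Real.log (q / 2) := by
    rw [neg_nonneg]
    exact Real.log_nonpos (by positivity) (by linarith)
  have hlam : 0 < Real.log (4 / 3) := Real.log_pos (by norm_num)
  refine ⟨K, ?_, ?_⟩
  · rw [hK]; positivity
  · intro f0 f1 κ0 κ1 hf0 hf1 hk0 hk0' hk1 hk1'
    rcases le_total κ0 κ1 with hκ | hκ
    · exact two_pt_case q h0 h1 f0 f1 κ0 κ1 hf0 hf1 hk0 hk0' hk1 hk1' hκ K hK.ge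
    · have h := two_pt_case q h0 h1 f1 f0 κ1 κ0 hf1 hf0 hk1 hk1' hk0 hk0' hκ K hK.ge
      have e1 : (f1 * κ1 - f0 * κ0) * (Real.log f1 - Real.log f0) =
          (f0 * κ0 - f1 * κ1) * (Real.log f0 - Real.log f1) := by ring
      have e2 : Ph (f0 * κ0) (f1 * κ1) = Ph (f1 * κ1) (f0 * κ0) := by
        unfold Ph; ring
      rw [e1, e2]
      linarith

end FAF
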