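import Pool.Agent.Helper769.FAU.UDefs
import Pool.Agent.Helper769.FAF.Base
import Pool.Agent.Helper769.FAU.P_two_pt
import Pool.Agent.Helper769.FAU.P_aN_lower
import Pool.Agent.Helper769.FAF.P_Ph_add
import Pool.Agent.Helper769.FAF.P_Ph_nonneg
import Pool.Agent.Helper769.FAF.P_lf_dep
import Pool.Agent.Helper769.FAF.P_Pb_nonneg
import Pool.Agent.Helper769.FAF.P_E_al_nonneg

set_option autoImplicit false
set_option linter.unusedSectionVars false

open Finset Filter Topology

noncomputable section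

namespace FAF

theorem Tb_neg_A (q : ℝ) (h0 : 0 < q) (h1 : q < 1) (p00 p01 p10 p11 : ℝ)
    (a00 : 0 < p00) (a01 : 0 < p01) (a10 : 0 < p10) (a11 : 0 < p11) :
    ((1 - q) * p10 - q * p00 + ((1 - q) * p11 - q * p01)) *
      ((Real.log (p10 + p11) - Real.log q) - (Real.log (p00 + p01) - Real.log (1 - q))) ≤
      Ph (q * p00) ((1 - q) * p10) + Ph (q * p01) ((1 - q) * p11) := by
  have hq1 : 0 < 1 - q := by linarith
  have h := Ph_add (q * p00) ((1 - q) * p10) (q * p01) ((1 - q) * p11)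
    (by positivity) (by positivity) (by positivity) (by positivity)
  refine le_trans (le_of_eq ?_) h
  unfold Ph
  rw [← mul_add, ← mul_add, Real.log_mul h0.ne' (by positivity),
    Real.log_mul hq1.ne' (by positivity)]
  ring

theorem Tb_neg_B (q : ℝ) (h0 : 0 < q) (h1 : q < 1) (K : ℝ) (hK0 : 0 ≤ K)
    (hK : ∀ f0 f1 κ0 κ1 : ℝ,
    0 < f0 → 0 < f1 → 0 < κ0 → κ0 ≤ 1 → 0 < κ1 → κ1 ≤ 1 →
    (f1 * κ1 - f0 * κ0) * (Real.log f1 - Real.log f0) ≤
      K * Ph (f0 * κ0) (f1 * κ1) + K * (f0 * (κ0 - q) ^ 2 + f1 * (κ1 - q) ^ 2))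
    (p00 p01 p10 p11 : ℝ)
    (a00 : 0 < p00) (a01 : 0 < p01) (a10 : 0 < p10) (a11 : 0 < p11) :
    ((1 - q) * p11 - q * p01) *
      ((Real.log (p10 + p11) - Real.log q) - (Real.log (p00 + p01) - Real.log (1 - q))) ≤
      K * Ph (q * p01) ((1 - q) * p11) +
        K * ((p01 - q * (p00 + p01)) ^ 2 / (p00 + p01) +
          (p11 - q * (p10 + p11)) ^ 2 / (p10 + p11)) := by
  have hq1 : 0 < 1 - q := by linarith
  set P0 := p00 + p01 with hP0
  set P1 := p10 + p11 with hP1
  have b0 : 0 < P0 := by positivity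
  have b1 : 0 < P1 := by positivity
  have h := hK (P0 / (1 - q)) (P1 / q) (p01 / P0) (p11 / P1) (by positivity) (by positivity)
    (by positivity) ((div_le_one b0).mpr (by linarith)) (by positivity)
    ((div_le_one b1).mpr (by linarith))
  have e1 : P1 / q * (p11 / P1) = p11 / q := by field_simp
  have e0 : P0 / (1 - q) * (p01 / P0) = p01 / (1 - q) := by field_simp
  rw [e1, e0, Real.log_div b1.ne' h0.ne', Real.log_div b0.ne' hq1.ne'] at h
  have hPh : q * (1 - q) * Ph (p01 / (1 - q)) (p11 / q) = Ph (q * p01) ((1 - q) * p11) := by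
    unfold Ph
    rw [Real.log_div a01.ne' hq1.ne', Real.log_div a11.ne' h0.ne',
      Real.log_mul h0.ne' a01.ne', Real.log_mul hq1.ne' a11.ne']
    field_simp
    ring
  have hS0 : q * (1 - q) * (P0 / (1 - q) * (p01 / P0 - q) ^ 2) ≤ (p01 - q * P0) ^ 2 / P0 := by
    have e : q * (1 - q) * (P0 / (1 - q) * (p01 / P0 - q) ^ 2) =
        q * ((p01 - q * P0) ^ 2 / P0) := by field_simp
    rw [e]
    have : 0 ≤ (p01 - q * P0) ^ 2 / P0 := by positivity
    nlinarith
  have hS1 : q * (1 - q) * (P1 / q * (p11 / P1 - q) ^ 2) ≤ (p11 - q * P1) ^ 2 / P1 := by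
    have e : q * (1 - q) * (P1 / q * (p11 / P1 - q) ^ 2) =
        (1 - q) * ((p11 - q * P1) ^ 2 / P1) := by field_simp
    rw [e]
    have : 0 ≤ (p11 - q * P1) ^ 2 / P1 := by positivity
    nlinarith
  have hmul := mul_le_mul_of_nonneg_left h (by positivity : (0 : ℝ) ≤ q * (1 - q))
  have e2 : q * (1 - q) * ((p11 / q - p01 / (1 - q)) *
      (Real.log P1 - Real.log q - (Real.log P0 - Real.log (1 - q)))) =
      ((1 - q) * p11 - q * p01) *
      ((Real.log P1 - Real.log q) - (Real.log P0 - Real.log (1 - q))) := by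
    have : q * (1 - q) * (p11 / q - p01 / (1 - q)) = (1 - q) * p11 - q * p01 := by
      field_simp
    rw [← mul_assoc, this]
  rw [e2] at hmul
  refine hmul.trans ?_
  have e3 : q * (1 - q) * (K * Ph (p01 / (1 - q)) (p11 / q) +
      K * (P0 / (1 - q) * (p01 / P0 - q) ^ 2 + P1 / q * (p11 / P1 - q) ^ 2)) =
      K * (q * (1 - q) * Ph (p01 / (1 - q)) (p11 / q)) +
      K * (q * (1 - q) * (P0 / (1 - q) * (p01 / P0 - q) ^ 2) +
        q * (1 - q) * (P1 / q * (p11 / P1 - q) ^ 2)) := by ring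
  rw [e3, hPh]
  have hadd := mul_le_mul_of_nonneg_left (add_le_add hS0 hS1) hK0
  linarith

theorem Tb_neg_up (x : Env) (n : ℕ) (b c b' : Bool) :
    up (up (up x n b) (n + 1) c) n b' = up (up x n b') (n + 1) c := by
  funext j
  unfold up
  by_cases h1 : j = n
  · subst h1; simp
  · simp [h1]

theorem Tb_neg_sum2 (n : ℕ) (H : Env → ℝ) :
    ∑ z ∈ W (n + 2), H z = ∑ x ∈ W n,
      ((H (up (up x n false) (n + 1) false) + H (up (up x n false) (n + 1) true)) +
       (H (up (up x n true) (n + 1) false) + H (up (up x n true) (n + 1) true))) := by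
  have h1 := sum_succ (n + 1) H
  have h2 := sum_succ n (fun z => H (up z (n + 1) false) + H (up z (n + 1) true))
  exact h1.trans h2

/-- constraint in terms of the first `n` letters and the last one -/
def Tb_neg_cc (x : Env) (n : ℕ) (c : Bool) : ℝ :=
  if n = 0 ∨ x (n - 1) = true ∨ c = true then 1 else 0

theorem Tb_neg_cr (x : Env) (n : ℕ) (b c : Bool) :
    cr (up (up x n b) (n + 1) c) n = Tb_neg_cc x n c := by
  unfold cr Tb_neg_cc
  have h1 : up (up x n b) (n + 1) c (n + 1) = c := by unfold up; simp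
  rw [h1]
  by_cases hn : n = 0
  · simp [hn]
  · have h2 : up (up x n b) (n + 1) c (n - 1) = x (n - 1) := by
      unfold up
      rw [if_neg (by omega), if_neg (by omega)]
    rw [h2]

theorem Tb_neg_rho (q : ℝ) (x : Env) (n : ℕ) (b : Bool) :
    rho q (n + 1) (up x n b) = rho q n x * rb q b := by
  unfold rho
  rw [prod_range_succ]
  congr 1
  · refine prod_congr rfl (fun k hk => ?_)
    rw [mem_range] at hk
    unfold up
    rw [if_neg (by omega)]
  · unfold up; simp

theorem Tb_neg_rho_pos (q : ℝ) (h0 : 0 < q) (h1 : q < 1) (x : Env) (n : ℕ) : 0 < rho q n x := by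
  unfold rho
  refine prod_pos (fun k _ => ?_)
  unfold rb
  split_ifs <;> linarith

theorem Tb_neg_lf (q : ℝ) (μ : Fam) (x : Env) (n : ℕ) (b c : Bool) :
    lf q μ (n + 1) (up (up x n b) (n + 1) c) = lf q μ (n + 1) (up x n b) := by
  refine lf_dep q μ (n + 1) _ _ (fun i hi => ?_)
  rw [show up (up x n b) (n + 1) c i = up x n b i from by
    conv_lhs => unfold up
    rw [if_neg (by omega)]
    rfl]

theorem Tb_neg_D (q : ℝ) (h0 : 0 < q) (h1 : q < 1) (μ : Fam) (x : Env) (n : ℕ) :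
    lf q μ (n + 1) (up x n true) - lf q μ (n + 1) (up x n false) =
      (Real.log (μ.p (n + 1) (up x n true)) - Real.log q) -
      (Real.log (μ.p (n + 1) (up x n false)) - Real.log (1 - q)) := by
  have hq1 : 0 < 1 - q := by linarith
  have hr := Tb_neg_rho_pos q h0 h1 x n
  unfold lf
  rw [Tb_neg_rho, Tb_neg_rho]
  have e1 : rb q true = q := by unfold rb; simp
  have e0 : rb q false = 1 - q := by unfold rb; simp
  rw [e1, e0, Real.log_mul hr.ne' h0.ne', Real.log_mul hr.ne' hq1.ne']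
  ring

theorem Tb_neg (q : ℝ) (h0 : 0 < q) (h1 : q < 1) : ∃ K : ℝ, 0 ≤ K ∧ ∀ μ : Fam,
    (∀ n z, 0 < μ.p n z) → ∀ n : ℕ,
      - Tb q μ n ≤ K * Pb q μ (n + 2) n + K * aN q μ (n + 1) := by
  have hq1 : 0 < 1 - q := by linarith
  obtain ⟨K2, hK20, hK2⟩ := two_pt q h0 h1
  refine ⟨K2 + 1, by linarith, ?_⟩
  intro μ hp n
  -- notation
  let p00 : Env → ℝ := fun x => μ.p (n + 2) (up (up x n false) (n + 1) false)
  let p01 : Env → ℝ := fun x => μ.p (n + 2) (up (up x n false) (n + 1) true)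
  let p10 : Env → ℝ := fun x => μ.p (n + 2) (up (up x n true) (n + 1) false)
  let p11 : Env → ℝ := fun x => μ.p (n + 2) (up (up x n true) (n + 1) true)
  let S : Env → ℝ := fun x => (p01 x - q * (p00 x + p01 x)) ^ 2 / (p00 x + p01 x) +
          (p11 x - q * (p10 x + p11 x)) ^ 2 / (p10 x + p11 x)
  let D : Env → ℝ := fun x => (Real.log (p10 x + p11 x) - Real.log q) -
    (Real.log (p00 x + p01 x) - Real.log (1 - q))
  have c0 : ∀ x, μ.p (n + 1) (up x n false) = p00 x + p01 x := fun x => μ.con (n + 1) _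
  have c1 : ∀ x, μ.p (n + 1) (up x n true) = p10 x + p11 x := fun x => μ.con (n + 1) _
  have hcc1 : ∀ x, Tb_neg_cc x n true = 1 := by
    intro x
    unfold Tb_neg_cc
    simp
  -- Tb
  have hTb : - Tb q μ n = ∑ x ∈ W n,
      (Tb_neg_cc x n false * ((1 - q) * p10 x - q * p00 x) +
        ((1 - q) * p11 x - q * p01 x)) * D x := by
    unfold Tb Fam.E
    rw [Tb_neg_sum2, ← sum_neg_distrib]
    refine sum_congr rfl (fun x _ => ?_)
    have hD := Tb_neg_D q h0 h1 μ x n
    rw [c0, c1] at hD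
    have hD' : D x = lf q μ (n + 1) (up x n true) - lf q μ (n + 1) (up x n false) := hD.symm
    rw [hD']
    simp only [Tb_neg_up, Tb_neg_cr, Tb_neg_lf, hcc1]
    ring
  -- Pb
  have hPb : Pb q μ (n + 2) n = ∑ x ∈ W n,
      (Tb_neg_cc x n false * Ph (q * p00 x) ((1 - q) * p10 x) +
        Ph (q * p01 x) ((1 - q) * p11 x)) := by
    unfold Pb
    rw [sum_filter, Tb_neg_sum2]
    refine sum_congr rfl (fun x _ => ?_)
    have hv : ∀ b c : Bool, up (up x n b) (n + 1) c n = b := by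
      intro b c
      unfold up
      simp
    simp only [Tb_neg_up, Tb_neg_cr, hcc1, hv]
    simp only [if_true, reduceCtorEq, if_false, add_zero, one_mul]
    rfl
  -- aN
  have haN : ∑ x ∈ W n, 2 * S x ≤ aN q μ (n + 1) := by
    refine le_trans (le_of_eq ?_) (aN_lower q h0 h1 μ hp (n + 1))
    rw [sum_succ n]
    refine sum_congr rfl (fun x _ => ?_)
    rw [c0, c1]
    show 2 * S x = 2 * (p01 x - q * (p00 x + p01 x)) ^ 2 / (p00 x + p01 x) +
      2 * (p11 x - q * (p10 x + p11 x)) ^ 2 / (p10 x + p11 x)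
    show 2 * ((p01 x - q * (p00 x + p01 x)) ^ 2 / (p00 x + p01 x) +
          (p11 x - q * (p10 x + p11 x)) ^ 2 / (p10 x + p11 x)) = _
    ring
  have hS0 : ∀ x, 0 ≤ S x := by
    intro x
    have a0 : 0 < p00 x + p01 x := add_pos (hp _ _) (hp _ _)
    have a1 : 0 < p10 x + p11 x := add_pos (hp _ _) (hp _ _)
    exact add_nonneg (by positivity) (by positivity)
  have hpt : ∀ x, (Tb_neg_cc x n false * ((1 - q) * p10 x - q * p00 x) +
        ((1 - q) * p11 x - q * p01 x)) * D x ≤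
      (K2 + 1) * (Tb_neg_cc x n false * Ph (q * p00 x) ((1 - q) * p10 x) +
        Ph (q * p01 x) ((1 - q) * p11 x)) + K2 * S x := by
    intro x
    have a00 : 0 < p00 x := hp _ _
    have a01 : 0 < p01 x := hp _ _
    have a10 : 0 < p10 x := hp _ _
    have a11 : 0 < p11 x := hp _ _
    have n0 : 0 ≤ Ph (q * p00 x) ((1 - q) * p10 x) := Ph_nonneg _ _ (by positivity) (by positivity)
    have n1 : 0 ≤ Ph (q * p01 x) ((1 - q) * p11 x) := Ph_nonneg _ _ (by positivity) (by positivity)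
    have hcc : Tb_neg_cc x n false = 1 ∨ Tb_neg_cc x n false = 0 := by
      by_cases h : n = 0 ∨ x (n - 1) = true ∨ false = true
      · exact Or.inl (if_pos h)
      · exact Or.inr (if_neg h)
    rcases hcc with hc | hc
    · rw [hc]
      have hA := Tb_neg_A q h0 h1 (p00 x) (p01 x) (p10 x) (p11 x) a00 a01 a10 a11
      have hA' : ((1 - q) * p10 x - q * p00 x + ((1 - q) * p11 x - q * p01 x)) * D x ≤
        Ph (q * p00 x) ((1 - q) * p10 x) + Ph (q * p01 x) ((1 - q) * p11 x) := hA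
      have h3 : 0 ≤ K2 * S x := mul_nonneg hK20 (hS0 x)
      have h4 : 0 ≤ K2 * (Ph (q * p00 x) ((1 - q) * p10 x) + Ph (q * p01 x) ((1 - q) * p11 x)) :=
        mul_nonneg hK20 (add_nonneg n0 n1)
      rw [one_mul, one_mul]
      linarith
    · rw [hc]
      have hB := Tb_neg_B q h0 h1 K2 hK20 hK2 (p00 x) (p01 x) (p10 x) (p11 x) a00 a01 a10 a11
      have hB' : ((1 - q) * p11 x - q * p01 x) * D x ≤
        K2 * Ph (q * p01 x) ((1 - q) * p11 x) + K2 * S x := hB
      rw [zero_mul, zero_mul, zero_add, zero_add]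
      linarith
  rw [hTb, hPb]
  have hsum := sum_le_sum (fun x (_ : x ∈ W n) => hpt x)
  refine hsum.trans ?_
  rw [sum_add_distrib, ← mul_sum, ← mul_sum]
  have hSn : 0 ≤ ∑ x ∈ W n, S x := sum_nonneg (fun x _ => hS0 x)
  rw [← mul_sum] at haN
  have h5 : K2 * ∑ x ∈ W n, S x ≤ (K2 + 1) * aN q μ (n + 1) := by
    have h6 : ∑ x ∈ W n, S x ≤ aN q μ (n + 1) := by linarith
    exact mul_le_mul (by linarith) h6 hSn (by linarith)
  linarith

end FAF
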