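import Pool.Agent.Helper769.FAU.UDefs
import Pool.Agent.Helper769.FAF.Base
import Pool.Agent.Helper769.FAF.P_ident
import Pool.Agent.Helper769.FAF.P_pos
import Pool.Agent.Helper769.FAU.P_Pf_inc
import Pool.Agent.Helper769.FAU.P_Tb_neg
import Pool.Agent.Helper769.FAF.P_Pb_mono
import Pool.Agent.Helper769.FAF.P_Pf_mono
import Pool.Agent.Helper769.FAF.P_Pb_nonneg

set_option autoImplicit false
set_option linter.unusedSectionVars false

open Finset Filter Topology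

noncomputable section

namespace FAF

theorem U1b (q : ℝ) (h0 : 0 < q) (h1 : q < 1) : ∃ K : ℝ, 0 ≤ K ∧ ∀ μ : Fam, Inv q μ → ∀ n : ℕ,
    - Real.log (1 - q) * μ.E 1 (phi q) ≤
      Pt q μ (n + 1) + K * (Pt q μ (n + 1) - Pt q μ n) + q * aN q μ n + K * aN q μ (n + 1) := by 
  obtain ⟨K, hK, hT⟩ := Tb_neg q h0 h1
  refine ⟨K, hK, fun μ hI n => ?_⟩
  have hp := pos q h0 h1 μ hI
  have h2 := ident q h0 h1 μ hI hp n
  have h3 := hT μ hp n
  have h4 := Pf_inc q h0 h1 μ hp n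
  have h5 := Pf_mono q h0 h1 μ hp n
  have h6 : ∑ k ∈ range n, Pb q μ (n + 1) k ≤ ∑ k ∈ range n, Pb q μ (n + 2) k :=
    Finset.sum_le_sum fun k hk => Pb_mono q h0 h1 μ hp (n + 1) k (by
      have := Finset.mem_range.1 hk
      omega)
  have h7 : Pt q μ (n + 1) = Pf q μ (n + 1) + (∑ k ∈ range n, Pb q μ (n + 2) k
      + Pb q μ (n + 2) n) := by
    unfold Pt
    rw [Finset.sum_range_succ]
  have h8 : Pt q μ n = Pf q μ n + ∑ k ∈ range n, Pb q μ (n + 1) k := rfl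
  have h9 : 0 ≤ Pb q μ (n + 2) n := Pb_nonneg q h0 h1 μ hp (n + 2) n
  have h10 : Pb q μ (n + 2) n ≤ Pt q μ (n + 1) - Pt q μ n := by linarith
  have h11 : K * Pb q μ (n + 2) n ≤ K * (Pt q μ (n + 1) - Pt q μ n) :=
    mul_le_mul_of_nonneg_left h10 hK
  have h12 : aN q μ n = μ.E (n + 1) (al q μ n) := rfl
  rw [← h12] at h2
  linarith

end FAF
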