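import Pool.Agent.Helper769.FAU.P_U1a
import Pool.Agent.Helper769.FAU.P_U1b
import Pool.Agent.Helper769.FAU.P_B1_gap
import Pool.Agent.Helper769.FAF.P_E_al_nonneg

set_option autoImplicit false

open Finset

noncomputable section

namespace FAF

theorem U1a_raw (q : ℝ) (h0 : 0 < q) (h1 : q < 1) (μ : Fam) (hI : Inv q μ) (n : ℕ) :
    Pf q μ n + ∑ k ∈ range n, Pb q μ (n + 1) k ≤
      - Real.log (1 - q) * μ.E 1 (phi q) + Tb q μ n + (1 - q) * μ.E (n + 2) (al q μ (n + 1)) :=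
  U1a q h0 h1 μ hI n

theorem U1b_raw (q : ℝ) (h0 : 0 < q) (h1 : q < 1) : ∃ K : ℝ, 0 < K ∧ ∀ μ : Fam, Inv q μ →
    (∀ n z, 0 < μ.p n z) → ∀ n : ℕ,
    - Real.log (1 - q) * μ.E 1 (phi q) ≤
      (Pf q μ (n + 1) + ∑ k ∈ range (n + 1), Pb q μ (n + 2) k) + K * Pb q μ (n + 2) n
        + q * μ.E (n + 1) (al q μ n) + K * μ.E (n + 2) (al q μ (n + 1)) := by
  obtain ⟨K, hK, hT⟩ := Tb_neg q h0 h1
  refine ⟨K + 1, by linarith, fun μ hI hp n => ?_⟩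
  have h2 := ident q h0 h1 μ hI hp n
  have h3 := hT μ hp n
  have h4 := Pf_inc q h0 h1 μ hp n
  have h6 : ∑ k ∈ range n, Pb q μ (n + 1) k ≤ ∑ k ∈ range n, Pb q μ (n + 2) k :=
    Finset.sum_le_sum fun k hk => Pb_mono q h0 h1 μ hp (n + 1) k (by
      have := Finset.mem_range.1 hk
      omega)
  have h9 : 0 ≤ Pb q μ (n + 2) n := Pb_nonneg q h0 h1 μ hp (n + 2) n
  have h12 : aN q μ (n + 1) = μ.E (n + 2) (al q μ (n + 1)) := rfl
  have h13 : 0 ≤ μ.E (n + 2) (al q μ (n + 1)) := E_al_nonneg q h0 h1 μ hp (n + 1)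
  rw [h12] at h3
  rw [Finset.sum_range_succ]
  linarith

/-- gaps, in the form used for the summability of the conditional entropies -/
theorem gap_raw (q : ℝ) (h0 : 0 < q) (h1 : q < 1) (μ : Fam) (hI : Inv q μ) :
    ∃ C c : ℝ, 0 < c ∧ ∀ s b : ℕ,
      μ.E (s + b) (ind (zr s b)) ≤ C * (s + b + 1) ^ 2 * Real.exp (-(c * b)) := by
  obtain ⟨C, c, hC, hc, h⟩ := B1_gap q h0 h1
  refine ⟨C, c, hc, fun s b => (h μ hI s b).trans ?_⟩
  have h2 : (1 : ℝ) ≤ (s : ℝ) + b + 1 := by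
    have := Nat.cast_nonneg (α := ℝ) s
    have := Nat.cast_nonneg (α := ℝ) b
    linarith
  have h3 : ((s : ℝ) + b + 1) ≤ ((s : ℝ) + b + 1) ^ 2 := by nlinarith
  exact mul_le_mul_of_nonneg_right (mul_le_mul_of_nonneg_left h3 hC.le) (Real.exp_pos _).le

end FAF
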