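import Pool.Agent.Helper769.FAU.UDefs
import Pool.Agent.Helper769.FAF.Base

set_option autoImplicit false
set_option linter.unusedSectionVars false

open Finset Filter Topology

noncomputable section

namespace FAF

theorem A_tel_s1 (f : ℕ → ℝ) (J : ℕ) (hJ : 1 ≤ J) :
    ∑ i ∈ Finset.Icc 1 J, f i + f (J + 1) = f 1 + ∑ i ∈ Finset.Icc 1 J, f (i + 1) := by
  induction J, hJ using Nat.le_induction with
  | base => simp
  | succ J hJ ih =>
    rw [Finset.sum_Icc_succ_top (by omega), Finset.sum_Icc_succ_top (by omega)]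
    linarith

theorem A_tel_s2 (f : ℕ → ℝ) (J : ℕ) (hJ : 1 ≤ J) :
    ∑ i ∈ Finset.Icc 1 J, f i + f 0 = f J + ∑ i ∈ Finset.Icc 1 J, f (i - 1) := by
  induction J, hJ using Nat.le_induction with
  | base => simp
  | succ J hJ ih =>
    rw [Finset.sum_Icc_succ_top (by omega), Finset.sum_Icc_succ_top (by omega)]
    rw [Nat.add_sub_cancel]
    linarith

theorem A_tel (q : ℝ) (h0 : 0 < q) (h1 : q < 1) (n J : ℕ) (hJ : 1 ≤ J) (F : ℕ → Env → ℝ)
    (hF : ∀ i z, 0 ≤ F i z) (z : Env) :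
    A q n (fun w => ∑ i ∈ Finset.Icc 1 J, F i w) z ≤
      ∑ i ∈ Finset.Icc 1 J, Lab q n F i z + q * F 1 (cons true z) + (1 - q) * F J (tl z) := by
  have s1 := A_tel_s1 (fun i => F i (cons true z)) J hJ
  have s2 := A_tel_s2 (fun i => F i (tl z)) J hJ
  have p1 := hF (J + 1) (cons true z)
  have p2 := hF 0 (tl z)
  have p3 := hF J (tl z)
  have e3 : ∑ k ∈ range n, cr z k * (q * ∑ i ∈ Finset.Icc 1 J, F i (up z k true)
      + (1 - q) * ∑ i ∈ Finset.Icc 1 J, F i (up z k false) - ∑ i ∈ Finset.Icc 1 J, F i z)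
      = ∑ i ∈ Finset.Icc 1 J, ∑ k ∈ range n, cr z k * (q * F i (up z k true)
        + (1 - q) * F i (up z k false) - F i z) := by
    rw [Finset.sum_comm]
    refine Finset.sum_congr rfl fun k _ => ?_
    rw [← Finset.mul_sum, Finset.sum_sub_distrib, Finset.sum_add_distrib, ← Finset.mul_sum,
      ← Finset.mul_sum]
  have e4 : ∑ i ∈ Finset.Icc 1 J, Lab q n F i z
      = q * (∑ i ∈ Finset.Icc 1 J, F (i + 1) (cons true z) - ∑ i ∈ Finset.Icc 1 J, F i z)
      + (if z 0 = true then (1 - q) * (∑ i ∈ Finset.Icc 1 J, F (i - 1) (tl z)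
          - ∑ i ∈ Finset.Icc 1 J, F i z) else 0)
      + ∑ i ∈ Finset.Icc 1 J, ∑ k ∈ range n, cr z k * (q * F i (up z k true)
        + (1 - q) * F i (up z k false) - F i z) := by
    unfold Lab
    rw [Finset.sum_add_distrib, Finset.sum_add_distrib, ← Finset.mul_sum,
      Finset.sum_sub_distrib]
    congr 2
    split_ifs
    · rw [← Finset.mul_sum, Finset.sum_sub_distrib]
    · simp
  rw [e4]
  unfold A
  rw [e3]
  have m1 : q * ∑ i ∈ Finset.Icc 1 J, F i (cons true z) ≤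
      q * (F 1 (cons true z) + ∑ i ∈ Finset.Icc 1 J, F (i + 1) (cons true z)) :=
    mul_le_mul_of_nonneg_left (by linarith) h0.le
  have m2 : (1 - q) * ∑ i ∈ Finset.Icc 1 J, F i (tl z) ≤
      (1 - q) * (F J (tl z) + ∑ i ∈ Finset.Icc 1 J, F (i - 1) (tl z)) :=
    mul_le_mul_of_nonneg_left (by linarith) (by linarith)
  have m3 : 0 ≤ (1 - q) * F J (tl z) := mul_nonneg (by linarith) p3
  split_ifs
  · rw [mul_sub, mul_sub, mul_sub, mul_sub]
    linarith
  · rw [mul_sub, mul_sub]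
    linarith

end FAF
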