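import Pool.Agent.Helper769.FAU.UDefs
import Pool.Agent.Helper769.FAF.Base

set_option autoImplicit false
set_option linter.unusedSectionVars false

open Finset Filter Topology

noncomputable section

namespace FAF

theorem gibbs_tl_one (P Q S T : ℝ) (hP : 0 < P) (hQ : 0 < Q) (hS : 0 < S) (hT : 0 < T) :
    P * (Real.log Q - Real.log T) ≤ P * (Real.log P - Real.log S) + (Q * S / T - P) := by
  have h1 : Real.log (Q * S / (T * P)) ≤ Q * S / (T * P) - 1 :=
    Real.log_le_sub_one_of_pos (by positivity)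
  rw [Real.log_div (by positivity) (by positivity), Real.log_mul hQ.ne' hS.ne',
    Real.log_mul hT.ne' hP.ne'] at h1
  have h2 := mul_le_mul_of_nonneg_left h1 hP.le
  have h3 : P * (Q * S / (T * P) - 1) = Q * S / T - P := by
    field_simp
  rw [h3] at h2
  linarith

theorem gibbs_tl_two (P0 P1 Q0 Q1 : ℝ) (hP0 : 0 < P0) (hP1 : 0 < P1) (hQ0 : 0 < Q0)
    (hQ1 : 0 < Q1) (S T : ℝ) (hS : S = P0 + P1) (hT : T = Q0 + Q1) :
    P0 * (Real.log Q0 - Real.log T) + P1 * (Real.log Q1 - Real.log T) ≤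
      P0 * (Real.log P0 - Real.log S) + P1 * (Real.log P1 - Real.log S) := by
  have hS' : 0 < S := by rw [hS]; positivity
  have hT' : 0 < T := by rw [hT]; positivity
  have h1 := gibbs_tl_one P0 Q0 S T hP0 hQ0 hS' hT'
  have h2 := gibbs_tl_one P1 Q1 S T hP1 hQ1 hS' hT'
  have h3 : Q0 * S / T + Q1 * S / T = S := by
    rw [← add_div, ← add_mul, ← hT]
    field_simp
  linarith

theorem gibbs_tl_al1 (q : ℝ) (μ : Fam) (n : ℕ) (y : Env) (b : Bool) :
    al q μ n (tl (up y (n + 1) b)) = Real.log (μ.p (n + 1) (up (tl y) n b))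
      - Real.log (μ.p n (tl y)) - Real.log (rb q b) := by
  have e : tl (up y (n + 1) b) = up (tl y) n b := by
    funext k
    simp only [tl, up, Nat.add_right_cancel_iff]
  have e2 : μ.p n (up (tl y) n b) = μ.p n (tl y) := by
    apply μ.dep n
    intro i hi
    simp only [up, if_neg hi.ne]
  have e3 : up (tl y) n b n = b := by simp [up]
  rw [e, al, e2, e3]

theorem gibbs_tl_al2 (q : ℝ) (μ : Fam) (n : ℕ) (y : Env) (b : Bool) :
    al q μ (n + 1) (up y (n + 1) b) = Real.log (μ.p (n + 2) (up y (n + 1) b))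
      - Real.log (μ.p (n + 1) y) - Real.log (rb q b) := by
  have e2 : μ.p (n + 1) (up y (n + 1) b) = μ.p (n + 1) y := by
    apply μ.dep (n + 1)
    intro i hi
    simp only [up, if_neg hi.ne]
  have e3 : up y (n + 1) b (n + 1) = b := by simp [up]
  rw [al, e2, e3]

/-- Gibbs' inequality: the conditional law given one more site fits better -/
theorem gibbs_tl (q : ℝ) (h0 : 0 < q) (h1 : q < 1) (μ : Fam) (hp : ∀ n z, 0 < μ.p n z) (n : ℕ) :
    μ.E (n + 2) (fun z => if z 0 = true then al q μ n (tl z) else 0) ≤ aN q μ (n + 1) := by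
  unfold aN Fam.E
  rw [sum_succ (n + 1) (fun z => μ.p (n + 2) z *
      (fun z => if z 0 = true then al q μ n (tl z) else 0) z),
    sum_succ (n + 1) (fun z => μ.p (n + 1 + 1) z * al q μ (n + 1) z)]
  apply Finset.sum_le_sum
  intro y _
  have hup : ∀ b, up y (n + 1) b 0 = y 0 := by
    intro b
    simp [up]
  have hS := μ.con (n + 1) y
  simp only [hup]
  rw [gibbs_tl_al2, gibbs_tl_al2]
  have hP0 := hp (n + 2) (up y (n + 1) false)
  have hP1 := hp (n + 2) (up y (n + 1) true)
  by_cases hy : y 0 = true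
  · rw [if_pos hy, if_pos hy, gibbs_tl_al1, gibbs_tl_al1]
    have hT := μ.con n (tl y)
    have key := gibbs_tl_two _ _ _ _ hP0 hP1 (hp (n + 1) (up (tl y) n false))
      (hp (n + 1) (up (tl y) n true)) _ _ hS hT
    change μ.p (n + 2) (up y (n + 1) false) * _ + μ.p (n + 2) (up y (n + 1) true) * _ ≤
      μ.p (n + 2) (up y (n + 1) false) * _ + μ.p (n + 2) (up y (n + 1) true) * _
    linarith
  · rw [if_neg hy, if_neg hy]
    have hq0 : 0 < rb q false := by simp [rb, h1]
    have hq1 : 0 < rb q true := by simp [rb, h0]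
    have key := gibbs_tl_two _ _ _ _ hP0 hP1 hq0 hq1 _ 1 hS (by simp [rb])
    rw [Real.log_one] at key
    change μ.p (n + 2) (up y (n + 1) false) * _ + μ.p (n + 2) (up y (n + 1) true) * _ ≤
      μ.p (n + 2) (up y (n + 1) false) * _ + μ.p (n + 2) (up y (n + 1) true) * _
    linarith

end FAF
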