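import Pool.Agent.Helper769.FAU.UDefs
import Pool.Agent.Helper769.FAF.Base
import Pool.Agent.Helper769.FAF.P_ident
import Pool.Agent.Helper769.FAF.P_pos
import Pool.Agent.Helper769.FAU.P_gibbs_tl
import Pool.Agent.Helper769.FAF.P_E_al_nonneg

set_option autoImplicit false
set_option linter.unusedSectionVars false

open Finset Filter Topology

noncomputable section

namespace FAF

theorem U1a (q : ℝ) (h0 : 0 < q) (h1 : q < 1) (μ : Fam) (hI : Inv q μ) (n : ℕ) :
    Pt q μ n ≤ - Real.log (1 - q) * μ.E 1 (phi q) + Tb q μ n + (1 - q) * aN q μ (n + 1) := by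
  have hp := pos q h0 h1 μ hI
  have h2 := ident q h0 h1 μ hI hp n
  have h3 := gibbs_tl q h0 h1 μ hp n
  have h4 := E_al_nonneg q h0 h1 μ hp n
  have h5 := mul_le_mul_of_nonneg_left h3 (show 0 ≤ 1 - q by linarith)
  have h6 := mul_nonneg h0.le h4
  unfold Pt
  linarith

end FAF
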