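import Pool.Agent.Helper769.FAU.UDefs
import Pool.Agent.Helper769.FAF.Base

set_option autoImplicit false
set_option linter.unusedSectionVars false

open Finset Filter Topology

noncomputable section

namespace FAF

theorem half_inv (q : ℝ) (μ ν : Fam) (h : Inv q μ) (h' : Inv q ν) : Inv q (half μ ν) := by
  intro n G hG
  have h1 := h n G hG
  have h2 := h' n G hG
  have e : (half μ ν).E (n + 1) (A q n G) =
      (μ.E (n + 1) (A q n G) + ν.E (n + 1) (A q n G)) / 2 := by
    unfold Fam.E
    rw [← Finset.sum_add_distrib, Finset.sum_div]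
    refine Finset.sum_congr rfl fun z _ => ?_
    show (μ.p (n + 1) z + ν.p (n + 1) z) / 2 * _ = _
    ring
  rw [e, h1, h2]
  norm_num

end FAF
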