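import Pool.Agent.Helper769.FAU.UDefs
import Pool.Agent.Helper769.FAF.Base

set_option autoImplicit false
set_option linter.unusedSectionVars false

open Finset Filter Topology

noncomputable section

namespace FAF

theorem kl2_nonneg (a b : ℝ) (ha : 0 < a) (ha1 : a < 1) (hb : 0 < b) (hb1 : b < 1) :
    0 ≤ kl2 a b := by
  unfold kl2
  have h1 := Real.log_le_sub_one_of_pos (div_pos hb ha)
  have h2 := Real.log_le_sub_one_of_pos (div_pos (sub_pos.2 hb1) (sub_pos.2 ha1))
  have ha' : (0:ℝ) < 1 - a := sub_pos.2 ha1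
  have hb' : (0:ℝ) < 1 - b := sub_pos.2 hb1
  rw [Real.log_div hb.ne' ha.ne'] at h1
  rw [Real.log_div hb'.ne' ha'.ne'] at h2
  have h3 : a * (Real.log b - Real.log a) ≤ b - a := by
    calc _ ≤ a * (b / a - 1) := mul_le_mul_of_nonneg_left h1 ha.le
      _ = b - a := by field_simp
  have h4 : (1 - a) * (Real.log (1 - b) - Real.log (1 - a)) ≤ (1 - b) - (1 - a) := by
    calc _ ≤ (1 - a) * ((1 - b) / (1 - a) - 1) := mul_le_mul_of_nonneg_left h2 ha'.le
      _ = (1 - b) - (1 - a) := by field_simp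
  nlinarith

end FAF
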