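import Pool.Agent.Helper769.FAU.UDefs
import Pool.Agent.Helper769.FAF.Base

set_option autoImplicit false
set_option linter.unusedSectionVars false

open Finset Filter Topology

noncomputable section

namespace FAF

theorem th_bd (μ ν : Fam) (h : ∀ n z, 0 < μ.p n z) (h' : ∀ n z, 0 < ν.p n z) (n : ℕ) (z : Env) :
    0 < th μ ν n z ∧ th μ ν n z < 1 ∧ μ.p n z = 2 * (half μ ν).p n z * th μ ν n z ∧
      ν.p n z = 2 * (half μ ν).p n z * (1 - th μ ν n z) ∧ 0 < (half μ ν).p n z := by
  have h1 := h n z
  have h2 := h' n z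
  have e : (half μ ν).p n z = (μ.p n z + ν.p n z) / 2 := rfl
  have hs : 0 < μ.p n z + ν.p n z := by linarith
  rw [e]
  unfold th
  refine ⟨by positivity, ?_, ?_, ?_, by positivity⟩
  · rw [div_lt_one hs]; linarith
  · field_simp
  · field_simp
    ring

end FAF
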