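import Pool.Agent.Helper769.FAU.UDefs
import Pool.Agent.Helper769.FAF.Base
import Pool.Agent.Helper769.FAU.P_kl2_nonneg
import Pool.Agent.Helper769.FAU.P_th_bd
import Pool.Agent.Helper769.FAU.P_half_inv
import Pool.Agent.Helper769.FAF.P_lf_dep

set_option autoImplicit false
set_option linter.unusedSectionVars false

open Finset Filter Topology

noncomputable section

namespace FAF

/-! positivity of invariant families -/

theorem U4_energy_mono (μ : Fam) (n : ℕ) (z : Env) : μ.p (n + 1) z ≤ μ.p n z := by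
  have h1 := μ.con n z
  have h2 := μ.nn (n + 1) (up z n false)
  have h3 := μ.nn (n + 1) (up z n true)
  have h4 : up z n (z n) = z := by
    funext i
    unfold up
    split_ifs with h
    · rw [h]
    · rfl
  cases hb : z n with
  | false =>
    rw [hb] at h4
    rw [h4] at h1
    linarith
  | true =>
    rw [hb] at h4
    rw [h4] at h1
    linarith

theorem U4_energy_ext (μ : Fam) (n : ℕ) (z : Env) (hz : 0 < μ.p n z) :
    ∃ z' ∈ W (n + 1), 0 < μ.p (n + 1) z' ∧ ∀ i < n, z' i = z i := by
  obtain ⟨z0, hz0⟩ : ∃ z0 : Env, z0 = fun i => if i < n then z i else false := ⟨_, rfl⟩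
  have h1 : ∀ i < n, z0 i = z i := by
    intro i hi
    rw [hz0]
    simp only [hi, if_true]
  have h2 : 0 < μ.p n z0 := by rwa [μ.dep n z0 z h1]
  rw [μ.con n z0] at h2
  have h3 : ∃ b, 0 < μ.p (n + 1) (up z0 n b) := by
    by_contra hcon
    push Not at hcon
    have := hcon false
    have := hcon true
    linarith
  obtain ⟨b, hb⟩ := h3
  refine ⟨up z0 n b, ?_, hb, ?_⟩
  · rw [mem_W]
    intro k hk
    have hk1 : k ≠ n := by omega
    have hk2 : ¬ k < n := by omega
    simp only [up, hk1, if_false, hz0, hk2]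
  · intro i hi
    have hk1 : i ≠ n := by omega
    simp only [up, hk1, if_false]
    exact h1 i hi

theorem U4_energy_key (q : ℝ) (h0 : 0 < q) (h1 : q < 1) (μ : Fam) (hI : Inv q μ) (n : ℕ) (w : Env)
    (hw : μ.p n w = 0) (z : Env) (hz : z ∈ W (n + 1)) (hpz : 0 < μ.p (n + 1) z) :
    (¬ ∀ i < n, cons true z i = w i) ∧
      ∀ k < n, cr z k = 1 → ∀ b, ¬ ∀ i < n, up z k b i = w i := by
  classical
  obtain ⟨G, hG⟩ : ∃ G : Env → ℝ, G = fun z => if ∀ i < n, z i = w i then 1 else 0 := ⟨_, rfl⟩
  have hG0 : ∀ z, 0 ≤ G z := by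
    intro z
    rw [hG]
    change 0 ≤ (if ∀ i < n, z i = w i then (1 : ℝ) else 0)
    split_ifs <;> norm_num
  have hG1 : ∀ z, G z = 0 → ¬ ∀ i < n, z i = w i := by
    intro z hz h
    rw [hG] at hz
    simp only at hz
    rw [if_pos h] at hz
    norm_num at hz
  have hG2 : ∀ z, G z ≠ 0 → ∀ i < n, z i = w i := by
    intro z hz
    by_contra h
    apply hz
    rw [hG]
    simp only
    rw [if_neg h]
  have hdep : Dep n G := by
    intro z z' h
    rw [hG]
    simp only
    have : (∀ i < n, z i = w i) ↔ ∀ i < n, z' i = w i := by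
      constructor
      · intro h2 i hi
        rw [← h i hi]; exact h2 i hi
      · intro h2 i hi
        rw [h i hi]; exact h2 i hi
    simp only [this]
  have hcr : ∀ z k, 0 ≤ cr z k := by
    intro z k
    unfold cr
    split_ifs <;> norm_num
  have hz0 : ∀ z, 0 < μ.p (n + 1) z → G z = 0 := by
    intro z hz
    by_contra hne
    have h2 := U4_energy_mono μ n z
    rw [μ.dep n z w (hG2 z hne), hw] at h2
    linarith
  have hA : ∀ z, G z = 0 → 0 ≤ q * G (cons true z) ∧
      0 ≤ (if z 0 = true then (1 - q) * G (tl z) else 0) ∧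
      (∀ k ∈ range n, 0 ≤ cr z k * (q * G (up z k true) + (1 - q) * G (up z k false))) ∧
      A q n G z = q * G (cons true z) + (if z 0 = true then (1 - q) * G (tl z) else 0) +
        ∑ k ∈ range n, cr z k * (q * G (up z k true) + (1 - q) * G (up z k false)) := by
    intro z hz
    have hq : 0 ≤ 1 - q := by linarith
    refine ⟨mul_nonneg h0.le (hG0 _), ?_, ?_, ?_⟩
    · split_ifs
      · exact mul_nonneg hq (hG0 _)
      · exact le_refl _
    · intro k _
      exact mul_nonneg (hcr z k) (add_nonneg (mul_nonneg h0.le (hG0 _)) (mul_nonneg hq (hG0 _)))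
    · unfold A
      simp only [hz, sub_zero]
  have hsum := hI n G hdep
  unfold Fam.E at hsum
  rw [Finset.sum_eq_zero_iff_of_nonneg] at hsum
  · have h3 := hsum z hz
    have h4 : A q n G z = 0 := by
      rcases mul_eq_zero.1 h3 with h | h
      · linarith
      · exact h
    obtain ⟨a1, a2, a3, a4⟩ := hA z (hz0 z hpz)
    have a5 := Finset.sum_nonneg a3
    rw [a4] at h4
    have b1 : q * G (cons true z) = 0 := by linarith
    have b2 : ∑ k ∈ range n, cr z k * (q * G (up z k true) + (1 - q) * G (up z k false)) = 0 := by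
      linarith
    rw [Finset.sum_eq_zero_iff_of_nonneg a3] at b2
    constructor
    · apply hG1
      rcases mul_eq_zero.1 b1 with h | h
      · linarith
      · exact h
    · intro k hk hck b
      apply hG1
      have b3 := b2 k (Finset.mem_range.2 hk)
      rw [hck, one_mul] at b3
      have c1 := hG0 (up z k true)
      have c2 := hG0 (up z k false)
      have c3 : 0 < 1 - q := by linarith
      have c4 := mul_nonneg h0.le c1
      have c5 := mul_nonneg c3.le c2
      cases b with
      | true =>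
        have : q * G (up z k true) = 0 := by linarith
        rcases mul_eq_zero.1 this with h | h
        · linarith
        · exact h
      | false =>
        have : (1 - q) * G (up z k false) = 0 := by linarith
        rcases mul_eq_zero.1 this with h | h
        · linarith
        · exact h
  · intro z _
    rcases (μ.nn (n + 1) z).eq_or_lt with h | h
    · rw [← h, zero_mul]
    · obtain ⟨a1, a2, a3, a4⟩ := hA z (hz0 z h)
      rw [a4]
      exact mul_nonneg h.le (add_nonneg (add_nonneg a1 a2) (Finset.sum_nonneg a3))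

theorem U4_energy_P1 (q : ℝ) (h0 : 0 < q) (h1 : q < 1) (μ : Fam) (hI : Inv q μ) (n : ℕ) (z : Env)
    (hz : 0 < μ.p n z) : 0 < μ.p n (cons true z) := by
  by_contra hcon
  have hw : μ.p n (cons true z) = 0 := le_antisymm (not_lt.1 hcon) (μ.nn _ _)
  obtain ⟨z', hz', hp, he⟩ := U4_energy_ext μ n z hz
  apply (U4_energy_key q h0 h1 μ hI n _ hw z' hz' hp).1
  intro i hi
  unfold cons
  split_ifs with h
  · rfl
  · exact he (i - 1) (by omega)

theorem U4_energy_P2 (q : ℝ) (h0 : 0 < q) (h1 : q < 1) (μ : Fam) (hI : Inv q μ) (n : ℕ) (z : Env)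
    (hz : 0 < μ.p n z) (k : ℕ) (hk : k < n) (hc : k = 0 ∨ z (k - 1) = true) (b : Bool) :
    0 < μ.p n (up z k b) := by
  by_contra hcon
  have hw : μ.p n (up z k b) = 0 := le_antisymm (not_lt.1 hcon) (μ.nn _ _)
  obtain ⟨z', hz', hp, he⟩ := U4_energy_ext μ n z hz
  refine (U4_energy_key q h0 h1 μ hI n _ hw z' hz' hp).2 k hk ?_ b ?_
  · unfold cr
    rw [if_pos]
    rcases hc with h | h
    · exact Or.inl h
    · right; left
      rw [he (k - 1) (by omega)]
      exact h
  · intro i hi
    unfold up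
    split_ifs with h
    · rfl
    · exact he i hi

theorem U4_energy_pos (q : ℝ) (h0 : 0 < q) (h1 : q < 1) (μ : Fam) (hI : Inv q μ) (n : ℕ)
    (w : Env) : 0 < μ.p n w := by
  have h2 : ∃ z, 0 < μ.p n z := by
    induction n with
    | zero => exact ⟨fun _ => false, by rw [μ.one]; norm_num⟩
    | succ n ih =>
      obtain ⟨z, hz⟩ := ih
      obtain ⟨z', _, hz', _⟩ := U4_energy_ext μ n z hz
      exact ⟨z', hz'⟩
  obtain ⟨u, hu⟩ := h2
  have h3 : ∀ m : ℕ, ∃ z, 0 < μ.p n z ∧ ∀ i < m, z i = true := by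
    intro m
    induction m with
    | zero => exact ⟨u, hu, fun i hi => absurd hi (Nat.not_lt_zero i)⟩
    | succ m ih =>
      obtain ⟨z, hz, hzt⟩ := ih
      refine ⟨cons true z, U4_energy_P1 q h0 h1 μ hI n z hz, ?_⟩
      intro i hi
      unfold cons
      split_ifs with h
      · rfl
      · exact hzt (i - 1) (by omega)
  obtain ⟨t, ht, htt⟩ := h3 n
  have h4 : ∀ d : ℕ, d ≤ n → 0 < μ.p n (fun i => if i < n - d then true else w i) := by
    intro d
    induction d with
    | zero =>
      intro _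
      rw [μ.dep n _ t]
      · exact ht
      · intro i hi
        rw [htt i hi]
        simp only [Nat.sub_zero, hi, if_true]
    | succ d ih =>
      intro hd
      have h5 := U4_energy_P2 q h0 h1 μ hI n _ (ih (by omega)) (n - (d + 1)) (by omega) (by
        by_cases h6 : n - (d + 1) = 0
        · exact Or.inl h6
        · right
          have : n - (d + 1) - 1 < n - d := by omega
          simp only [this, if_true]) (w (n - (d + 1)))
      have h6 : up (fun i => if i < n - d then true else w i) (n - (d + 1)) (w (n - (d + 1))) =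
          fun i => if i < n - (d + 1) then true else w i := by
        funext i
        unfold up
        by_cases h7 : i = n - (d + 1)
        · have h8 : ¬ i < n - (d + 1) := by omega
          rw [if_pos h7, if_neg h8, h7]
        · rw [if_neg h7]
          by_cases h8 : i < n - (d + 1)
          · have h9 : i < n - d := by omega
            rw [if_pos h8]
            simp only [h9, if_true]
          · have h9 : ¬ i < n - d := by omega
            rw [if_neg h8]
            simp only [h9, if_false]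
      rwa [h6] at h5
  have h5 := h4 n le_rfl
  rw [Nat.sub_self] at h5
  simpa using h5

/-! the main computation -/

theorem U4_energy_thdep (μ ν : Fam) (n : ℕ) : Dep n (th μ ν n) := by
  intro z w h
  unfold th
  rw [μ.dep n z w h, ν.dep n z w h]

/-- weighted increment of the logarithms for the move from `z` to `z'` -/
def U4_energy_M (μ ν : Fam) (n : ℕ) (z z' : Env) : ℝ :=
  (half μ ν).p (n + 1) z * (th μ ν (n + 1) z * (Real.log (th μ ν n z') - Real.log (th μ ν n z)) +
    (1 - th μ ν (n + 1) z) * (Real.log (1 - th μ ν n z') - Real.log (1 - th μ ν n z)))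

theorem U4_energy_sum (q : ℝ) (μ ν : Fam) (hI : Inv q μ) (hJ : Inv q ν)
    (hp : ∀ n z, 0 < μ.p n z) (hp' : ∀ n z, 0 < ν.p n z) (n : ℕ) :
    ∑ z ∈ W (n + 1), (q * U4_energy_M μ ν n z (cons true z) +
      (if z 0 = true then (1 - q) * U4_energy_M μ ν n z (tl z) else 0) +
      ∑ k ∈ range n, cr z k * (q * U4_energy_M μ ν n z (up z k true) +
        (1 - q) * U4_energy_M μ ν n z (up z k false))) = 0 := by
  have d1 : Dep n (fun z => Real.log (th μ ν n z)) := by
    intro z w h
    simp only
    rw [U4_energy_thdep μ ν n z w h]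
  have d2 : Dep n (fun z => Real.log (1 - th μ ν n z)) := by
    intro z w h
    simp only
    rw [U4_energy_thdep μ ν n z w h]
  have e1 := hI n _ d1
  have e2 := hJ n _ d2
  unfold Fam.E at e1 e2
  have key : ∀ z ∈ W (n + 1), (q * U4_energy_M μ ν n z (cons true z) +
      (if z 0 = true then (1 - q) * U4_energy_M μ ν n z (tl z) else 0) +
      ∑ k ∈ range n, cr z k * (q * U4_energy_M μ ν n z (up z k true) +
        (1 - q) * U4_energy_M μ ν n z (up z k false))) =
      1 / 2 * (μ.p (n + 1) z * A q n (fun z => Real.log (th μ ν n z)) z) +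
      1 / 2 * (ν.p (n + 1) z * A q n (fun z => Real.log (1 - th μ ν n z)) z) := by
    intro z _
    obtain ⟨_, _, h3, h4, _⟩ := th_bd μ ν hp hp' (n + 1) z
    rw [h3, h4]
    have hs : ∑ k ∈ range n, cr z k * (q * U4_energy_M μ ν n z (up z k true) +
        (1 - q) * U4_energy_M μ ν n z (up z k false)) =
        (half μ ν).p (n + 1) z * th μ ν (n + 1) z * (∑ k ∈ range n, cr z k *
          (q * Real.log (th μ ν n (up z k true)) + (1 - q) * Real.log (th μ ν n (up z k false)) -
            Real.log (th μ ν n z))) +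
        (half μ ν).p (n + 1) z * (1 - th μ ν (n + 1) z) * (∑ k ∈ range n, cr z k *
          (q * Real.log (1 - th μ ν n (up z k true)) +
            (1 - q) * Real.log (1 - th μ ν n (up z k false)) -
            Real.log (1 - th μ ν n z))) := by
      rw [Finset.mul_sum, Finset.mul_sum, ← Finset.sum_add_distrib]
      apply Finset.sum_congr rfl
      intro k _
      unfold U4_energy_M
      ring
    rw [hs]
    unfold A U4_energy_M
    split_ifs <;> ring
  rw [Finset.sum_congr rfl key, Finset.sum_add_distrib, ← Finset.mul_sum, ← Finset.mul_sum, e1, e2]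
  ring

theorem U4_energy_good (μ ν : Fam) (hp : ∀ n z, 0 < μ.p n z) (hp' : ∀ n z, 0 < ν.p n z) (n : ℕ)
    (w : Env → ℝ) (hw : Dep n w) (σ : Env → Env)
    (hσ : ∀ z z' : Env, (∀ i < n, z i = z' i) → th μ ν n (σ z) = th μ ν n (σ z')) :
    ∑ z ∈ W (n + 1), w z * U4_energy_M μ ν n z (σ z) =
      - ∑ z ∈ W n, w z * ((half μ ν).p n z * kl2 (th μ ν n z) (th μ ν n (σ z))) := by
  rw [sum_succ, ← Finset.sum_neg_distrib]
  apply Finset.sum_congr rfl
  intro z _
  have hag : ∀ b, ∀ i < n, up z n b i = z i := by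
    intro b i hi
    have : i ≠ n := by omega
    simp only [up, this, if_false]
  have w1 : ∀ b, w (up z n b) = w z := fun b => hw _ _ (hag b)
  have t1 : ∀ b, th μ ν n (up z n b) = th μ ν n z := fun b =>
    U4_energy_thdep μ ν n _ _ (hag b)
  have s1 : ∀ b, th μ ν n (σ (up z n b)) = th μ ν n (σ z) := fun b => hσ _ _ (hag b)
  unfold U4_energy_M
  rw [w1, w1, t1, t1, s1, s1]
  obtain ⟨_, _, a3, a4, _⟩ := th_bd μ ν hp hp' n z
  obtain ⟨_, _, b3, b4, _⟩ := th_bd μ ν hp hp' (n + 1) (up z n false)
  obtain ⟨_, _, c3, c4, _⟩ := th_bd μ ν hp hp' (n + 1) (up z n true)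
  have m1 := μ.con n z
  have m2 := ν.con n z
  rw [a3, b3, c3] at m1
  rw [a4, b4, c4] at m2
  unfold kl2
  linear_combination (-(1 / 2) * w z * (Real.log (th μ ν n (σ z)) - Real.log (th μ ν n z))) * m1 +
    (-(1 / 2) * w z * (Real.log (1 - th μ ν n (σ z)) - Real.log (1 - th μ ν n z))) * m2

theorem U4_energy_bad (μ ν : Fam) (hp : ∀ n z, 0 < μ.p n z) (hp' : ∀ n z, 0 < ν.p n z) (n : ℕ)
    (z z' : Env) : U4_energy_M μ ν n z z' ≤
      (half μ ν).p (n + 1) z * kl2 (th μ ν (n + 1) z) (th μ ν n z) ∧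
      0 ≤ (half μ ν).p (n + 1) z * kl2 (th μ ν (n + 1) z) (th μ ν n z) := by
  obtain ⟨a1, a2, _, _, a5⟩ := th_bd μ ν hp hp' (n + 1) z
  obtain ⟨b1, b2, _, _, _⟩ := th_bd μ ν hp hp' n z
  obtain ⟨c1, c2, _, _, _⟩ := th_bd μ ν hp hp' n z'
  have h1 := kl2_nonneg _ _ a1 a2 c1 c2
  have h2 := kl2_nonneg _ _ a1 a2 b1 b2
  have h3 := mul_nonneg a5.le h1
  refine ⟨?_, mul_nonneg a5.le h2⟩
  have h4 : U4_energy_M μ ν n z z' =
      (half μ ν).p (n + 1) z * kl2 (th μ ν (n + 1) z) (th μ ν n z) -
      (half μ ν).p (n + 1) z * kl2 (th μ ν (n + 1) z) (th μ ν n z') := by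
    unfold U4_energy_M kl2
    ring
  rw [h4]
  linarith

theorem U4_energy_crdep (n k : ℕ) (hk : k + 2 ≤ n) : Dep n (fun z => cr z k) := by
  intro z w h
  have h1 : z (k - 1) = w (k - 1) := h _ (by omega)
  have h2 : z (k + 1) = w (k + 1) := h _ (by omega)
  unfold cr
  simp only [h1, h2]

theorem U4_energy_cr01 (z : Env) (k : ℕ) : 0 ≤ cr z k ∧ cr z k ≤ 1 := by
  unfold cr
  split_ifs <;> norm_num

/-- information loss: the total energy of `th` is at most twice the increment of the information -/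
theorem U4_energy (q : ℝ) (h0 : 0 < q) (h1 : q < 1) (μ ν : Fam) (hI : Inv q μ) (hJ : Inv q ν)
    (n k : ℕ) (hk : k + 2 ≤ n) (b : Bool) :
    ∑ z ∈ W n, (half μ ν).p n z * (cr z k * (rb q b * kl2 (th μ ν n z) (th μ ν n (up z k b))))
      ≤ 2 * eN μ ν n := by
  have hp : ∀ n z, 0 < μ.p n z := fun n z => U4_energy_pos q h0 h1 μ hI n z
  have hp' : ∀ n z, 0 < ν.p n z := fun n z => U4_energy_pos q h0 h1 ν hJ n z
  have hq1 : 0 < 1 - q := by linarith
  obtain ⟨m, rfl⟩ : ∃ m, n = m + 1 := ⟨n - 1, by omega⟩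
  have hsum := U4_energy_sum q μ ν hI hJ hp hp' (m + 1)
  simp only [Finset.sum_range_succ] at hsum
  rw [Finset.sum_add_distrib, Finset.sum_add_distrib, Finset.sum_add_distrib] at hsum
  -- the cons moves
  have c1 : ∑ z ∈ W (m + 1 + 1), q * U4_energy_M μ ν (m + 1) z (cons true z) ≤ 0 := by
    rw [U4_energy_good μ ν hp hp' (m + 1) (fun _ => q) (fun _ _ _ => rfl) (cons true) (by
      intro z z' h
      apply U4_energy_thdep
      intro i hi
      unfold cons
      split_ifs with h2
      · rfl
      · exact h (i - 1) (by omega))]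
    apply neg_nonpos.2
    apply Finset.sum_nonneg
    intro z _
    obtain ⟨a1, a2, _, _, a5⟩ := th_bd μ ν hp hp' (m + 1) z
    obtain ⟨b1, b2, _, _, _⟩ := th_bd μ ν hp hp' (m + 1) (cons true z)
    exact mul_nonneg h0.le (mul_nonneg a5.le (kl2_nonneg _ _ a1 a2 b1 b2))
  -- the tl moves
  have c2 : ∑ z ∈ W (m + 1 + 1), (if z 0 = true then
      (1 - q) * U4_energy_M μ ν (m + 1) z (tl z) else 0) ≤ eN μ ν (m + 1) := by
    unfold eN
    apply Finset.sum_le_sum
    intro z _
    obtain ⟨e1, e2⟩ := U4_energy_bad μ ν hp hp' (m + 1) z (tl z)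
    split_ifs
    · have := mul_le_mul_of_nonneg_left e1 hq1.le
      nlinarith
    · exact e2
  -- the last site
  have c4 : ∑ z ∈ W (m + 1 + 1), cr z m * (q * U4_energy_M μ ν (m + 1) z (up z m true) +
      (1 - q) * U4_energy_M μ ν (m + 1) z (up z m false)) ≤ eN μ ν (m + 1) := by
    unfold eN
    apply Finset.sum_le_sum
    intro z _
    obtain ⟨e1, e2⟩ := U4_energy_bad μ ν hp hp' (m + 1) z (up z m true)
    obtain ⟨e3, _⟩ := U4_energy_bad μ ν hp hp' (m + 1) z (up z m false)
    obtain ⟨f1, f2⟩ := U4_energy_cr01 z m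
    have g1 := mul_le_mul_of_nonneg_left e1 h0.le
    have g2 := mul_le_mul_of_nonneg_left e3 hq1.le
    have g3 : q * U4_energy_M μ ν (m + 1) z (up z m true) +
      (1 - q) * U4_energy_M μ ν (m + 1) z (up z m false) ≤
      (half μ ν).p (m + 1 + 1) z * kl2 (th μ ν (m + 1 + 1) z) (th μ ν (m + 1) z) := by linarith
    have g4 := mul_le_mul_of_nonneg_left g3 f1
    have g5 := mul_le_mul_of_nonneg_right f2 e2
    linarith
  -- the other sites
  have c3 : ∑ z ∈ W (m + 1 + 1), ∑ j ∈ range m, cr z j *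
      (q * U4_energy_M μ ν (m + 1) z (up z j true) +
      (1 - q) * U4_energy_M μ ν (m + 1) z (up z j false)) =
      - ∑ j ∈ range m, ∑ z ∈ W (m + 1), (half μ ν).p (m + 1) z * (cr z j *
        (q * kl2 (th μ ν (m + 1) z) (th μ ν (m + 1) (up z j true)) +
        (1 - q) * kl2 (th μ ν (m + 1) z) (th μ ν (m + 1) (up z j false)))) := by
    rw [Finset.sum_comm, ← Finset.sum_neg_distrib]
    apply Finset.sum_congr rfl
    intro j hj
    have hjm : j < m := Finset.mem_range.1 hj
    have hup : ∀ b, ∀ z z' : Env, (∀ i < m + 1, z i = z' i) →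
        th μ ν (m + 1) (up z j b) = th μ ν (m + 1) (up z' j b) := by
      intro b z z' h
      apply U4_energy_thdep
      intro i hi
      unfold up
      split_ifs
      · rfl
      · exact h i hi
    have hg : ∀ b, ∑ z ∈ W (m + 1 + 1), cr z j * U4_energy_M μ ν (m + 1) z (up z j b) =
        - ∑ z ∈ W (m + 1), cr z j * ((half μ ν).p (m + 1) z *
          kl2 (th μ ν (m + 1) z) (th μ ν (m + 1) (up z j b))) := fun b =>
      U4_energy_good μ ν hp hp' (m + 1) (fun z => cr z j) (U4_energy_crdep (m + 1) j (by omega))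
        (fun z => up z j b) (hup b)
    have e1 : ∑ z ∈ W (m + 1 + 1), cr z j *
        (q * U4_energy_M μ ν (m + 1) z (up z j true) +
        (1 - q) * U4_energy_M μ ν (m + 1) z (up z j false)) =
        q * ∑ z ∈ W (m + 1 + 1), cr z j * U4_energy_M μ ν (m + 1) z (up z j true) +
        (1 - q) * ∑ z ∈ W (m + 1 + 1), cr z j * U4_energy_M μ ν (m + 1) z (up z j false) := by
      rw [Finset.mul_sum, Finset.mul_sum, ← Finset.sum_add_distrib]
      apply Finset.sum_congr rfl
      intro z _
      ring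
    rw [e1, hg, hg, mul_neg, mul_neg, ← neg_add, Finset.mul_sum, Finset.mul_sum,
      ← Finset.sum_add_distrib]
    congr 1
    apply Finset.sum_congr rfl
    intro z _
    ring
  have hkl : ∀ (z : Env) j b, 0 ≤ kl2 (th μ ν (m + 1) z) (th μ ν (m + 1) (up z j b)) := by
    intro z j b
    obtain ⟨a1, a2, _, _, _⟩ := th_bd μ ν hp hp' (m + 1) z
    obtain ⟨b1, b2, _, _, _⟩ := th_bd μ ν hp hp' (m + 1) (up z j b)
    exact kl2_nonneg _ _ a1 a2 b1 b2
  have hpos : ∀ z, 0 < (half μ ν).p (m + 1) z := fun z =>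
    (th_bd μ ν hp hp' (m + 1) z).2.2.2.2
  have hfin : ∑ z ∈ W (m + 1), (half μ ν).p (m + 1) z * (cr z k * (rb q b *
      kl2 (th μ ν (m + 1) z) (th μ ν (m + 1) (up z k b)))) ≤
      ∑ j ∈ range m, ∑ z ∈ W (m + 1), (half μ ν).p (m + 1) z * (cr z j *
        (q * kl2 (th μ ν (m + 1) z) (th μ ν (m + 1) (up z j true)) +
        (1 - q) * kl2 (th μ ν (m + 1) z) (th μ ν (m + 1) (up z j false)))) := by
    have s1 : ∑ z ∈ W (m + 1), (half μ ν).p (m + 1) z * (cr z k *
        (q * kl2 (th μ ν (m + 1) z) (th μ ν (m + 1) (up z k true)) +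
        (1 - q) * kl2 (th μ ν (m + 1) z) (th μ ν (m + 1) (up z k false)))) ≤
        ∑ j ∈ range m, ∑ z ∈ W (m + 1), (half μ ν).p (m + 1) z * (cr z j *
        (q * kl2 (th μ ν (m + 1) z) (th μ ν (m + 1) (up z j true)) +
        (1 - q) * kl2 (th μ ν (m + 1) z) (th μ ν (m + 1) (up z j false)))) := by
      apply Finset.single_le_sum (f := fun j => ∑ z ∈ W (m + 1), (half μ ν).p (m + 1) z *
        (cr z j * (q * kl2 (th μ ν (m + 1) z) (th μ ν (m + 1) (up z j true)) +
        (1 - q) * kl2 (th μ ν (m + 1) z) (th μ ν (m + 1) (up z j false)))))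
      · intro j _
        apply Finset.sum_nonneg
        intro z _
        exact mul_nonneg (hpos z).le (mul_nonneg (U4_energy_cr01 z j).1
          (add_nonneg (mul_nonneg h0.le (hkl z j true)) (mul_nonneg hq1.le (hkl z j false))))
      · exact Finset.mem_range.2 (by omega)
    refine le_trans ?_ s1
    apply Finset.sum_le_sum
    intro z _
    apply mul_le_mul_of_nonneg_left _ (hpos z).le
    apply mul_le_mul_of_nonneg_left _ (U4_energy_cr01 z k).1
    have k1 := mul_nonneg h0.le (hkl z k true)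
    have k2 := mul_nonneg hq1.le (hkl z k false)
    cases b with
    | true =>
      simp only [rb, if_true]
      linarith
    | false =>
      simp only [rb, Bool.false_eq_true, if_false]
      linarith
  rw [c3] at hsum
  linarith

end FAF
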