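import Pool.Agent.Helper769.FAU.UDefs
import Pool.Agent.Helper769.FAF.Base

set_option autoImplicit false
set_option linter.unusedSectionVars false

open Finset Filter Topology

noncomputable section

namespace FAF

/-- all words of length `M` are connected by constrained flips -/
theorem conn (M : ℕ) (P : Env → Prop)
    (h : ∀ z ∈ W M, ∀ k < M, (k = 0 ∨ z (k - 1) = true) → ∀ b : Bool, P z → P (up z k b))
    (x x' : Env) (hx : x ∈ W M) (hx' : x' ∈ W M) (hP : P x) : P x' := by
  -- going up
  have h1 : ∀ j ≤ M, P (fun k => if k < j then true else x k) := by
    intro j
    induction j with
    | zero =>
      intro _
      simpa using hP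
    | succ j ih =>
      intro hj
      have hz : (fun k => if k < j then true else x k) ∈ W M := by
        rw [mem_W]
        intro k hk
        have : ¬ k < j := by omega
        simp only [this, if_false]
        exact (mem_W M x).1 hx k hk
      have h2 := h _ hz j (by omega) (by
        rcases Nat.eq_zero_or_pos j with h0 | h0
        · exact Or.inl h0
        · right
          rw [if_pos (by omega)]) true (ih (by omega))
      have h3 : up (fun k => if k < j then true else x k) j true
          = fun k => if k < j + 1 then true else x k := by
        funext k
        unfold up
        by_cases hk : k = j
        · subst hk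
          simp
        · by_cases hk2 : k < j
          · simp [hk, hk2, show k < j + 1 by omega]
          · simp [hk, hk2, show ¬ k < j + 1 by omega]
      rw [h3] at h2
      exact h2
  -- going down
  have h4 : ∀ j ≤ M, P (fun k => if k < M - j then true else x' k) := by
    intro j
    induction j with
    | zero =>
      intro _
      have h5 := h1 M le_rfl
      have h6 : (fun k => if k < M then true else x k) = fun k => if k < M - 0 then true else x' k := by
        funext k
        by_cases hk : k < M
        · simp [hk]
        · simp only [hk, if_false, Nat.sub_zero]
          rw [(mem_W M x).1 hx k (by omega), (mem_W M x').1 hx' k (by omega)]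
      rw [h6] at h5
      exact h5
    | succ j ih =>
      intro hj
      have hz : (fun k => if k < M - j then true else x' k) ∈ W M := by
        rw [mem_W]
        intro k hk
        have : ¬ k < M - j := by omega
        simp only [this, if_false]
        exact (mem_W M x').1 hx' k hk
      have h2 := h _ hz (M - (j + 1)) (by omega) (by
        rcases Nat.eq_zero_or_pos (M - (j + 1)) with h0 | h0
        · exact Or.inl h0
        · right
          rw [if_pos (by omega)]) (x' (M - (j + 1))) (ih (by omega))
      have h3 : up (fun k => if k < M - j then true else x' k) (M - (j + 1)) (x' (M - (j + 1)))
          = fun k => if k < M - (j + 1) then true else x' k := by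
        funext k
        unfold up
        by_cases hk : k = M - (j + 1)
        · rw [hk]
          simp
        · by_cases hk2 : k < M - j
          · simp [hk, hk2, show k < M - (j + 1) by omega]
          · simp [hk, hk2, show ¬ k < M - (j + 1) by omega]
      rw [h3] at h2
      exact h2
  have h5 := h4 M le_rfl
  have h6 : (fun k => if k < M - M then true else x' k) = x' := by
    funext k
    simp
  rw [h6] at h5
  exact h5

end FAF
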