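import Pool.Agent.Helper769.FAU.UDefs
import Pool.Agent.Helper769.FAF.Base
import Pool.Agent.Helper769.FAU.P_kl2_nonneg
import Pool.Agent.Helper769.FAU.P_th_bd

set_option autoImplicit false
set_option linter.unusedSectionVars false

open Finset Filter Topology

noncomputable section

namespace FAF

theorem eN_nonneg (μ ν : Fam) (h : ∀ n z, 0 < μ.p n z) (h' : ∀ n z, 0 < ν.p n z) (n : ℕ) :
    0 ≤ eN μ ν n := by
  unfold eN
  refine Finset.sum_nonneg fun z _ => ?_
  obtain ⟨a1, a2, -, -, a3⟩ := th_bd μ ν h h' (n + 1) z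
  obtain ⟨b1, b2, -, -, -⟩ := th_bd μ ν h h' n z
  exact mul_nonneg a3.le (kl2_nonneg _ _ a1 a2 b1 b2)

end FAF
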