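import Pool.Agent.Helper769.FAU.UDefs
import Pool.Agent.Helper769.FAF.Base
import Pool.Agent.Helper769.FAU.P_th_bd

set_option autoImplicit false
set_option linter.unusedSectionVars false

open Finset Filter Topology

noncomputable section

namespace FAF

def eN_sum_phi (a : ℝ) : ℝ := a * Real.log a + (1 - a) * Real.log (1 - a)

def eN_sum_Phi (μ ν : Fam) (m : ℕ) : ℝ :=
  ∑ z ∈ W m, (half μ ν).p m z * eN_sum_phi (th μ ν m z)

lemma eN_sum_th (μ ν : Fam) (m : ℕ) (z : Env) (b : Bool) : th μ ν m (up z m b) = th μ ν m z := by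
  have h1 : ∀ i < m, up z m b i = z i := by
    intro i hi
    simp only [up]
    rw [if_neg (by omega)]
  simp only [th]
  rw [μ.dep m _ _ h1, ν.dep m _ _ h1]

lemma eN_sum_step (μ ν : Fam) (h : ∀ n z, 0 < μ.p n z) (h' : ∀ n z, 0 < ν.p n z) (m : ℕ) :
    eN μ ν m = eN_sum_Phi μ ν (m + 1) - eN_sum_Phi μ ν m := by
  unfold eN eN_sum_Phi
  rw [sum_succ, sum_succ, ← Finset.sum_sub_distrib]
  apply Finset.sum_congr rfl
  intro z _
  rw [eN_sum_th, eN_sum_th]
  obtain ⟨-, -, a1, a2, -⟩ := th_bd μ ν h h' (m + 1) (up z m false)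
  obtain ⟨-, -, b1, b2, -⟩ := th_bd μ ν h h' (m + 1) (up z m true)
  obtain ⟨-, -, c1, c2, -⟩ := th_bd μ ν h h' m z
  have d1 := μ.con m z
  have d2 := ν.con m z
  rw [a1, b1, c1] at d1
  rw [a2, b2, c2] at d2
  unfold kl2 eN_sum_phi
  linear_combination (Real.log (th μ ν m z) / 2) * d1 + (Real.log (1 - th μ ν m z) / 2) * d2

theorem eN_sum (μ ν : Fam) (h : ∀ n z, 0 < μ.p n z) (h' : ∀ n z, 0 < ν.p n z) (n : ℕ) :
    ∑ m ∈ range n, eN μ ν m ≤ Real.log 2 := by
  have h1 : ∑ m ∈ range n, eN μ ν m = eN_sum_Phi μ ν n - eN_sum_Phi μ ν 0 := by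
    rw [← Finset.sum_range_sub]
    exact Finset.sum_congr rfl fun m _ => eN_sum_step μ ν h h' m
  have h2 : eN_sum_Phi μ ν n ≤ 0 := by
    unfold eN_sum_Phi
    apply Finset.sum_nonpos
    intro z _
    obtain ⟨t0, t1, -, -, hp⟩ := th_bd μ ν h h' n z
    apply mul_nonpos_of_nonneg_of_nonpos hp.le
    unfold eN_sum_phi
    have l1 : Real.log (th μ ν n z) ≤ 0 := Real.log_nonpos t0.le t1.le
    have l2 : Real.log (1 - th μ ν n z) ≤ 0 := Real.log_nonpos (by linarith) (by linarith)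
    have l3 := mul_nonpos_of_nonneg_of_nonpos t0.le l1
    have l4 := mul_nonpos_of_nonneg_of_nonpos (by linarith : (0:ℝ) ≤ 1 - th μ ν n z) l2
    linarith
  have h3 : eN_sum_Phi μ ν 0 = -Real.log 2 := by
    unfold eN_sum_Phi
    rw [W_zero, Finset.sum_singleton]
    have e1 : (half μ ν).p 0 (fun _ => false) = 1 := (half μ ν).one _
    have e2 : th μ ν 0 (fun _ => false) = 1 / 2 := by
      unfold th
      rw [μ.one, ν.one]
      norm_num
    rw [e1, e2]
    unfold eN_sum_phi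
    have e3 : (1 : ℝ) - 1 / 2 = 1 / 2 := by norm_num
    rw [e3, one_div, Real.log_inv]
    ring
  rw [h1, h3]
  linarith

end FAF
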