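import Pool.Agent.Helper769.FAU.UDefs
import Pool.Agent.Helper769.FAF.Base
import Pool.Agent.Helper769.FAU.P_eN_nonneg
import Pool.Agent.Helper769.FAU.P_eN_sum

set_option autoImplicit false
set_option linter.unusedSectionVars false

open Finset Filter Topology

noncomputable section

namespace FAF

theorem eN_tendsto (μ ν : Fam) (h : ∀ n z, 0 < μ.p n z) (h' : ∀ n z, 0 < ν.p n z) :
    Tendsto (eN μ ν) atTop (𝓝 0) := (summable_of_sum_range_le (fun n => eN_nonneg μ ν h h' n)
    (fun n => eN_sum μ ν h h' n)).tendsto_atTop_zero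

end FAF
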