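import Pool.Agent.Helper769.FAU.UDefs
import Pool.Agent.Helper769.FAF.Base

set_option autoImplicit false
set_option linter.unusedSectionVars false

open Finset Filter Topology

noncomputable section

namespace FAF

theorem sum_paste_memYY (M N : ℕ) (y : Env) :
    y ∈ YY M N ↔ (∀ k, N ≤ k → y k = false) ∧ ∀ k < M, y k = false := by
  classical
  unfold YY
  rw [Finset.mem_filter, mem_W]

theorem sum_paste (M N : ℕ) (h : M ≤ N) (H : Env → ℝ) :
    ∑ z ∈ W N, H z = ∑ x ∈ W M, ∑ y ∈ YY M N, H (paste M x y) := by
  classical
  rw [← Finset.sum_product']
  refine Finset.sum_bij' (fun (z : Env) _ => (((fun k => if k < M then z k else false),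
      (fun k => if k < M then false else z k)) : Env × Env))
    (fun (p : Env × Env) _ => paste M p.1 p.2) ?_ ?_ ?_ ?_ ?_
  · intro z hz
    rw [mem_W] at hz
    rw [Finset.mem_product, mem_W, sum_paste_memYY]
    refine ⟨fun k hk => ?_, fun k hk => ?_, fun k hk => ?_⟩
    · show (if k < M then z k else false) = false
      rw [if_neg (by omega)]
    · show (if k < M then false else z k) = false
      rw [if_neg (by omega), hz k hk]
    · show (if k < M then false else z k) = false
      rw [if_pos hk]
  · rintro ⟨x, y⟩ hp
    rw [Finset.mem_product, mem_W, sum_paste_memYY] at hp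
    obtain ⟨hx, hy1, hy2⟩ := hp
    rw [mem_W]
    intro k hk
    show (if k < M then x k else y k) = false
    rw [if_neg (by omega)]
    exact hy1 k hk
  · intro z hz
    funext k
    show (if k < M then (if k < M then z k else false) else (if k < M then false else z k)) = z k
    by_cases hk : k < M
    · rw [if_pos hk, if_pos hk]
    · rw [if_neg hk, if_neg hk]
  · rintro ⟨x, y⟩ hp
    rw [Finset.mem_product, mem_W, sum_paste_memYY] at hp
    obtain ⟨hx, hy1, hy2⟩ := hp
    apply Prod.ext
    · funext k
      show (if k < M then (if k < M then x k else y k) else false) = x k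
      by_cases hk : k < M
      · rw [if_pos hk, if_pos hk]
      · rw [if_neg hk]
        exact (hx k (by omega)).symm
    · funext k
      show (if k < M then false else (if k < M then x k else y k)) = y k
      by_cases hk : k < M
      · rw [if_pos hk]
        exact (hy2 k hk).symm
      · rw [if_neg hk, if_neg hk]
  · intro z hz
    congr 1
    funext k
    show z k = (if k < M then (if k < M then z k else false) else (if k < M then false else z k))
    by_cases hk : k < M
    · rw [if_pos hk, if_pos hk]
    · rw [if_neg hk, if_neg hk]

end FAF
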