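import Pool.Agent.Helper769.FAU.UDefs
import Pool.Agent.Helper769.FAF.Base
import Pool.Agent.Helper769.FAU.P_U4_energy
import Pool.Agent.Helper769.FAU.P_eN_tendsto
import Pool.Agent.Helper769.FAU.P_bern_pinsker
import Pool.Agent.Helper769.FAU.P_th_bd
import Pool.Agent.Helper769.FAF.P_pos
import Pool.Agent.Helper769.FAU.P_eN_nonneg
import Pool.Agent.Helper769.FAU.P_sum_paste
import Pool.Agent.Helper769.FAF.P_E_one

set_option autoImplicit false
set_option linter.unusedSectionVars false

open Finset Filter Topology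

noncomputable section

namespace FAF

theorem flipD_paste_up (M k : ℕ) (hk : k < M) (b : Bool) (x y : Env) :
    paste M (up x k b) y = up (paste M x y) k b := by
  funext j
  unfold paste up
  by_cases hj : j = k
  · subst hj; simp [hk]
  · simp [hj]

theorem flipD_cr (M k : ℕ) (hk : k < M) (x y : Env) (hc : k = 0 ∨ x (k - 1) = true) :
    cr (paste M x y) k = 1 := by
  unfold cr
  rw [if_pos]
  rcases hc with h | h
  · exact Or.inl h
  · refine Or.inr (Or.inl ?_)
    unfold paste
    rw [if_pos (by omega)]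
    exact h

theorem flipD_cr_nonneg (z : Env) (k : ℕ) : 0 ≤ cr z k := by
  unfold cr
  split_ifs
  · exact zero_le_one
  · exact le_rfl

theorem flipD_bound (q : ℝ) (h0 : 0 < q) (h1 : q < 1) (μ ν : Fam) (hI : Inv q μ) (hJ : Inv q ν)
    (M k : ℕ) (hk : k < M) (b : Bool) (x : Env) (hx : x ∈ W M) (hc : k = 0 ∨ x (k - 1) = true)
    (N : ℕ) (hN : M + 1 ≤ N) :
    ∑ y ∈ YY M N, (half μ ν).p N (paste M x y) *
      |th μ ν N (paste M x y) - th μ ν N (paste M (up x k b) y)| ≤
      Real.sqrt (eN μ ν N / rb q b) := by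
  have hμ := pos q h0 h1 μ hI
  have hν := pos q h0 h1 ν hJ
  have hrb : 0 < rb q b := by
    unfold rb
    split_ifs
    · exact h0
    · linarith
  have hkl : ∀ z, 2 * (th μ ν N z - th μ ν N (up z k b)) ^ 2 ≤
      kl2 (th μ ν N z) (th μ ν N (up z k b)) := by
    intro z
    obtain ⟨a1, a2, _⟩ := th_bd μ ν hμ hν N z
    obtain ⟨b1, b2, _⟩ := th_bd μ ν hμ hν N (up z k b)
    exact bern_pinsker _ _ a1 a2 b1 b2
  have hp1 : ∑ y ∈ YY M N, (half μ ν).p N (paste M x y) ≤ 1 := by
    have h := E_one (half μ ν) N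
    unfold Fam.E at h
    rw [sum_paste M N (by omega)] at h
    rw [← h]
    have h2 := Finset.single_le_sum (s := W M)
      (f := fun x => ∑ y ∈ YY M N, (half μ ν).p N (paste M x y) * 1)
      (fun x' _ => Finset.sum_nonneg fun y _ => by
        have := (half μ ν).nn N (paste M x' y)
        linarith) hx
    refine le_trans (le_of_eq ?_) h2
    exact Finset.sum_congr rfl fun y _ => (mul_one _).symm
  have hp2 : ∑ y ∈ YY M N, (half μ ν).p N (paste M x y) *
      (th μ ν N (paste M x y) - th μ ν N (paste M (up x k b) y)) ^ 2 ≤ eN μ ν N / rb q b := by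
    have h := U4_energy q h0 h1 μ ν hI hJ N k (by omega) b
    rw [sum_paste M N (by omega)] at h
    have h2 := Finset.single_le_sum (s := W M)
      (f := fun x => ∑ y ∈ YY M N, (half μ ν).p N (paste M x y) * (cr (paste M x y) k *
        (rb q b * kl2 (th μ ν N (paste M x y)) (th μ ν N (up (paste M x y) k b)))))
      (fun x' _ => Finset.sum_nonneg fun y _ => by
        have g1 := (half μ ν).nn N (paste M x' y)
        have g2 := flipD_cr_nonneg (paste M x' y) k
        have g3 : 0 ≤ kl2 (th μ ν N (paste M x' y)) (th μ ν N (up (paste M x' y) k b)) :=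
          le_trans (by positivity) (hkl _)
        positivity) hx
    have h3 : ∑ y ∈ YY M N, 2 * rb q b * ((half μ ν).p N (paste M x y) *
        (th μ ν N (paste M x y) - th μ ν N (paste M (up x k b) y)) ^ 2) ≤
        ∑ y ∈ YY M N, (half μ ν).p N (paste M x y) * (cr (paste M x y) k *
        (rb q b * kl2 (th μ ν N (paste M x y)) (th μ ν N (up (paste M x y) k b)))) := by
      refine Finset.sum_le_sum fun y _ => ?_
      rw [flipD_cr M k hk x y hc, flipD_paste_up M k hk b x y, one_mul]
      have g1 := (half μ ν).nn N (paste M x y)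
      have g2 := hkl (paste M x y)
      have g3 : 0 ≤ (half μ ν).p N (paste M x y) * rb q b := mul_nonneg g1 hrb.le
      have g4 := mul_le_mul_of_nonneg_left g2 g3
      calc _ = (half μ ν).p N (paste M x y) * rb q b *
            (2 * (th μ ν N (paste M x y) - th μ ν N (up (paste M x y) k b)) ^ 2) := by ring
        _ ≤ _ := g4
        _ = _ := by ring
    rw [← Finset.mul_sum] at h3
    rw [le_div_iff₀ hrb]
    have h4 := h3.trans (h2.trans h)
    linarith
  have hcs := Finset.sum_sq_le_sum_mul_sum_of_sq_eq_mul (YY M N)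
    (r := fun y => (half μ ν).p N (paste M x y) *
      |th μ ν N (paste M x y) - th μ ν N (paste M (up x k b) y)|)
    (f := fun y => (half μ ν).p N (paste M x y))
    (g := fun y => (half μ ν).p N (paste M x y) *
      (th μ ν N (paste M x y) - th μ ν N (paste M (up x k b) y)) ^ 2)
    (fun y _ => (half μ ν).nn N _)
    (fun y _ => mul_nonneg ((half μ ν).nn N _) (sq_nonneg _))
    (fun y _ => by
      rw [mul_pow, sq_abs]; ring)
  apply Real.le_sqrt_of_sq_le
  refine hcs.trans ?_
  have hnn : 0 ≤ ∑ y ∈ YY M N, (half μ ν).p N (paste M x y) *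
      (th μ ν N (paste M x y) - th μ ν N (paste M (up x k b) y)) ^ 2 :=
    Finset.sum_nonneg fun y _ => mul_nonneg ((half μ ν).nn N _) (sq_nonneg _)
  calc _ ≤ 1 * ∑ y ∈ YY M N, (half μ ν).p N (paste M x y) *
      (th μ ν N (paste M x y) - th μ ν N (paste M (up x k b) y)) ^ 2 :=
        mul_le_mul_of_nonneg_right hp1 hnn
    _ ≤ _ := by rw [one_mul]; exact hp2

/-- one constrained flip inside the first `M` sites changes `th` little -/
theorem flipD (q : ℝ) (h0 : 0 < q) (h1 : q < 1) (μ ν : Fam) (hI : Inv q μ) (hJ : Inv q ν)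
    (M k : ℕ) (hk : k < M) (b : Bool) (x : Env) (hx : x ∈ W M) (hc : k = 0 ∨ x (k - 1) = true) :
    Tendsto (fun N => ∑ y ∈ YY M N, (half μ ν).p N (paste M x y) *
      |th μ ν N (paste M x y) - th μ ν N (paste M (up x k b) y)|) atTop (𝓝 0) := by
  have hμ := pos q h0 h1 μ hI
  have hν := pos q h0 h1 ν hJ
  have hlim : Tendsto (fun N => Real.sqrt (eN μ ν N / rb q b)) atTop (𝓝 0) := by
    have h := ((eN_tendsto μ ν hμ hν).div_const (rb q b)).sqrt
    simpa using h
  refine squeeze_zero' (Eventually.of_forall fun N => Finset.sum_nonneg fun y _ =>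
    mul_nonneg ((half μ ν).nn N _) (abs_nonneg _)) ?_ hlim
  filter_upwards [eventually_ge_atTop (M + 1)] with N hN
  exact flipD_bound q h0 h1 μ ν hI hJ M k hk b x hx hc N hN

end FAF
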