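import Pool.Agent.Helper769.FAU.UDefs
import Pool.Agent.Helper769.FAF.Base
import Pool.Agent.Helper769.FAF.P_pos
import Pool.Agent.Helper769.FAF.P_prod_bound
import Pool.Agent.Helper769.FAF.P_Ph_nonneg
import Pool.Agent.Helper769.FAF.P_Pb_nonneg
import Pool.Agent.Helper769.FAF.P_Pf_nonneg
import Pool.Agent.Helper769.FAU.P_sum_paste

set_option autoImplicit false
set_option linter.unusedSectionVars false

open Finset Filter Topology

noncomputable section

namespace FAF

theorem flipR_Ph (a b T : ℝ) (ha : 0 < a) (hb : 0 < b) (hT : 2 ≤ T) (h : T * b ≤ a) :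
    a / 2 * Real.log T ≤ Ph a b := by
  unfold Ph
  have hT0 : 0 < T := by linarith
  have hl : Real.log T ≤ Real.log a - Real.log b := by
    have : Real.log (T * b) ≤ Real.log a := Real.log_le_log (by positivity) h
    rw [Real.log_mul hT0.ne' hb.ne'] at this
    linarith
  have h1 : a / 2 ≤ a - b := by nlinarith
  have h2 : 0 ≤ Real.log T := Real.log_nonneg (by linarith)
  exact mul_le_mul h1 hl h2 (by linarith)

theorem flipR_Ph_comm (a b : ℝ) : Ph a b = Ph b a := by
  unfold Ph
  ring

theorem flipR_paste (M k : ℕ) (hk : k < M) (b : Bool) (x y : Env) :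
    paste M (up x k b) y = up (paste M x y) k b := by
  funext j
  unfold paste up
  by_cases h1 : j = k
  · subst h1; simp [hk]
  · simp [h1]

theorem flipR_up (z : Env) (k : ℕ) (b : Bool) (h : z k = b) : up z k b = z := by
  funext j
  unfold up
  by_cases h1 : j = k
  · subst h1; simp [h]
  · simp [h1]

theorem flipR_upup (z : Env) (k : ℕ) (b c : Bool) : up (up z k b) k c = up z k c := by
  funext j
  unfold up
  by_cases h1 : j = k
  · simp [h1]
  · simp [h1]

/-- pointwise lower bound of the production -/
theorem flipR_point (q : ℝ) (h0 : 0 < q) (h1 : q < 1) (pz pz' K T m r : ℝ) (hz : 0 < pz)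
    (hz' : 0 < pz') (hT : 2 ≤ T) (hm1 : m ≤ q) (hm2 : m ≤ 1 - q) (hK : 0 < K)
    (hr1 : r * (1 - q) ≤ q) (hr2 : r * q ≤ 1 - q) (hKr : T ≤ K * r) (h : K * pz' < pz) :
    pz * (m / 2 * Real.log T) ≤ Ph (q * pz) ((1 - q) * pz') ∧
    pz * (m / 2 * Real.log T) ≤ Ph (q * pz') ((1 - q) * pz) := by
  have h1' : 0 < 1 - q := by linarith
  have hlog : 0 ≤ Real.log T := Real.log_nonneg (by linarith)
  constructor
  · refine le_trans ?_ (flipR_Ph (q * pz) ((1 - q) * pz') T (by positivity) (by positivity) hT ?_)
    · calc pz * (m / 2 * Real.log T) = m * (pz / 2 * Real.log T) := by ring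
        _ ≤ q * (pz / 2 * Real.log T) := by gcongr
        _ = q * pz / 2 * Real.log T := by ring
    · calc T * ((1 - q) * pz') ≤ (K * r) * ((1 - q) * pz') := by gcongr
        _ = (r * (1 - q)) * (K * pz') := by ring
        _ ≤ q * (K * pz') := by gcongr
        _ ≤ q * pz := by gcongr
  · rw [flipR_Ph_comm]
    refine le_trans ?_ (flipR_Ph ((1 - q) * pz) (q * pz') T (by positivity) (by positivity) hT ?_)
    · calc pz * (m / 2 * Real.log T) = m * (pz / 2 * Real.log T) := by ring
        _ ≤ (1 - q) * (pz / 2 * Real.log T) := by gcongr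
        _ = (1 - q) * pz / 2 * Real.log T := by ring
    · calc T * (q * pz') ≤ (K * r) * (q * pz') := by gcongr
        _ = (r * q) * (K * pz') := by ring
        _ ≤ (1 - q) * (K * pz') := by gcongr
        _ ≤ (1 - q) * pz := by gcongr

/-- one constrained flip inside the first `M` sites is absolutely continuous, uniformly in `N` -/
theorem flipR (q : ℝ) (h0 : 0 < q) (h1 : q < 1) (μ : Fam) (hI : Inv q μ)
    (M k : ℕ) (hk : k < M) (b : Bool) (x : Env) (hx : x ∈ W M) (hc : k = 0 ∨ x (k - 1) = true)
    (ε : ℝ) (hε : 0 < ε) : ∃ K : ℝ, 0 < K ∧ ∀ N, M + 2 ≤ N →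
      ∑ y ∈ (YY M N).filter (fun y => K * μ.p N (paste M (up x k b) y) < μ.p N (paste M x y)),
        μ.p N (paste M x y) ≤ ε := by
  classical
  have hp := pos q h0 h1 μ hI
  obtain ⟨C, hC⟩ := prod_bound q h0 h1 μ hI hp
  have h1' : 0 < 1 - q := by linarith
  obtain ⟨m, hm⟩ : ∃ m, m = min q (1 - q) := ⟨_, rfl⟩
  have hm0 : 0 < m := by rw [hm]; exact lt_min h0 h1'
  have hm1 : m ≤ q := by rw [hm]; exact min_le_left _ _
  have hm2 : m ≤ 1 - q := by rw [hm]; exact min_le_right _ _
  obtain ⟨r, hr⟩ : ∃ r, r = min (q / (1 - q)) ((1 - q) / q) := ⟨_, rfl⟩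
  have hr0 : 0 < r := by rw [hr]; exact lt_min (by positivity) (by positivity)
  have hr1 : r * (1 - q) ≤ q := by
    rw [← le_div_iff₀ h1', hr]; exact min_le_left _ _
  have hr2 : r * q ≤ 1 - q := by
    rw [← le_div_iff₀ h0, hr]; exact min_le_right _ _
  obtain ⟨T, hT⟩ : ∃ T, T = 2 + Real.exp (2 * |C| / (m * ε)) := ⟨_, rfl⟩
  have hT2 : 2 ≤ T := by rw [hT]; linarith [Real.exp_pos (2 * |C| / (m * ε))]
  have hTlog : 2 * |C| / (m * ε) ≤ Real.log T := by
    rw [Real.le_log_iff_exp_le (by linarith), hT]
    linarith
  have hlog0 : 0 < Real.log T := Real.log_pos (by linarith)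
  obtain ⟨K, hK⟩ : ∃ K, K = T / r + 1 := ⟨_, rfl⟩
  have hK1 : 1 ≤ K := by
    rw [hK]
    have : 0 < T / r := by positivity
    linarith
  have hK0 : 0 < K := by linarith
  have hKr : T ≤ K * r := by
    rw [hK, add_mul, div_mul_cancel₀ _ hr0.ne']
    linarith
  refine ⟨K, hK0, ?_⟩
  intro N hN
  have hPb : Pb q μ N k ≤ C := by
    have h2 := hC (N - 1)
    have h3 : N - 1 + 1 = N := by omega
    rw [h3] at h2
    have h4 := Pf_nonneg q h0 h1 μ hp (N - 1)
    have h5 : Pb q μ N k ≤ ∑ j ∈ range (N - 1), Pb q μ N j :=
      Finset.single_le_sum (f := fun j => Pb q μ N j)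
        (fun j _ => Pb_nonneg q h0 h1 μ hp N j) (Finset.mem_range.2 (by omega))
    linarith
  by_cases hb : x k = b
  · rw [flipR_up x k b hb]
    rw [Finset.filter_false_of_mem, Finset.sum_empty]
    · exact hε.le
    · intro y _
      have := hp N (paste M x y)
      nlinarith
  · have hcr : ∀ y, cr (up (paste M x y) k false) k = 1 := by
      intro y
      unfold cr
      rw [if_pos]
      rcases hc with hc | hc
      · exact Or.inl hc
      · by_cases hk0 : k = 0
        · exact Or.inl hk0
        · right; left
          unfold up paste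
          rw [if_neg (by omega), if_pos (by omega)]
          exact hc
    have hpt : ∀ y ∈ (YY M N).filter
        (fun y => K * μ.p N (paste M (up x k b) y) < μ.p N (paste M x y)),
        μ.p N (paste M x y) * (m / 2 * Real.log T) ≤
        cr (up (paste M x y) k false) k * Ph (q * μ.p N (up (paste M x y) k false))
          ((1 - q) * μ.p N (up (up (paste M x y) k false) k true)) := by
      intro y hy
      have hy' := (Finset.mem_filter.1 hy).2
      rw [hcr, one_mul, flipR_upup]
      rw [flipR_paste M k hk] at hy'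
      have hxk : paste M x y k = x k := by
        unfold paste; rw [if_pos hk]
      have hP := flipR_point q h0 h1 _ _ K T m r (hp N (paste M x y))
        (hp N (up (paste M x y) k b)) hT2 hm1 hm2 hK0 hr1 hr2 hKr hy'
      cases hxv : x k
      · have hbt : b = true := by
          cases hbv : b
          · exact absurd (hxv.trans hbv.symm) hb
          · rfl
        rw [flipR_up _ k false (hxk.trans hxv)]
        rw [hbt] at hP
        exact hP.1
      · have hbf : b = false := by
          cases hbv : b
          · rfl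
          · exact absurd (hxv.trans hbv.symm) hb
        rw [flipR_up (paste M x y) k true (hxk.trans hxv)]
        rw [hbf] at hP
        exact hP.2
    have hinj : Set.InjOn (fun y => up (paste M x y) k false) ((YY M N).filter
        (fun y => K * μ.p N (paste M (up x k b) y) < μ.p N (paste M x y)) : Set Env) := by
      intro y hy y' hy' hyy
      have hyY := (Finset.mem_filter.1 hy).1
      have hyY' := (Finset.mem_filter.1 hy').1
      have hyz : ∀ j < M, y j = false := by
        unfold YY at hyY
        exact (Finset.mem_filter.1 hyY).2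
      have hyz' : ∀ j < M, y' j = false := by
        unfold YY at hyY'
        exact (Finset.mem_filter.1 hyY').2
      funext j
      by_cases hj : j < M
      · rw [hyz j hj, hyz' j hj]
      · have := congrFun hyy j
        simp only [up, paste] at this
        rw [if_neg (by omega), if_neg hj, if_neg (by omega), if_neg hj] at this
        exact this
    have hsum : ∑ y ∈ (YY M N).filter
        (fun y => K * μ.p N (paste M (up x k b) y) < μ.p N (paste M x y)),
        μ.p N (paste M x y) * (m / 2 * Real.log T) ≤ Pb q μ N k := by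
      refine (Finset.sum_le_sum hpt).trans ?_
      rw [← Finset.sum_image (f := fun w => cr w k * Ph (q * μ.p N w)
        ((1 - q) * μ.p N (up w k true))) hinj]
      unfold Pb
      refine Finset.sum_le_sum_of_subset_of_nonneg ?_ ?_
      · intro w hw
        obtain ⟨y, hy, rfl⟩ := Finset.mem_image.1 hw
        have hyY := (Finset.mem_filter.1 hy).1
        rw [Finset.mem_filter]
        refine ⟨?_, by simp [up]⟩
        rw [mem_W]
        intro j hj
        unfold YY at hyY
        have hyW := (mem_W N y).1 (Finset.mem_filter.1 hyY).1 j hj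
        unfold up paste
        rw [if_neg (by omega), if_neg (by omega)]
        exact hyW
      · intro w _ _
        refine mul_nonneg ?_ (Ph_nonneg _ _ (mul_pos h0 (hp N _)) (mul_pos h1' (hp N _)))
        unfold cr
        split_ifs <;> norm_num
    rw [← Finset.sum_mul] at hsum
    by_contra hcon
    push Not at hcon
    have h6 : ε * (m / 2 * Real.log T) < C := by
      refine lt_of_lt_of_le ?_ (hsum.trans hPb)
      gcongr
    have h7 : |C| ≤ ε * (m / 2 * Real.log T) := by
      calc |C| = ε * (m / 2 * (2 * |C| / (m * ε))) := by field_simp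
        _ ≤ ε * (m / 2 * Real.log T) := by gcongr
    linarith [le_abs_self C]

end FAF
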