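import Pool.Agent.Helper769.FAU.UDefs
import Pool.Agent.Helper769.FAF.Base
import Pool.Agent.Helper769.FAU.P_flipD
import Pool.Agent.Helper769.FAU.P_flipR
import Pool.Agent.Helper769.FAU.P_conn
import Pool.Agent.Helper769.FAU.P_half_inv
import Pool.Agent.Helper769.FAU.P_th_bd
import Pool.Agent.Helper769.FAF.P_pos

set_option autoImplicit false
set_option linter.unusedSectionVars false

open Finset Filter Topology

noncomputable section

namespace FAF

theorem pairD (q : ℝ) (h0 : 0 < q) (h1 : q < 1) (μ ν : Fam) (hI : Inv q μ) (hJ : Inv q ν)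
    (M : ℕ) (x x' : Env) (hx : x ∈ W M) (hx' : x' ∈ W M) :
    Tendsto (fun N => ∑ y ∈ YY M N, (half μ ν).p N (paste M x y) *
      |th μ ν N (paste M x y) - th μ ν N (paste M x' y)|) atTop (𝓝 0) := by
  have hμ := pos q h0 h1 μ hI
  have hν := pos q h0 h1 ν hJ
  have hb := th_bd μ ν hμ hν
  have hH := half_inv q μ ν hI hJ
  have hpp : ∀ n z, 0 < (half μ ν).p n z := fun n z => (hb n z).2.2.2.2
  have hdiff : ∀ n z w, |th μ ν n z - th μ ν n w| ≤ 1 := by
    intro n z w
    have a1 := (hb n z).1
    have a2 := (hb n z).2.1
    have a3 := (hb n w).1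
    have a4 := (hb n w).2.1
    rw [abs_le]
    constructor <;> linarith
  have key := conn M (fun z =>
    Tendsto (fun N => ∑ y ∈ YY M N, (half μ ν).p N (paste M x y) *
      |th μ ν N (paste M x y) - th μ ν N (paste M z y)|) atTop (𝓝 0) ∧
    ∀ ε : ℝ, 0 < ε → ∃ K : ℝ, 0 < K ∧ ∀ N, M + 2 ≤ N →
      ∑ y ∈ (YY M N).filter (fun y =>
        K * (half μ ν).p N (paste M z y) < (half μ ν).p N (paste M x y)),
        (half μ ν).p N (paste M x y) ≤ ε) ?_ x x' hx hx' ?_
  · exact key.1
  · rintro z hz k hk hc b ⟨hD, hR⟩
    have hfD := flipD q h0 h1 μ ν hI hJ M k hk b z hz hc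
    refine ⟨?_, ?_⟩
    · rw [Metric.tendsto_atTop] at hD hfD ⊢
      intro ε hε
      obtain ⟨K, hK, hKN⟩ := hR (ε / 4) (by linarith)
      obtain ⟨N1, hN1⟩ := hD (ε / 4) (by linarith)
      obtain ⟨N2, hN2⟩ := hfD (ε / (4 * K)) (by positivity)
      refine ⟨max (M + 2) (max N1 N2), fun N hN => ?_⟩
      have hNM : M + 2 ≤ N := le_trans (le_max_left _ _) hN
      have hNN1 : N1 ≤ N := le_trans (le_trans (le_max_left _ _) (le_max_right _ _)) hN
      have hNN2 : N2 ≤ N := le_trans (le_trans (le_max_right _ _) (le_max_right _ _)) hN
      have a1 := hN1 N hNN1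
      have a2 := hN2 N hNN2
      have a3 := hKN N hNM
      rw [Real.dist_eq, sub_zero] at a1 a2 ⊢
      have a1' := lt_of_le_of_lt (le_abs_self _) a1
      have a2' := lt_of_le_of_lt (le_abs_self _) a2
      have hnn : 0 ≤ ∑ y ∈ YY M N, (half μ ν).p N (paste M x y) *
          |th μ ν N (paste M x y) - th μ ν N (paste M (up z k b) y)| :=
        Finset.sum_nonneg fun y _ => mul_nonneg (hpp _ _).le (abs_nonneg _)
      rw [abs_of_nonneg hnn]
      rw [Finset.sum_filter] at a3
      have hle : ∑ y ∈ YY M N, (half μ ν).p N (paste M x y) *
          |th μ ν N (paste M x y) - th μ ν N (paste M (up z k b) y)| ≤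
          ∑ y ∈ YY M N, (half μ ν).p N (paste M x y) *
            |th μ ν N (paste M x y) - th μ ν N (paste M z y)| +
          (∑ y ∈ YY M N, (if K * (half μ ν).p N (paste M z y) < (half μ ν).p N (paste M x y) then
            (half μ ν).p N (paste M x y) else 0)) +
          K * ∑ y ∈ YY M N, (half μ ν).p N (paste M z y) *
            |th μ ν N (paste M z y) - th μ ν N (paste M (up z k b) y)| := by
        rw [Finset.mul_sum, ← Finset.sum_add_distrib, ← Finset.sum_add_distrib]
        apply Finset.sum_le_sum
        intro y _
        have hpx := hpp N (paste M x y)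
        have hpz := hpp N (paste M z y)
        have t1 : |th μ ν N (paste M x y) - th μ ν N (paste M (up z k b) y)| ≤
            |th μ ν N (paste M x y) - th μ ν N (paste M z y)| +
            |th μ ν N (paste M z y) - th μ ν N (paste M (up z k b) y)| := abs_sub_le _ _ _
        have t2 := hdiff N (paste M z y) (paste M (up z k b) y)
        have t3 := abs_nonneg (th μ ν N (paste M z y) - th μ ν N (paste M (up z k b) y))
        have t4 := mul_le_mul_of_nonneg_left t1 hpx.le
        rw [mul_add] at t4
        by_cases hlt : K * (half μ ν).p N (paste M z y) < (half μ ν).p N (paste M x y)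
        · rw [if_pos hlt]
          have t5 := mul_le_mul_of_nonneg_left t2 hpx.le
          have t6 : 0 ≤ K * ((half μ ν).p N (paste M z y) *
            |th μ ν N (paste M z y) - th μ ν N (paste M (up z k b) y)|) := by positivity
          linarith
        · rw [if_neg hlt]
          push Not at hlt
          have t5 := mul_le_mul_of_nonneg_right hlt t3
          linarith
      have hKD : K * ∑ y ∈ YY M N, (half μ ν).p N (paste M z y) *
            |th μ ν N (paste M z y) - th μ ν N (paste M (up z k b) y)| ≤ ε / 4 := by
        have := mul_le_mul_of_nonneg_left a2'.le hK.le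
        refine this.trans (le_of_eq ?_)
        field_simp
      linarith
    · intro ε hε
      obtain ⟨K1, hK1, hK1N⟩ := hR (ε / 2) (by linarith)
      obtain ⟨K2, hK2, hK2N⟩ := flipR q h0 h1 (half μ ν) hH M k hk b z hz hc (ε / (2 * K1))
        (by positivity)
      refine ⟨K1 * K2, by positivity, fun N hN => ?_⟩
      have a1 := hK1N N hN
      have a2 := hK2N N hN
      rw [Finset.sum_filter] at a1 a2 ⊢
      have hle : ∑ y ∈ YY M N, (if K1 * K2 * (half μ ν).p N (paste M (up z k b) y) <
          (half μ ν).p N (paste M x y) then (half μ ν).p N (paste M x y) else 0) ≤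
          (∑ y ∈ YY M N, (if K1 * (half μ ν).p N (paste M z y) < (half μ ν).p N (paste M x y) then
            (half μ ν).p N (paste M x y) else 0)) +
          K1 * ∑ y ∈ YY M N, (if K2 * (half μ ν).p N (paste M (up z k b) y) <
            (half μ ν).p N (paste M z y) then (half μ ν).p N (paste M z y) else 0) := by
        rw [Finset.mul_sum, ← Finset.sum_add_distrib]
        apply Finset.sum_le_sum
        intro y _
        have hpx := hpp N (paste M x y)
        have hpz := hpp N (paste M z y)
        have hnn1 : 0 ≤ (if K1 * (half μ ν).p N (paste M z y) < (half μ ν).p N (paste M x y) then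
            (half μ ν).p N (paste M x y) else 0) := by split_ifs <;> linarith
        have hnn2 : 0 ≤ (if K2 * (half μ ν).p N (paste M (up z k b) y) <
            (half μ ν).p N (paste M z y) then (half μ ν).p N (paste M z y) else 0) := by
          split_ifs <;> linarith
        have hnn3 := mul_nonneg hK1.le hnn2
        by_cases hlt : K1 * K2 * (half μ ν).p N (paste M (up z k b) y) <
          (half μ ν).p N (paste M x y)
        · rw [if_pos hlt]
          by_cases hlt1 : K1 * (half μ ν).p N (paste M z y) < (half μ ν).p N (paste M x y)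
          · rw [if_pos hlt1]
            linarith
          · push Not at hlt1
            have hlt2 : K2 * (half μ ν).p N (paste M (up z k b) y) <
              (half μ ν).p N (paste M z y) := by
              have : K1 * (K2 * (half μ ν).p N (paste M (up z k b) y)) <
                  K1 * (half μ ν).p N (paste M z y) := by
                rw [← mul_assoc]
                exact lt_of_lt_of_le hlt hlt1
              exact lt_of_mul_lt_mul_left this hK1.le
            rw [if_pos hlt2]
            linarith
        · rw [if_neg hlt]
          linarith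
      have hK : K1 * ∑ y ∈ YY M N, (if K2 * (half μ ν).p N (paste M (up z k b) y) <
            (half μ ν).p N (paste M z y) then (half μ ν).p N (paste M z y) else 0) ≤ ε / 2 := by
        have := mul_le_mul_of_nonneg_left a2 hK1.le
        refine this.trans (le_of_eq ?_)
        field_simp
      linarith
  · refine ⟨?_, ?_⟩
    · have : (fun N => ∑ y ∈ YY M N, (half μ ν).p N (paste M x y) *
        |th μ ν N (paste M x y) - th μ ν N (paste M x y)|) = fun _ => (0 : ℝ) := by
        funext N
        simp
      rw [this]
      exact tendsto_const_nhds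
    · intro ε hε
      refine ⟨1, one_pos, fun N _ => ?_⟩
      have : (YY M N).filter (fun y =>
        1 * (half μ ν).p N (paste M x y) < (half μ ν).p N (paste M x y)) = ∅ := by
        apply Finset.filter_false_of_mem
        intro y _
        rw [one_mul]
        exact lt_irrefl _
      rw [this]
      simpa using hε.le

end FAF
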