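import Pool.Agent.Helper769.FAU.UDefs
import Pool.Agent.Helper769.FAF.Base
import Pool.Agent.Helper769.FAU.P_pairD
import Pool.Agent.Helper769.FAU.P_half_inv
import Pool.Agent.Helper769.FAU.P_th_bd
import Pool.Agent.Helper769.FAF.P_pos
import Pool.Agent.Helper769.FAU.P_sum_paste
import Pool.Agent.Helper769.FAF.P_E_one

set_option autoImplicit false
set_option linter.unusedSectionVars false

open Finset Filter Topology

noncomputable section

namespace FAF

theorem U4_lim_abs {ι κ : Type} (X : Finset ι) (Y : Finset κ) (pN : ι → κ → ℝ) (θ : ι → κ → ℝ)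
    (r : κ → ℝ) (pM : ι → ℝ) (g : ι → ℝ) (δ : ℝ)
    (hpN : ∀ x y, 0 ≤ pN x y) (hθ0 : ∀ x y, 0 ≤ θ x y) (hθ1 : ∀ x y, θ x y ≤ 1)
    (hr : ∀ y, 0 ≤ r y) (hpM : ∀ x, 0 ≤ pM x) (hpM1 : ∑ x ∈ X, pM x = 1) (hg : ∀ x, |g x| ≤ 1)
    (hδ : ∑ x ∈ X, ∑ y ∈ Y, |pN x y - pM x * r y| ≤ δ) :
    |∑ x ∈ X, ∑ y ∈ Y, pN x y * θ x y * g x -
      (∑ x ∈ X, pM x * ∑ y ∈ Y, r y * θ x y) * ∑ x ∈ X, pM x * g x| ≤
      2 * δ + ∑ x' ∈ X, pM x' * ∑ x ∈ X, ∑ y ∈ Y, pN x y * |θ x y - θ x' y| := by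
  have h1 : |∑ x ∈ X, ∑ y ∈ Y, pN x y * θ x y * g x -
      ∑ x ∈ X, pM x * g x * ∑ y ∈ Y, r y * θ x y| ≤ δ := by
    refine le_trans ?_ hδ
    rw [← Finset.sum_sub_distrib]
    refine (Finset.abs_sum_le_sum_abs _ _).trans ?_
    apply Finset.sum_le_sum
    intro x _
    rw [Finset.mul_sum, ← Finset.sum_sub_distrib]
    refine (Finset.abs_sum_le_sum_abs _ _).trans ?_
    apply Finset.sum_le_sum
    intro y _
    have e : pN x y * θ x y * g x - pM x * g x * (r y * θ x y) =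
        (pN x y - pM x * r y) * (θ x y * g x) := by ring
    rw [e, abs_mul]
    have h2 : |θ x y * g x| ≤ 1 := by
      rw [abs_mul, abs_of_nonneg (hθ0 x y)]
      exact mul_le_one₀ (hθ1 x y) (abs_nonneg _) (hg x)
    exact mul_le_of_le_one_right (abs_nonneg _) h2
  have h3 : ∀ x' ∈ X, |∑ x ∈ X, pM x * g x * (∑ y ∈ Y, r y * θ x y - ∑ y ∈ Y, r y * θ x' y)| ≤
      δ + ∑ x ∈ X, ∑ y ∈ Y, pN x y * |θ x y - θ x' y| := by
    intro x' _
    refine (Finset.abs_sum_le_sum_abs _ _).trans ?_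
    refine le_trans ?_ (add_le_add hδ le_rfl)
    rw [← Finset.sum_add_distrib]
    apply Finset.sum_le_sum
    intro x _
    rw [← Finset.sum_add_distrib, ← Finset.sum_sub_distrib, abs_mul, abs_mul,
      abs_of_nonneg (hpM x)]
    have h4 : |∑ y ∈ Y, (r y * θ x y - r y * θ x' y)| ≤ ∑ y ∈ Y, r y * |θ x y - θ x' y| := by
      refine (Finset.abs_sum_le_sum_abs _ _).trans ?_
      apply Finset.sum_le_sum
      intro y _
      rw [← mul_sub, abs_mul, abs_of_nonneg (hr y)]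
    have h5 : pM x * |g x| * |∑ y ∈ Y, (r y * θ x y - r y * θ x' y)| ≤
        pM x * ∑ y ∈ Y, r y * |θ x y - θ x' y| := by
      apply mul_le_mul _ h4 (abs_nonneg _) (hpM x)
      exact mul_le_of_le_one_right (hpM x) (hg x)
    refine h5.trans ?_
    rw [Finset.mul_sum]
    apply Finset.sum_le_sum
    intro y _
    have h6 : |θ x y - θ x' y| ≤ 1 := by
      rw [abs_le]
      constructor <;> linarith [hθ0 x y, hθ1 x y, hθ0 x' y, hθ1 x' y]
    have h7 : pM x * r y ≤ |pN x y - pM x * r y| + pN x y := by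
      have := neg_abs_le (pN x y - pM x * r y)
      linarith
    have h8 : pM x * r y * |θ x y - θ x' y| ≤
        (|pN x y - pM x * r y| + pN x y) * |θ x y - θ x' y| :=
      mul_le_mul_of_nonneg_right h7 (abs_nonneg _)
    have h9 : |pN x y - pM x * r y| * |θ x y - θ x' y| ≤ |pN x y - pM x * r y| :=
      mul_le_of_le_one_right (abs_nonneg _) h6
    calc pM x * (r y * |θ x y - θ x' y|) = pM x * r y * |θ x y - θ x' y| := by ring
      _ ≤ (|pN x y - pM x * r y| + pN x y) * |θ x y - θ x' y| := h8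
      _ = |pN x y - pM x * r y| * |θ x y - θ x' y| + pN x y * |θ x y - θ x' y| := by ring
      _ ≤ _ := by linarith
  have h10 : ∑ x ∈ X, pM x * g x * ∑ y ∈ Y, r y * θ x y -
      (∑ x ∈ X, pM x * ∑ y ∈ Y, r y * θ x y) * ∑ x ∈ X, pM x * g x =
      ∑ x' ∈ X, pM x' * ∑ x ∈ X, pM x * g x *
        (∑ y ∈ Y, r y * θ x y - ∑ y ∈ Y, r y * θ x' y) := by
    have e1 : ∀ x' ∈ X, pM x' * ∑ x ∈ X, pM x * g x *
        (∑ y ∈ Y, r y * θ x y - ∑ y ∈ Y, r y * θ x' y) =
        pM x' * (∑ x ∈ X, pM x * g x * ∑ y ∈ Y, r y * θ x y) -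
        (pM x' * ∑ y ∈ Y, r y * θ x' y) * ∑ x ∈ X, pM x * g x := by
      intro x' _
      have e2 : ∑ x ∈ X, pM x * g x * (∑ y ∈ Y, r y * θ x y - ∑ y ∈ Y, r y * θ x' y) =
          (∑ x ∈ X, pM x * g x * ∑ y ∈ Y, r y * θ x y) -
          (∑ y ∈ Y, r y * θ x' y) * ∑ x ∈ X, pM x * g x := by
        rw [Finset.mul_sum X (fun x => pM x * g x) (∑ y ∈ Y, r y * θ x' y),
          ← Finset.sum_sub_distrib]
        apply Finset.sum_congr rfl
        intro x _
        ring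
      rw [e2]
      ring
    rw [Finset.sum_congr rfl e1, Finset.sum_sub_distrib, ← Finset.sum_mul, hpM1, one_mul,
      ← Finset.sum_mul]
  have h11 : |∑ x ∈ X, pM x * g x * ∑ y ∈ Y, r y * θ x y -
      (∑ x ∈ X, pM x * ∑ y ∈ Y, r y * θ x y) * ∑ x ∈ X, pM x * g x| ≤
      δ + ∑ x' ∈ X, pM x' * ∑ x ∈ X, ∑ y ∈ Y, pN x y * |θ x y - θ x' y| := by
    rw [h10]
    refine (Finset.abs_sum_le_sum_abs _ _).trans ?_
    have : δ + ∑ x' ∈ X, pM x' * ∑ x ∈ X, ∑ y ∈ Y, pN x y * |θ x y - θ x' y| =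
        ∑ x' ∈ X, pM x' * (δ + ∑ x ∈ X, ∑ y ∈ Y, pN x y * |θ x y - θ x' y|) := by
      simp only [mul_add]
      rw [Finset.sum_add_distrib, ← Finset.sum_mul, hpM1, one_mul]
    rw [this]
    apply Finset.sum_le_sum
    intro x' hx'
    rw [abs_mul, abs_of_nonneg (hpM x')]
    exact mul_le_mul_of_nonneg_left (h3 x' hx') (hpM x')
  have h12 := abs_add_le (∑ x ∈ X, ∑ y ∈ Y, pN x y * θ x y * g x -
      ∑ x ∈ X, pM x * g x * ∑ y ∈ Y, r y * θ x y) (∑ x ∈ X, pM x * g x * ∑ y ∈ Y, r y * θ x y -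
      (∑ x ∈ X, pM x * ∑ y ∈ Y, r y * θ x y) * ∑ x ∈ X, pM x * g x)
  rw [sub_add_sub_cancel] at h12
  linarith

/-- truncation -/
def U4_lim_tr (M : ℕ) (z : Env) : Env := fun k => if k < M then z k else false

theorem U4_lim_tr_of_mem (M : ℕ) (z : Env) (hz : z ∈ W M) : U4_lim_tr M z = z := by
  funext k
  unfold U4_lim_tr
  split_ifs with h
  · rfl
  · exact ((mem_W M z).1 hz k (not_lt.mp h)).symm

theorem U4_lim_E_tr (μ : Fam) (M : ℕ) (G : Env → ℝ) :
    μ.E M G = μ.E M (fun z => G (U4_lim_tr M z)) := by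
  unfold Fam.E
  apply Finset.sum_congr rfl
  intro z hz
  beta_reduce
  rw [U4_lim_tr_of_mem M z hz]

theorem U4_lim_E_cons (μ : Fam) (M : ℕ) (G : Env → ℝ) (hG : Dep M G) (N : ℕ) (h : M ≤ N) :
    μ.E N G = μ.E M G := by
  induction N, h using Nat.le_induction with
  | base => rfl
  | succ N hN ih =>
    rw [← ih]
    unfold Fam.E
    rw [sum_succ]
    apply Finset.sum_congr rfl
    intro z _
    have e : ∀ b, G (up z N b) = G z := by
      intro b
      apply hG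
      intro i hi
      unfold up
      rw [if_neg (by omega)]
    rw [e, e, ← add_mul, ← μ.con]

theorem U4_lim_half_E (μ ν : Fam) (M : ℕ) (G : Env → ℝ) :
    (half μ ν).E M G = (μ.E M G + ν.E M G) / 2 := by
  unfold Fam.E half
  rw [← Finset.sum_add_distrib, Finset.sum_div]
  apply Finset.sum_congr rfl
  intro z _
  ring

theorem U4_lim_abs_E (μ : Fam) (M : ℕ) (G : Env → ℝ) (hG : ∀ z, |G z| ≤ 1) : |μ.E M G| ≤ 1 := by
  rw [← E_one μ M]
  unfold Fam.E
  refine (Finset.abs_sum_le_sum_abs _ _).trans ?_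
  apply Finset.sum_le_sum
  intro z _
  rw [abs_mul, abs_of_nonneg (μ.nn M z)]
  exact mul_le_mul_of_nonneg_left (hG z) (μ.nn M z)

theorem U4_lim_fin (q : ℝ) (h0 : 0 < q) (h1 : q < 1) (μ ν : Fam) (hI : Inv q μ) (hJ : Inv q ν)
    (M : ℕ) (δ : ℝ) (N : ℕ) (hMN : M ≤ N) (hM :
      ∑ z ∈ W N, |(half μ ν).p N z - (half μ ν).p M z * ∏ k ∈ Finset.Ico M N, rb q (z k)| ≤ δ)
    (G : Env → ℝ) (hG : ∀ z, |G z| ≤ 1) :
    |μ.E M G / 2 - (∑ x ∈ W M, (half μ ν).p M x * ∑ y ∈ YY M N,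
        (∏ k ∈ Finset.Ico M N, rb q (y k)) * th μ ν N (paste M x y)) * (half μ ν).E M G| ≤
      2 * δ + ∑ x' ∈ W M, (half μ ν).p M x' * ∑ x ∈ W M, ∑ y ∈ YY M N,
        (half μ ν).p N (paste M x y) * |th μ ν N (paste M x y) - th μ ν N (paste M x' y)| := by
  have hpμ := pos q h0 h1 μ hI
  have hpν := pos q h0 h1 ν hJ
  have hth := th_bd μ ν hpμ hpν
  have hrb : ∀ b, 0 ≤ rb q b := by
    intro b
    unfold rb
    split_ifs <;> linarith
  have hEM : μ.E M G / 2 = ∑ x ∈ W M, ∑ y ∈ YY M N,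
      (half μ ν).p N (paste M x y) * th μ ν N (paste M x y) * G x := by
    have hd : Dep M (fun z => G (U4_lim_tr M z)) := by
      intro z w hzw
      have : U4_lim_tr M z = U4_lim_tr M w := by
        funext k
        unfold U4_lim_tr
        split_ifs with h
        · exact hzw k h
        · rfl
      show G (U4_lim_tr M z) = G (U4_lim_tr M w)
      rw [this]
    rw [U4_lim_E_tr, ← U4_lim_E_cons μ M _ hd N hMN]
    unfold Fam.E
    rw [sum_paste M N hMN, Finset.sum_div]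
    apply Finset.sum_congr rfl
    intro x hx
    rw [Finset.sum_div]
    apply Finset.sum_congr rfl
    intro y _
    have e1 : U4_lim_tr M (paste M x y) = x := by
      refine Eq.trans ?_ (U4_lim_tr_of_mem M x hx)
      funext k
      unfold U4_lim_tr paste
      split_ifs with h
      · rfl
      · rfl
    show μ.p N (paste M x y) * G (U4_lim_tr M (paste M x y)) / 2 = _
    rw [e1, (hth N (paste M x y)).2.2.1]
    ring
  have hδ' : ∑ x ∈ W M, ∑ y ∈ YY M N, |(half μ ν).p N (paste M x y) -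
      (half μ ν).p M x * ∏ k ∈ Finset.Ico M N, rb q (y k)| ≤ δ := by
    refine le_trans (le_of_eq ?_) hM
    rw [sum_paste M N hMN]
    apply Finset.sum_congr rfl
    intro x hx
    apply Finset.sum_congr rfl
    intro y _
    have e1 : (half μ ν).p M (paste M x y) = (half μ ν).p M x := by
      apply (half μ ν).dep M
      intro i hi
      unfold paste
      rw [if_pos hi]
    have e2 : ∏ k ∈ Finset.Ico M N, rb q (paste M x y k) = ∏ k ∈ Finset.Ico M N, rb q (y k) := by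
      apply Finset.prod_congr rfl
      intro k hk
      unfold paste
      rw [if_neg (by have := (Finset.mem_Ico.1 hk).1; omega)]
    rw [e1, e2]
  have h1M : ∑ x ∈ W M, (half μ ν).p M x = 1 := by
    have := E_one (half μ ν) M
    unfold Fam.E at this
    simpa using this
  rw [hEM]
  exact U4_lim_abs (W M) (YY M N) (fun x y => (half μ ν).p N (paste M x y))
    (fun x y => th μ ν N (paste M x y)) (fun y => ∏ k ∈ Finset.Ico M N, rb q (y k))
    (fun x => (half μ ν).p M x) G δ (fun x y => (half μ ν).nn N _) (fun x y => (hth N _).1.le)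
    (fun x y => (hth N _).2.1.le) (fun y => Finset.prod_nonneg (fun k _ => hrb _))
    (fun x => (half μ ν).nn M x) h1M hG hδ'

/-- approximate independence of the label and the first `M` sites -/
theorem U4_lim (q : ℝ) (h0 : 0 < q) (h1 : q < 1) (μ ν : Fam) (hI : Inv q μ) (hJ : Inv q ν)
    (M : ℕ) (δ : ℝ) (hδ : 0 ≤ δ) (hM : ∀ N, M ≤ N →
      ∑ z ∈ W N, |(half μ ν).p N z - (half μ ν).p M z * ∏ k ∈ Finset.Ico M N, rb q (z k)| ≤ δ)
    (G : Env → ℝ) (hG : ∀ z, |G z| ≤ 1) : |μ.E M G - ν.E M G| ≤ 16 * δ := by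
  have hlim : Tendsto (fun N => ∑ x' ∈ W M, (half μ ν).p M x' * ∑ x ∈ W M, ∑ y ∈ YY M N,
        (half μ ν).p N (paste M x y) * |th μ ν N (paste M x y) - th μ ν N (paste M x' y)|)
        atTop (𝓝 0) := by
    have : (0 : ℝ) = ∑ x' ∈ W M, (half μ ν).p M x' * ∑ x ∈ W M, 0 := by simp
    rw [this]
    apply tendsto_finset_sum
    intro x' hx'
    apply Tendsto.const_mul
    apply tendsto_finset_sum
    intro x hx
    exact pairD q h0 h1 μ ν hI hJ M x x' hx hx'
  have hev : ∀ᶠ N in atTop, |μ.E M G - ν.E M G| ≤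
      16 * δ + 8 * ∑ x' ∈ W M, (half μ ν).p M x' * ∑ x ∈ W M, ∑ y ∈ YY M N,
        (half μ ν).p N (paste M x y) * |th μ ν N (paste M x y) - th μ ν N (paste M x' y)| := by
    filter_upwards [eventually_ge_atTop M] with N hN
    have a1 := U4_lim_fin q h0 h1 μ ν hI hJ M δ N hN (hM N hN) G hG
    have a2 := U4_lim_fin q h0 h1 μ ν hI hJ M δ N hN (hM N hN) (fun _ => 1) (by intro z; simp)
    rw [E_one, E_one, mul_one] at a2
    have a3 := U4_lim_abs_E (half μ ν) M G hG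
    have a4 := U4_lim_half_E μ ν M G
    generalize (∑ x ∈ W M, (half μ ν).p M x * ∑ y ∈ YY M N,
        (∏ k ∈ Finset.Ico M N, rb q (y k)) * th μ ν N (paste M x y)) = t at a1 a2
    generalize (∑ x' ∈ W M, (half μ ν).p M x' * ∑ x ∈ W M, ∑ y ∈ YY M N,
        (half μ ν).p N (paste M x y) * |th μ ν N (paste M x y) - th μ ν N (paste M x' y)|) = ε
        at a1 a2 ⊢
    generalize (half μ ν).E M G = e at a1 a3 a4
    have a5 : |(1 / 2 - t) * e| ≤ 2 * δ + ε := by
      rw [abs_mul]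
      have : |1 / 2 - t| * |e| ≤ |1 / 2 - t| := mul_le_of_le_one_right (abs_nonneg _) a3
      linarith
    have a6 : μ.E M G - ν.E M G = 4 * ((μ.E M G / 2 - t * e) - (1 / 2 - t) * e) := by
      rw [a4]
      ring
    rw [a6, abs_mul, abs_of_pos (by norm_num : (0 : ℝ) < 4)]
    have a7 := abs_sub (μ.E M G / 2 - t * e) ((1 / 2 - t) * e)
    linarith
  have hlim2 := (hlim.const_mul 8).const_add (16 * δ)
  have := ge_of_tendsto hlim2 hev
  linarith

end FAF
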