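import Pool.Agent.Helper769.FAU.UDefs
import Pool.Agent.Helper769.FAF.Base

set_option autoImplicit false
set_option linter.unusedSectionVars false

open Finset Filter Topology

noncomputable section

namespace FAF

theorem driftG_bdd (m : ℕ) (g : Env → ℝ) (hg : Dep m g) : ∃ G : ℝ, 0 ≤ G ∧ ∀ z, |g z| ≤ G := by
  refine ⟨∑ w ∈ W m, |g w|, Finset.sum_nonneg fun _ _ => abs_nonneg _, fun z => ?_⟩
  have h1 : g z = g (fun k => if k < m then z k else false) := by
    apply hg
    intro i hi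
    rw [if_pos hi]
  rw [h1]
  have h2 : (fun k => if k < m then z k else false) ∈ W m := by
    rw [mem_W]
    intro k hk
    rw [if_neg (not_lt.2 hk)]
  exact Finset.single_le_sum (f := fun w => |g w|) (fun _ _ => abs_nonneg _) h2

theorem driftG_err (θ G g E e : ℝ) (h0 : 0 < θ) (h1 : θ ≤ 1) (hG0 : 0 ≤ G) (hG : |g| ≤ G)
    (hE : |E| ≤ θ ^ 2) (he : |e| ≤ θ) : E + θ * g * (E + e) ≤ (1 + 2 * G) * θ ^ 2 := by
  have h2 : |E + e| ≤ 2 * θ := by
    refine (abs_add_le _ _).trans ?_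
    nlinarith
  have h3 : |g * (E + e)| ≤ G * (2 * θ) := by
    rw [abs_mul]
    exact mul_le_mul hG h2 (abs_nonneg _) hG0
  have h4 := (abs_le.1 h3).2
  have h5 := (abs_le.1 hE).2
  nlinarith

theorem driftG (q : ℝ) (h0 : 0 < q) (h1 : q < 1) (ε : ℝ) (hε : ε = 1 ∨ ε = -1) (a : ℝ)
    (h : ∃ (m : ℕ) (g : Env → ℝ) (c : ℝ), 0 < c ∧ Dep m g ∧
      ∀ z, c ≤ ε * (phi q z - a) - A q m g z) :
    ∃ θ0 : ℝ, 0 < θ0 ∧ ∀ θ, 0 < θ → θ < θ0 → ∃ (m : ℕ) (V : Env → ℝ),
      Drift q (ε * θ) (ε * (θ * a)) m V := by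
  obtain ⟨m, g, c, hc, hg, h⟩ := h
  obtain ⟨G, hG0, hG⟩ := driftG_bdd m g hg
  have hK : 0 < 1 + 2 * G + |a| * G := by positivity
  refine ⟨min 1 (min (1 / (2 * (G + 1))) (c / (1 + 2 * G + |a| * G))), by positivity, ?_⟩
  intro θ hθ hθ0
  have t1 : θ ≤ 1 := hθ0.le.trans (min_le_left _ _)
  have t2 : θ ≤ 1 / (2 * (G + 1)) := hθ0.le.trans ((min_le_right _ _).trans (min_le_left _ _))
  have t3 : θ ≤ c / (1 + 2 * G + |a| * G) :=
    hθ0.le.trans ((min_le_right _ _).trans (min_le_right _ _))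
  rw [le_div_iff₀ (by positivity)] at t2
  rw [le_div_iff₀ hK] at t3
  have hεa : |ε| = 1 := by
    rcases hε with h | h <;> rw [h] <;> norm_num
  have hεθ : |ε * θ| = θ := by
    rw [abs_mul, hεa, one_mul, abs_of_pos hθ]
  have hb : ∀ z, |θ * g z| ≤ 1 / 2 := by
    intro z
    rw [abs_mul, abs_of_pos hθ]
    have := mul_le_mul_of_nonneg_left (hG z) hθ.le
    nlinarith
  refine ⟨m, fun z => 1 + θ * g z, ?_, ?_, ?_, ?_⟩
  · intro z w hzw
    simp only
    rw [hg z w hzw]
  · intro z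
    have := (abs_le.1 (hb z)).1
    linarith
  · intro z
    have := (abs_le.1 (hb z)).2
    linarith
  · intro z
    have hA := h z
    unfold A phi at hA
    have hsum : ∑ k ∈ range m, cr z k * (q * (1 + θ * g (up z k true)) +
        (1 - q) * (1 + θ * g (up z k false)) - (1 + θ * g z)) =
        θ * ∑ k ∈ range m, cr z k * (q * g (up z k true) + (1 - q) * g (up z k false) - g z) := by
      rw [Finset.mul_sum]
      refine Finset.sum_congr rfl fun k _ => ?_
      ring
    simp only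
    rw [hsum]
    set Sg := ∑ k ∈ range m, cr z k * (q * g (up z k true) + (1 - q) * g (up z k false) - g z)
      with hSg
    set E1 := Real.exp (-(ε * θ)) - 1 - (-(ε * θ)) with hE1
    set E2 := Real.exp (ε * θ) - 1 - (ε * θ) with hE2
    have b1 : |E1| ≤ θ ^ 2 := by
      have := Real.abs_exp_sub_one_sub_id_le (x := -(ε * θ)) (by rw [abs_neg, hεθ]; exact t1)
      rw [neg_sq, ← sq_abs (ε * θ), hεθ] at this
      exact this
    have b2 : |E2| ≤ θ ^ 2 := by
      have := Real.abs_exp_sub_one_sub_id_le (x := (ε * θ)) (by rw [hεθ]; exact t1)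
      rw [← sq_abs (ε * θ), hεθ] at this
      exact this
    have r1 : Real.exp (-(ε * θ)) * (1 + θ * g (cons true z)) - (1 + θ * g z) =
        -(ε * θ) + θ * (g (cons true z) - g z) +
          (E1 + θ * g (cons true z) * (E1 + -(ε * θ))) := by
      rw [hE1]
      ring
    have r2 : Real.exp (ε * θ) * (1 + θ * g (tl z)) - (1 + θ * g z) =
        (ε * θ) + θ * (g (tl z) - g z) + (E2 + θ * g (tl z) * (E2 + (ε * θ))) := by
      rw [hE2]
      ring
    have e1 := driftG_err θ G (g (cons true z)) E1 (-(ε * θ)) hθ t1 hG0 (hG _) b1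
      (by rw [abs_neg, hεθ])
    have e2 := driftG_err θ G (g (tl z)) E2 (ε * θ) hθ t1 hG0 (hG _) b2 (by rw [hεθ])
    rw [r1, r2]
    have e1' := mul_le_mul_of_nonneg_left e1 h0.le
    have e2' := mul_le_mul_of_nonneg_left e2 (sub_pos.2 h1).le
    have hrhs : -(ε * (θ * a)) - θ ^ 2 * (|a| * G) ≤ -(ε * (θ * a)) * (1 + θ * g z) := by
      have s1 : |ε * a * g z| ≤ |a| * G := by
        rw [abs_mul, abs_mul, hεa, one_mul]
        exact mul_le_mul_of_nonneg_left (hG z) (abs_nonneg _)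
      have s2 := (abs_le.1 s1).2
      nlinarith [sq_nonneg θ]
    refine le_trans ?_ hrhs
    have hA' := mul_le_mul_of_nonneg_left hA hθ.le
    by_cases hz : z 0 = true
    · simp only [hz, if_true] at hA' ⊢
      nlinarith
    · simp only [hz] at hA' ⊢
      simp only [Bool.false_eq_true, if_false] at hA' ⊢
      have : 0 ≤ (1 - q) * ((1 + 2 * G) * θ ^ 2) := by
        have := (sub_pos.2 h1).le
        positivity
      nlinarith

end FAF
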