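import Pool.Agent.Helper769.FAU.UDefs
import Pool.Agent.Helper769.FAF.Base
import Pool.Agent.Helper769.FAF.P_alt
import Pool.Agent.Helper769.FAF.P_ofFin
import Pool.Agent.Helper769.FAF.P_ultra
import Pool.Agent.Helper769.FAF.P_A_dep
import Pool.Agent.Helper769.FAF.P_A_level
import Pool.Agent.Helper769.FAF.P_E_lift

set_option autoImplicit false
set_option linter.unusedSectionVars false

open Finset Filter Topology

noncomputable section

namespace FAF

theorem dualG_add (q : ℝ) (n : ℕ) (g1 g2 : Env → ℝ) (z : Env) :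
    A q n (fun w => g1 w + g2 w) z = A q n g1 z + A q n g2 z := by
  have h1 : ∑ k ∈ range n, cr z k * (q * (g1 (up z k true) + g2 (up z k true)) +
      (1 - q) * (g1 (up z k false) + g2 (up z k false)) - (g1 z + g2 z)) =
      ∑ k ∈ range n, cr z k * (q * g1 (up z k true) + (1 - q) * g1 (up z k false) - g1 z) +
      ∑ k ∈ range n, cr z k * (q * g2 (up z k true) + (1 - q) * g2 (up z k false) - g2 z) := by
    rw [← Finset.sum_add_distrib]
    refine Finset.sum_congr rfl fun k _ => ?_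
    ring
  unfold A
  rw [h1]
  split_ifs <;> ring

theorem dualG_smul (q : ℝ) (n : ℕ) (c : ℝ) (g : Env → ℝ) (z : Env) :
    A q n (fun w => c * g w) z = c * A q n g z := by
  have h1 : ∑ k ∈ range n, cr z k * (q * (c * g (up z k true)) +
      (1 - q) * (c * g (up z k false)) - (c * g z)) =
      c * ∑ k ∈ range n, cr z k * (q * g (up z k true) + (1 - q) * g (up z k false) - g z) := by
    rw [Finset.mul_sum]
    refine Finset.sum_congr rfl fun k _ => ?_
    ring
  unfold A
  rw [h1]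
  split_ifs <;> ring

/-- the image of the generator -/
def dualG_V (q : ℝ) (m : ℕ) : Submodule ℝ (Env → ℝ) where
  carrier := {v | ∃ g : Env → ℝ, Dep m g ∧ ∀ z, v z = A q m g z}
  add_mem' := by
    rintro v w ⟨g, hg, hv⟩ ⟨g', hg', hw⟩
    refine ⟨fun z => g z + g' z, fun z z' hz => by show g z + g' z = g z' + g' z'; rw [hg z z' hz, hg' z z' hz], fun z => ?_⟩
    rw [dualG_add, Pi.add_apply, hv, hw]
  zero_mem' := by
    refine ⟨fun _ => 0, fun _ _ _ => rfl, fun z => ?_⟩
    have h1 := dualG_smul q m 0 (fun _ => 0) z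
    simp only [zero_mul] at h1
    rw [h1]
    rfl
  smul_mem' := by
    rintro c v ⟨g, hg, hv⟩
    refine ⟨fun z => c * g z, fun z z' hz => by show c * g z = c * g z'; rw [hg z z' hz], fun z => ?_⟩
    rw [dualG_smul, Pi.smul_apply, hv, smul_eq_mul]

theorem dualG_step (q : ℝ) (k : ℕ) (psi : Env → ℝ) (hpsi : Dep k psi)
    (h : ¬ ∃ (m : ℕ) (g : Env → ℝ) (c : ℝ), 0 < c ∧ Dep m g ∧ ∀ z, c ≤ psi z - A q m g z)
    (m : ℕ) : ∃ μ : Fam, (∀ n ≤ m, ∀ G : Env → ℝ, Dep n G → μ.E (n + 1) (A q n G) = 0) ∧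
      μ.E k psi ≤ 0 := by
  have hne : (W (m + 1 + k)).Nonempty := ⟨fun _ => false, (mem_W _ _).2 fun _ _ => rfl⟩
  obtain ⟨p, hp0, hp1, hpV, hpf⟩ := alt (W (m + 1 + k)) hne (dualG_V q m) psi (by
    rintro v ⟨g, hg, hv⟩
    by_contra hcon
    push Not at hcon
    apply h
    obtain ⟨z₀, hz₀, hmin⟩ := Finset.exists_min_image (W (m + 1 + k))
      (fun z => psi z - A q m g z) hne
    refine ⟨m, g, psi z₀ - A q m g z₀, ?_, hg, fun z => ?_⟩
    · have := hcon z₀ hz₀
      rwa [hv] at this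
    · set z' : Env := fun i => if i < m + 1 + k then z i else false with hz'
      have hz'W : z' ∈ W (m + 1 + k) := by
        rw [mem_W]
        intro i hi
        simp only [hz']
        rw [if_neg (by omega)]
      have e1 : psi z = psi z' := hpsi z z' fun i hi => by
        simp only [hz']
        rw [if_pos (by omega)]
      have e2 : A q m g z = A q m g z' := A_dep q m g hg z z' fun i hi => by
        simp only [hz']
        rw [if_pos (by omega)]
      rw [e1, e2]
      exact hmin z' hz'W)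
  obtain ⟨μ, hμ⟩ := ofFin (m + 1 + k) p hp0 hp1
  refine ⟨μ, fun n hn G hG => ?_, ?_⟩
  · rw [hμ (n + 1) (A q n G) (A_dep q n G hG)]
    have h1 := hpV (A q m G) ⟨G, Dep_mono hn hG, fun _ => rfl⟩
    rw [← h1]
    refine Finset.sum_congr rfl fun z _ => ?_
    rw [A_level q n m hn G hG z]
  · rw [hμ k psi hpsi]
    exact hpf

theorem dualG (q : ℝ) (k : ℕ) (psi : Env → ℝ) (hpsi : Dep k psi)
    (h : ¬ ∃ (m : ℕ) (g : Env → ℝ) (c : ℝ), 0 < c ∧ Dep m g ∧ ∀ z, c ≤ psi z - A q m g z) :
    ∃ μ : Fam, Inv q μ ∧ μ.E k psi ≤ 0 := by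
  choose μs hinv hle using dualG_step q k psi hpsi h
  obtain ⟨U, μ, hU, hlim⟩ := ultra μs
  refine ⟨μ, fun n G hG => ?_, ?_⟩
  · have h1 := ultra_E μs U μ hlim (n + 1) (A q n G)
    have h2 : ∀ᶠ m in (U : Filter ℕ), (μs m).E (n + 1) (A q n G) = 0 :=
      hU ((eventually_ge_atTop n).mono fun m hm => hinv m n hm G hG)
    have h3 : Tendsto (fun m => (μs m).E (n + 1) (A q n G)) U (𝓝 0) :=
      (tendsto_congr' h2).2 tendsto_const_nhds
    exact tendsto_nhds_unique h1 h3
  · exact le_of_tendsto (ultra_E μs U μ hlim k psi) (Eventually.of_forall hle)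

end FAF
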