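import Pool.Agent.Helper769.FAU.UDefs
import Pool.Agent.Helper769.FAF.Base
import Pool.Agent.Helper769.FAF.P_dual

set_option autoImplicit false
set_option linter.unusedSectionVars false

open Finset Filter Topology

noncomputable section

namespace FAF

theorem exists_inv_min (m : ℕ) (g : Env → ℝ) (hg : Dep m g) : ∃ z0 : Env, ∀ z, g z0 ≤ g z := by
  have hne : (W m).Nonempty := ⟨fun _ => false, (mem_W m _).2 (fun _ _ => rfl)⟩
  obtain ⟨z0, _, hmin⟩ := Finset.exists_min_image (W m) g hne
  refine ⟨z0, fun z => ?_⟩
  have h1 : (fun k => if k < m then z k else false) ∈ W m := by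
    rw [mem_W]
    intro k hk
    show (if k < m then z k else false) = false
    rw [if_neg (not_lt.2 hk)]
  have h2 : g z = g (fun k => if k < m then z k else false) := by
    apply hg
    intro i hi
    show z i = if i < m then z i else false
    rw [if_pos hi]
  rw [h2]
  exact hmin _ h1

theorem exists_inv (q : ℝ) (h0 : 0 < q) (h1 : q < 1) : ∃ μ : Fam, Inv q μ := by
  have hnc : ¬ Cert q 2 := by
    rintro ⟨m, g, c, hc, hdep, h⟩
    obtain ⟨z0, hz0⟩ := exists_inv_min m g hdep
    have hA : 0 ≤ A q m g z0 := by
      unfold A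
      have e1 : 0 ≤ q * (g (cons true z0) - g z0) :=
        mul_nonneg h0.le (sub_nonneg.2 (hz0 _))
      have e2 : 0 ≤ (if z0 0 = true then (1 - q) * (g (tl z0) - g z0) else 0) := by
        split_ifs
        · exact mul_nonneg (by linarith) (sub_nonneg.2 (hz0 _))
        · exact le_rfl
      have e3 : 0 ≤ ∑ k ∈ range m, cr z0 k *
          (q * g (up z0 k true) + (1 - q) * g (up z0 k false) - g z0) := by
        refine Finset.sum_nonneg fun k _ => mul_nonneg ?_ ?_
        · unfold cr; split_ifs <;> norm_num
        · have a1 := mul_nonneg h0.le (sub_nonneg.2 (hz0 (up z0 k true)))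
          have a2 := mul_nonneg (sub_nonneg.2 h1.le) (sub_nonneg.2 (hz0 (up z0 k false)))
          linarith
      linarith
    have hphi : phi q z0 ≤ q := by
      unfold phi
      have : 0 ≤ (if z0 0 = true then 1 - q else 0) := by
        split_ifs
        · linarith
        · exact le_rfl
      linarith
    have := h z0
    linarith
  obtain ⟨μ, hμ, _⟩ := dual q 2 hnc
  exact ⟨μ, hμ⟩

end FAF
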