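import Pool.Agent.Helper769.FAU.UDefs
import Pool.Agent.Helper769.FAF.Base

set_option autoImplicit false
set_option linter.unusedSectionVars false

open Finset Filter Topology

noncomputable section

namespace FAF

theorem kl_chain (q : ℝ) (h0 : 0 < q) (h1 : q < 1) (μ : Fam) (hp : ∀ n z, 0 < μ.p n z) (m n : ℕ)
    (h : m ≤ n) :
    ∑ z ∈ W n, μ.p n z * (Real.log (μ.p n z)
      - Real.log (μ.p m z * ∏ k ∈ Finset.Ico m n, rb q (z k))) = ∑ k ∈ Finset.Ico m n, aN q μ k := by
  have hrb : ∀ b, 0 < rb q b := by
    intro b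
    unfold rb
    split_ifs <;> linarith
  induction n, h using Nat.le_induction with
  | base => simp
  | succ n hmn ih =>
    have hprod : ∀ z : Env, 0 < μ.p m z * ∏ k ∈ Finset.Ico m n, rb q (z k) := fun z =>
      mul_pos (hp m z) (Finset.prod_pos fun k _ => hrb _)
    have hH : ∀ z : Env, μ.p (n + 1) z * (Real.log (μ.p (n + 1) z)
        - Real.log (μ.p m z * ∏ k ∈ Finset.Ico m (n + 1), rb q (z k)))
        = μ.p (n + 1) z * al q μ n z + μ.p (n + 1) z * (Real.log (μ.p n z)
          - Real.log (μ.p m z * ∏ k ∈ Finset.Ico m n, rb q (z k))) := by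
      intro z
      rw [Finset.prod_Ico_succ_top hmn, ← mul_assoc, Real.log_mul (hprod z).ne' (hrb _).ne']
      unfold al
      ring
    rw [Finset.sum_congr rfl fun z _ => hH z, Finset.sum_add_distrib,
      Finset.sum_Ico_succ_top hmn, ← ih, add_comm]
    congr 1
    rw [sum_succ]
    refine Finset.sum_congr rfl fun z _ => ?_
    have hG : ∀ b, (Real.log (μ.p n (up z n b))
          - Real.log (μ.p m (up z n b) * ∏ k ∈ Finset.Ico m n, rb q (up z n b k)))
        = (Real.log (μ.p n z) - Real.log (μ.p m z * ∏ k ∈ Finset.Ico m n, rb q (z k))) := by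
      intro b
      have e1 : ∀ j, j < n → up z n b j = z j := by
        intro j hj
        unfold up
        rw [if_neg (by omega)]
      rw [μ.dep n (up z n b) z e1, μ.dep m (up z n b) z fun i hi => e1 i (by omega)]
      rw [Finset.prod_congr rfl fun k hk => by rw [e1 k (Finset.mem_Ico.mp hk).2]]
    rw [hG, hG, μ.con n z]
    ring

end FAF
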