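import Pool.Agent.Helper769.FAU.UDefs
import Pool.Agent.Helper769.FAF.Base
import Pool.Agent.Helper769.FAU.P_kl_chain

set_option autoImplicit false
set_option linter.unusedSectionVars false

open Finset Filter Topology

noncomputable section

namespace FAF

theorem pinskerW_h {u : ℝ} (hu : 1 ≤ u) : 0 ≤ (u + 1) * Real.log u - 2 * (u - 1) := by
  have h1 := Real.le_log_one_add_of_nonneg (x := u - 1) (by linarith)
  have e1 : 1 + (u - 1) = u := by ring
  have e2 : u - 1 + 2 = u + 1 := by ring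
  rw [e1, e2, div_le_iff₀ (by linarith)] at h1
  linarith

theorem pinskerW_h' {u : ℝ} (hu0 : 0 < u) (hu : u ≤ 1) :
    (u + 1) * Real.log u - 2 * (u - 1) ≤ 0 := by
  have h1 := pinskerW_h (u := u⁻¹) ((one_le_inv₀ hu0).2 hu)
  rw [Real.log_inv] at h1
  have h2 : 0 ≤ u * ((u⁻¹ + 1) * -Real.log u - 2 * (u⁻¹ - 1)) := mul_nonneg hu0.le h1
  have h3 : u * ((u⁻¹ + 1) * -Real.log u - 2 * (u⁻¹ - 1)) =
      - ((u + 1) * Real.log u - 2 * (u - 1)) := by
    field_simp
    ring
  rw [h3] at h2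
  linarith

theorem pinskerW_deriv {u : ℝ} (hu : 0 < u) :
    HasDerivAt (fun u : ℝ => (2 * u + 4) * (u * Real.log u - u + 1) - 3 * (u - 1) ^ 2)
      (4 * ((u + 1) * Real.log u - 2 * (u - 1))) u := by
  have h1 : HasDerivAt (fun u : ℝ => u * Real.log u) (Real.log u + 1) u :=
    Real.hasDerivAt_mul_log hu.ne'
  have h2 : HasDerivAt (fun u : ℝ => u * Real.log u - u + 1) (Real.log u + 1 - 1) u :=
    (h1.sub (hasDerivAt_id' u)).add_const 1
  have h3 : HasDerivAt (fun u : ℝ => 2 * u + 4) (2 * 1) u :=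
    ((hasDerivAt_id' u).const_mul 2).add_const 4
  have h4 : HasDerivAt (fun u : ℝ => (u - 1) ^ 2) (2 * (u - 1) ^ 1 * 1) u := by
    have := ((hasDerivAt_id' u).sub_const 1).fun_pow 2
    simpa using this
  have h5 := (h3.fun_mul h2).fun_sub (h4.const_mul 3)
  have e1 : 2 * 1 * (u * Real.log u - u + 1) + (2 * u + 4) * (Real.log u + 1 - 1) -
      3 * (2 * (u - 1) ^ 1 * 1) = 4 * ((u + 1) * Real.log u - 2 * (u - 1)) := by ring
  rw [e1] at h5
  exact h5

theorem pinskerW_pt {u : ℝ} (hu : 0 < u) :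
    3 * (u - 1) ^ 2 ≤ (2 * u + 4) * (u * Real.log u - u + 1) := by
  have hg1 : (fun u : ℝ => (2 * u + 4) * (u * Real.log u - u + 1) - 3 * (u - 1) ^ 2) 1 = 0 := by
    norm_num
  rcases le_total u 1 with h | h
  · have hanti : AntitoneOn
        (fun u : ℝ => (2 * u + 4) * (u * Real.log u - u + 1) - 3 * (u - 1) ^ 2) (Set.Icc u 1) := by
      apply antitoneOn_of_deriv_nonpos (convex_Icc u 1)
      · intro x hx
        exact (pinskerW_deriv (lt_of_lt_of_le hu hx.1)).continuousAt.continuousWithinAt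
      · intro x hx
        rw [interior_Icc] at hx
        exact (pinskerW_deriv (hu.trans hx.1)).differentiableAt.differentiableWithinAt
      · intro x hx
        rw [interior_Icc] at hx
        rw [(pinskerW_deriv (hu.trans hx.1)).deriv]
        have := pinskerW_h' (hu.trans hx.1) hx.2.le
        linarith
    have := hanti (Set.left_mem_Icc.2 h) (Set.right_mem_Icc.2 h) h
    rw [hg1] at this
    simp only at this
    linarith
  · have hmono : MonotoneOn
        (fun u : ℝ => (2 * u + 4) * (u * Real.log u - u + 1) - 3 * (u - 1) ^ 2) (Set.Icc 1 u) := by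
      apply monotoneOn_of_deriv_nonneg (convex_Icc 1 u)
      · intro x hx
        exact (pinskerW_deriv (lt_of_lt_of_le one_pos hx.1)).continuousAt.continuousWithinAt
      · intro x hx
        rw [interior_Icc] at hx
        exact (pinskerW_deriv (one_pos.trans hx.1)).differentiableAt.differentiableWithinAt
      · intro x hx
        rw [interior_Icc] at hx
        rw [(pinskerW_deriv (one_pos.trans hx.1)).deriv]
        have := pinskerW_h hx.1.le
        linarith
    have := hmono (Set.left_mem_Icc.2 h) (Set.right_mem_Icc.2 h) h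
    rw [hg1] at this
    simp only at this
    linarith

theorem pinskerW_pr {p r : ℝ} (hp : 0 < p) (hr : 0 < r) :
    (p - r) ^ 2 ≤ ((2 * p + 4 * r) / 3) * (p * (Real.log p - Real.log r) - p + r) := by
  have h1 := pinskerW_pt (u := p / r) (by positivity)
  rw [Real.log_div hp.ne' hr.ne'] at h1
  have h2 : r ^ 2 * (3 * (p / r - 1) ^ 2) ≤
      r ^ 2 * ((2 * (p / r) + 4) * (p / r * (Real.log p - Real.log r) - p / r + 1)) :=
    mul_le_mul_of_nonneg_left h1 (by positivity)
  have e1 : r ^ 2 * (3 * (p / r - 1) ^ 2) = 3 * (p - r) ^ 2 := by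
    field_simp
  have e2 : r ^ 2 * ((2 * (p / r) + 4) * (p / r * (Real.log p - Real.log r) - p / r + 1)) =
      (2 * p + 4 * r) * (p * (Real.log p - Real.log r) - p + r) := by
    field_simp
  rw [e1, e2] at h2
  linarith

theorem pinskerW_sum1 (μ : Fam) (n : ℕ) : ∑ z ∈ W n, μ.p n z = 1 := by
  induction n with
  | zero => rw [W_zero, Finset.sum_singleton, μ.one]
  | succ n ih =>
    rw [sum_succ, ← ih]
    exact Finset.sum_congr rfl (fun z _ => (μ.con n z).symm)

theorem pinskerW_sum2 (q : ℝ) (μ : Fam) (m n : ℕ) (h : m ≤ n) :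
    ∑ z ∈ W n, μ.p m z * ∏ k ∈ Finset.Ico m n, rb q (z k) = 1 := by
  induction n, h using Nat.le_induction with
  | base =>
    simp only [Finset.Ico_self, Finset.prod_empty, mul_one]
    exact pinskerW_sum1 μ m
  | succ n hmn ih =>
    rw [sum_succ, ← ih]
    apply Finset.sum_congr rfl
    intro z _
    have key : ∀ b : Bool, μ.p m (up z n b) * ∏ k ∈ Finset.Ico m (n + 1), rb q (up z n b k) =
        (μ.p m z * ∏ k ∈ Finset.Ico m n, rb q (z k)) * rb q b := by
      intro b
      have e1 : μ.p m (up z n b) = μ.p m z := by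
        apply μ.dep m
        intro i hi
        unfold up
        rw [if_neg (by omega)]
      have e2 : up z n b n = b := by
        unfold up
        rw [if_pos rfl]
      have e3 : ∏ k ∈ Finset.Ico m n, rb q (up z n b k) = ∏ k ∈ Finset.Ico m n, rb q (z k) := by
        apply Finset.prod_congr rfl
        intro k hk
        rw [Finset.mem_Ico] at hk
        unfold up
        rw [if_neg (by omega)]
      rw [Finset.prod_Ico_succ_top hmn, e1, e2, e3, mul_assoc]
    rw [key, key, ← mul_add]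
    have e4 : rb q false + rb q true = 1 := by
      unfold rb
      simp
    rw [e4, mul_one]

theorem pinskerW (q : ℝ) (h0 : 0 < q) (h1 : q < 1) (μ : Fam) (hp : ∀ n z, 0 < μ.p n z) (m n : ℕ)
    (h : m ≤ n) :
    ∑ z ∈ W n, |μ.p n z - μ.p m z * ∏ k ∈ Finset.Ico m n, rb q (z k)| ≤
      Real.sqrt (2 * ∑ k ∈ Finset.Ico m n, aN q μ k) := by
  have hrb : ∀ b, 0 < rb q b := by
    intro b
    unfold rb
    split_ifs
    · exact h0
    · linarith
  have hr : ∀ z, 0 < μ.p m z * ∏ k ∈ Finset.Ico m n, rb q (z k) := fun z =>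
    mul_pos (hp m z) (Finset.prod_pos (fun k _ => hrb _))
  have hpt := fun z => pinskerW_pr (hp n z) (hr z)
  have hb : ∀ z, 0 ≤ μ.p n z * (Real.log (μ.p n z) -
      Real.log (μ.p m z * ∏ k ∈ Finset.Ico m n, rb q (z k))) - μ.p n z +
      μ.p m z * ∏ k ∈ Finset.Ico m n, rb q (z k) := by
    intro z
    have h1 := hpt z
    have h2 : 0 < (2 * μ.p n z + 4 * (μ.p m z * ∏ k ∈ Finset.Ico m n, rb q (z k))) / 3 := by
      have := hp n z
      have := hr z
      positivity
    by_contra hcon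
    have h3 := mul_neg_of_pos_of_neg h2 (not_le.1 hcon)
    have h4 := sq_nonneg (μ.p n z - μ.p m z * ∏ k ∈ Finset.Ico m n, rb q (z k))
    linarith
  have hsa : ∑ z ∈ W n, (2 * μ.p n z + 4 * (μ.p m z * ∏ k ∈ Finset.Ico m n, rb q (z k))) / 3 = 2 := by
    rw [← Finset.sum_div, Finset.sum_add_distrib, ← Finset.mul_sum, ← Finset.mul_sum,
      pinskerW_sum1, pinskerW_sum2 q μ m n h]
    norm_num
  have hsb : ∑ z ∈ W n, (μ.p n z * (Real.log (μ.p n z) -
      Real.log (μ.p m z * ∏ k ∈ Finset.Ico m n, rb q (z k))) - μ.p n z +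
      μ.p m z * ∏ k ∈ Finset.Ico m n, rb q (z k)) = ∑ k ∈ Finset.Ico m n, aN q μ k := by
    rw [Finset.sum_add_distrib, Finset.sum_sub_distrib, pinskerW_sum1, pinskerW_sum2 q μ m n h,
      kl_chain q h0 h1 μ hp m n h]
    ring
  have hCS : (∑ z ∈ W n, |μ.p n z - μ.p m z * ∏ k ∈ Finset.Ico m n, rb q (z k)|) ^ 2 ≤
      (∑ z ∈ W n, (2 * μ.p n z + 4 * (μ.p m z * ∏ k ∈ Finset.Ico m n, rb q (z k))) / 3) *
      ∑ z ∈ W n, (μ.p n z * (Real.log (μ.p n z) -
        Real.log (μ.p m z * ∏ k ∈ Finset.Ico m n, rb q (z k))) - μ.p n z +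
        μ.p m z * ∏ k ∈ Finset.Ico m n, rb q (z k)) := by
    have h1 : (∑ z ∈ W n, |μ.p n z - μ.p m z * ∏ k ∈ Finset.Ico m n, rb q (z k)|) ≤
        ∑ z ∈ W n, Real.sqrt (((2 * μ.p n z + 4 * (μ.p m z * ∏ k ∈ Finset.Ico m n, rb q (z k))) / 3) *
          (μ.p n z * (Real.log (μ.p n z) -
          Real.log (μ.p m z * ∏ k ∈ Finset.Ico m n, rb q (z k))) - μ.p n z +
          μ.p m z * ∏ k ∈ Finset.Ico m n, rb q (z k))) :=
      Finset.sum_le_sum (fun z _ => Real.abs_le_sqrt (hpt z))
    have h2 : 0 ≤ ∑ z ∈ W n, |μ.p n z - μ.p m z * ∏ k ∈ Finset.Ico m n, rb q (z k)| :=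
      Finset.sum_nonneg (fun z _ => abs_nonneg _)
    refine (pow_le_pow_left₀ h2 h1 2).trans ?_
    have h2a : ∀ z, 0 ≤ (2 * μ.p n z + 4 * (μ.p m z * ∏ k ∈ Finset.Ico m n, rb q (z k))) / 3 := by
      intro z
      have := hp n z
      have := hr z
      positivity
    apply Finset.sum_sq_le_sum_mul_sum_of_sq_le_mul
    · intro z _
      exact h2a z
    · intro z _
      exact hb z
    · intro z _
      exact (Real.sq_sqrt (mul_nonneg (h2a z) (hb z))).le
  rw [hsa, hsb] at hCS
  exact Real.le_sqrt_of_sq_le hCS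

end FAF
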