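import Pool.Agent.Helper769.FAU.UDefs
import Pool.Agent.Helper769.FAF.Base
import Pool.Agent.Helper769.FAU.P_U4_lim
import Pool.Agent.Helper769.FAU.P_pinskerW
import Pool.Agent.Helper769.FAU.P_half_inv
import Pool.Agent.Helper769.FAU.P_th_bd
import Pool.Agent.Helper769.FAF.P_pos
import Pool.Agent.Helper769.FAF.P_E_lift
import Pool.Agent.Helper769.FAF.P_E_al_nonneg

set_option autoImplicit false
set_option linter.unusedSectionVars false

open Finset Filter Topology

noncomputable section

namespace FAF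

/-- two invariant families coincide -/
theorem uniqU4 (q : ℝ) (h0 : 0 < q) (h1 : q < 1) (μ ν : Fam) (hI : Inv q μ) (hJ : Inv q ν)
    (hs : Summable (fun n => aN q (half μ ν) n)) : ∀ (n : ℕ) (G : Env → ℝ), Dep n G →
      μ.E n G = ν.E n G := by
  intro n G hG
  have hH := half_inv q μ ν hI hJ
  have hp := pos q h0 h1 (half μ ν) hH
  have ha : ∀ k, 0 ≤ aN q (half μ ν) k := fun k => E_al_nonneg q h0 h1 (half μ ν) hp k
  -- boundedness
  obtain ⟨B, hB1, hB⟩ : ∃ B : ℝ, 1 ≤ B ∧ ∀ z, |G z| ≤ B := by
    refine ⟨1 + ∑ w ∈ W n, |G w|, ?_, ?_⟩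
    · have : 0 ≤ ∑ w ∈ W n, |G w| := Finset.sum_nonneg fun w _ => abs_nonneg _
      linarith
    · intro z
      have h2 : G z = G (fun k => if k < n then z k else false) := by
        apply hG
        intro i hi
        show z i = if i < n then z i else false
        rw [if_pos hi]
      have h3 : (fun k => if k < n then z k else false) ∈ W n := by
        rw [mem_W]
        intro k hk
        show (if k < n then z k else false) = false
        rw [if_neg (by omega)]
      have h4 : |G (fun k => if k < n then z k else false)| ≤ ∑ w ∈ W n, |G w| :=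
        Finset.single_le_sum (f := fun w => |G w|) (fun w _ => abs_nonneg _) h3
      rw [h2]
      linarith
  have hB0 : 0 < B := by linarith
  let δ : ℕ → ℝ := fun M => Real.sqrt (2 * ∑' k, aN q (half μ ν) (k + M))
  have hδ : Tendsto (fun M => 16 * B * δ M) atTop (𝓝 0) := by
    have h2 : Tendsto (fun M => ∑' k, aN q (half μ ν) (k + M)) atTop (𝓝 0) :=
      tendsto_sum_nat_add _
    have h3 : Tendsto (fun M => 2 * ∑' k, aN q (half μ ν) (k + M)) atTop (𝓝 (2 * 0)) :=
      h2.const_mul 2
    have h4 : Tendsto δ atTop (𝓝 (Real.sqrt (2 * 0))) :=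
      (Real.continuous_sqrt.tendsto _).comp h3
    have h5 := h4.const_mul (16 * B)
    simpa using h5
  have hkey : ∀ M, n ≤ M → |μ.E n G - ν.E n G| ≤ 16 * B * δ M := by
    intro M hM
    have h2 : ∀ N, M ≤ N →
      ∑ z ∈ W N, |(half μ ν).p N z - (half μ ν).p M z * ∏ k ∈ Finset.Ico M N, rb q (z k)| ≤ δ M := by
      intro N hN
      refine (pinskerW q h0 h1 (half μ ν) hp M N hN).trans ?_
      apply Real.sqrt_le_sqrt
      have h3 : ∑ k ∈ Finset.Ico M N, aN q (half μ ν) k ≤ ∑' k, aN q (half μ ν) (k + M) := by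
        rw [Finset.sum_Ico_eq_sum_range]
        have h4 : ∀ k, aN q (half μ ν) (M + k) = aN q (half μ ν) (k + M) := fun k => by rw [add_comm]
        simp only [h4]
        exact Summable.sum_le_tsum _ (fun k _ => ha _) ((summable_nat_add_iff M).2 hs)
      linarith
    have h3 := U4_lim q h0 h1 μ ν hI hJ M (δ M) (Real.sqrt_nonneg _) h2 (fun z => B⁻¹ * G z) (by
      intro z
      rw [abs_mul, abs_of_pos (inv_pos.2 hB0), inv_mul_le_iff₀ hB0, mul_one]
      exact hB z)
    rw [E_smul, E_smul, E_lift μ n M hM G hG, E_lift ν n M hM G hG, ← mul_sub, abs_mul,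
      abs_of_pos (inv_pos.2 hB0), inv_mul_le_iff₀ hB0] at h3
    linarith
  have hle : |μ.E n G - ν.E n G| ≤ 0 :=
    ge_of_tendsto hδ ((eventually_ge_atTop n).mono fun M hM => hkey M hM)
  have h2 := abs_nonpos_iff.1 hle
  linarith

end FAF
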