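import Pool.Agent.Helper769.FAU.UDefs
import Pool.Agent.Helper769.FAF.Base
import Pool.Agent.Helper769.FAU.P_uniqU4
import Pool.Agent.Helper769.FAU.P_half_inv
import Pool.Agent.Helper769.FAU.P_dualG
import Pool.Agent.Helper769.FAU.P_driftG
import Pool.Agent.Helper769.FAU.P_exists_inv
import Pool.Agent.Helper769.FAF.P_cert
import Pool.Agent.Helper769.FAF.P_E_one
import Pool.Agent.Helper769.FAF.P_A_dep
import Pool.Agent.Helper769.FAF.P_E_lift

set_option autoImplicit false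
set_option linter.unusedSectionVars false

open Finset Filter Topology

noncomputable section

namespace FAF

theorem speed_phi_dep (q : ℝ) : Dep 1 (phi q) := by
  intro z w h
  have h0 : z 0 = w 0 := h 0 (by norm_num)
  simp only [phi, h0]

theorem speed_E_const (μ : Fam) (n : ℕ) (c : ℝ) : μ.E n (fun _ => c) = c := by
  have h := E_smul μ n c (fun _ => 1)
  rw [E_one] at h
  simpa using h

/-- the expectation of a certificate expression -/
theorem speed_E_cert (q : ℝ) (μ : Fam) (hI : Inv q μ) (m : ℕ) (g : Env → ℝ) (hg : Dep m g)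
    (psi : Env → ℝ) (hpsi : Dep 1 psi) :
    μ.E (m + 1) (fun z => psi z - A q m g z) = μ.E 1 psi := by
  rw [E_sub, E_lift μ 1 (m + 1) (by omega) psi hpsi]
  have h := hI m g hg
  have h' : μ.E (m + 1) (fun z => A q m g z) = 0 := h
  rw [h']
  ring

theorem speed_dep_psi (q ε a : ℝ) : Dep 1 (fun z => ε * (phi q z - a)) := by
  intro z w h
  have := speed_phi_dep q z w h
  simp only [this]

theorem speed_E_psi (q ε a : ℝ) (μ : Fam) :
    μ.E 1 (fun z => ε * (phi q z - a)) = ε * (μ.E 1 (phi q) - a) := by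
  have h1 := E_smul μ 1 ε (fun z => phi q z - a)
  have h2 := E_sub μ 1 (phi q) (fun _ => a)
  rw [speed_E_const] at h2
  rw [h1, h2]

/-- existence of the front speed, from the summability of the conditional entropies -/
theorem speed_of (q : ℝ) (h0 : 0 < q) (h1 : q < 1)
    (hs : ∀ μ : Fam, Inv q μ → Summable (fun n => μ.E (n + 1) (al q μ n))) : ∃ v : ℝ, 0 < v ∧
    (∀ a, 0 < a → a < v → ∃ θ0 : ℝ, 0 < θ0 ∧ ∀ θ, 0 < θ → θ < θ0 →
      ∃ (m : ℕ) (V : Env → ℝ), Drift q θ (θ * a) m V) ∧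
    (∀ a, v < a → ∃ θ0 : ℝ, 0 < θ0 ∧ ∀ θ, 0 < θ → θ < θ0 →
      ∃ (m : ℕ) (V : Env → ℝ), Drift q (-θ) (-(θ * a)) m V) := by
  obtain ⟨μ0, hI0⟩ := exists_inv q h0 h1
  have huniq : ∀ μ : Fam, Inv q μ → μ.E 1 (phi q) = μ0.E 1 (phi q) := fun μ hI =>
    uniqU4 q h0 h1 μ μ0 hI hI0 (hs (half μ μ0) (half_inv q μ μ0 hI hI0))
      1 (phi q) (speed_phi_dep q)
  refine ⟨μ0.E 1 (phi q), ?_, ?_, ?_⟩
  · obtain ⟨m, g, c, hc, hg, h⟩ := cert q h0 h1
    have e1 : μ0.E (m + 1) (fun _ => c) ≤ μ0.E (m + 1) (fun z => phi q z - A q m g z) := by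
      apply E_mono
      intro z _
      have := h z
      simpa using this
    rw [speed_E_const, speed_E_cert q μ0 hI0 m g hg (phi q) (speed_phi_dep q)] at e1
    linarith
  · intro a _ hav
    have hc : ∃ (m : ℕ) (g : Env → ℝ) (c : ℝ), 0 < c ∧ Dep m g ∧
        ∀ z, c ≤ (1 : ℝ) * (phi q z - a) - A q m g z := by
      by_contra hno
      obtain ⟨μ, hI, hle⟩ := dualG q 1 (fun z => (1 : ℝ) * (phi q z - a))
        (speed_dep_psi q 1 a) hno
      rw [speed_E_psi, huniq μ hI] at hle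
      linarith
    obtain ⟨θ0, hθ0, h⟩ := driftG q h0 h1 1 (Or.inl rfl) a hc
    refine ⟨θ0, hθ0, ?_⟩
    intro θ hθ hθ'
    obtain ⟨m, V, hV⟩ := h θ hθ hθ'
    refine ⟨m, V, ?_⟩
    rw [one_mul, one_mul] at hV
    exact hV
  · intro a hav
    have hc : ∃ (m : ℕ) (g : Env → ℝ) (c : ℝ), 0 < c ∧ Dep m g ∧
        ∀ z, c ≤ (-1 : ℝ) * (phi q z - a) - A q m g z := by
      by_contra hno
      obtain ⟨μ, hI, hle⟩ := dualG q 1 (fun z => (-1 : ℝ) * (phi q z - a))
        (speed_dep_psi q (-1) a) hno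
      rw [speed_E_psi, huniq μ hI] at hle
      linarith
    obtain ⟨θ0, hθ0, h⟩ := driftG q h0 h1 (-1) (Or.inr rfl) a hc
    refine ⟨θ0, hθ0, ?_⟩
    intro θ hθ hθ'
    obtain ⟨m, V, hV⟩ := h θ hθ hθ'
    refine ⟨m, V, ?_⟩
    rw [neg_one_mul, neg_one_mul] at hV
    exact hV

end FAF
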