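import Pool.Agent.Helper769.FAF.TDefs

set_option autoImplicit false

open Finset

noncomputable section

namespace FAF

/-- total entropy production of window `n+1` -/
def Pt (q : ℝ) (μ : Fam) (n : ℕ) : ℝ := Pf q μ n + ∑ k ∈ range n, Pb q μ (n + 1) k

/-- conditional entropy of site `n` given the sites `< n` -/
def aN (q : ℝ) (μ : Fam) (n : ℕ) : ℝ := μ.E (n + 1) (al q μ n)

/-- relative entropy of Bernoulli(`a`) with respect to Bernoulli(`b`) -/
def kl2 (a b : ℝ) : ℝ :=
  a * (Real.log a - Real.log b) + (1 - a) * (Real.log (1 - a) - Real.log (1 - b))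

/-- the mixture with equal weights -/
def half (μ ν : Fam) : Fam where
  p := fun n z => (μ.p n z + ν.p n z) / 2
  dep := fun n z w h => by
    show (μ.p n z + ν.p n z) / 2 = (μ.p n w + ν.p n w) / 2
    rw [μ.dep n z w h, ν.dep n z w h]
  nn := fun n z => by have := μ.nn n z; have := ν.nn n z; linarith
  one := fun z => by rw [μ.one, ν.one]; norm_num
  con := fun n z => by rw [μ.con n z, ν.con n z]; ring

/-- conditional probability of the first label given the first `n` sites -/
def th (μ ν : Fam) (n : ℕ) (z : Env) : ℝ := μ.p n z / (μ.p n z + ν.p n z)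

/-- increment of the information -/
def eN (μ ν : Fam) (n : ℕ) : ℝ :=
  ∑ z ∈ W (n + 1), (half μ ν).p (n + 1) z * kl2 (th μ ν (n + 1) z) (th μ ν n z)

/-- words which vanish on the first `M` sites -/
def YY (M N : ℕ) : Finset Env := by
  classical exact (W N).filter (fun y => ∀ k < M, y k = false)

/-- first `M` sites from `x`, the others from `y` -/
def paste (M : ℕ) (x y : Env) : Env := fun k => if k < M then x k else y k

/-- infected sites relative to the site at distance `i` behind the front (the front is at `i`),
looking at most `R` sites behind it -/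
def SS (R i : ℕ) (z : Env) : Finset ℤ :=
  insert (i : ℤ) ((Icc (1 - (R : ℤ)) ((i : ℤ) - 1)).filter
    (fun x => z ((i : ℤ) - 1 - x).toNat = true))

/-- generator of the environment together with the distance `i` of a fixed site to the front -/
def Lab (q : ℝ) (n : ℕ) (H : ℕ → Env → ℝ) (i : ℕ) (z : Env) : ℝ :=
  q * (H (i + 1) (cons true z) - H i z)
  + (if z 0 = true then (1 - q) * (H (i - 1) (tl z) - H i z) else 0)
  + ∑ k ∈ range n, cr z k * (q * H i (up z k true) + (1 - q) * H i (up z k false) - H i z)

/-- truncated two-sided Lyapunov function of the site at distance `i` behind the front -/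
def FF (θ : ℝ) (V : Env → ℝ) (R i0 l : ℕ) (M : ℤ) (i : ℕ) (z : Env) : ℝ :=
  min (WW θ V (-M) M 0 (SS R i z)) (Real.exp (θ * (l + i0 - i)) * V z)

end FAF
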